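import Pool.Agent.CLO.LfC
import Pool.Agent.CLO.Gts
import Pool.Agent.ORA.GridA
import Pool.Agent.ORA.GridB

/-!
# CLO: main theorem
-/

set_option autoImplicit false

namespace Pool.Agent.CLO

open MvPolynomial Pool.Agent.ORB Pool.Agent.ORG Pool.Agent.ORA

/-- `P` is the image, under a local homomorphism `O → F`, of `h(φ(x))`, `O` a valuation ring, `φ` a
polynomial map over `O` whose Jacobian determinant is a unit of `O`, `h` a polynomial over `O` which is
algebraic over `K(T_1, ..., T_N)`, `K` the fraction field of `O`; the `T_i` are formulas of depth `Δ` and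
occurrence `κ` over the leaves of a frame, at most `k` of them algebraically independent. -/
def LimitOrbit.{u, v, w} (n κ k c s d Δ : ℕ) {F : Type w} [Field F]
    (P : MvPolynomial (Fin n) F) : Prop :=
  ∃ (O : Type u) (_ : CommRing O) (_ : IsDomain O) (_ : ValuationRing O) (K : Type v) (_ : Field K)
    (_ : Algebra O K) (_ : IsFractionRing O K) (res : O →+* F) (_ : IsLocalHom res)
    (φ : Fin n → MvPolynomial (Fin n) O) (u : O)
    (a : Matrix (Fin n) (Fin n) (MvPolynomial (Fin n) O)) (N : ℕ)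
    (T : Fin N → MvPolynomial (Fin n) K) (h : MvPolynomial (Fin n) O),
    IsUnit u ∧ (Matrix.of fun i j => pderiv i (φ j)).det = C u ∧
    (∀ j i, (a j i).totalDegree ≤ 1) ∧ IsFrame (a.map (MvPolynomial.map (IsLocalRing.residue O))) s ∧
    (∀ i, OccFormula κ (Leaf (a.map (MvPolynomial.map (algebraMap O K))) c s d) Δ (T i)) ∧
    (∀ b : Finset (Fin N), AlgebraicIndepOn K T (b : Set (Fin N)) → b.card ≤ k) ∧
    IsAlgebraic (Algebra.adjoin K (Set.range T)) (MvPolynomial.map (algebraMap O K) h) ∧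
    P = MvPolynomial.map res (aeval φ h)

variable {n : ℕ}

theorem map_aeval {R S : Type*} [CommRing R] [CommRing S] (f : R →+* S)
    (φ : Fin n → MvPolynomial (Fin n) R) (h : MvPolynomial (Fin n) R) :
    MvPolynomial.map f (aeval φ h) =
      aeval (fun j => MvPolynomial.map f (φ j)) (MvPolynomial.map f h) := by
  induction h using MvPolynomial.induction_on with
  | C a => rw [aeval_C, algebraMap_eq, map_C, aeval_C, algebraMap_eq]
  | add p q hp hq => rw [map_add, map_add, map_add, map_add, hp, hq]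
  | mul_X p i hp => rw [map_mul, map_mul, map_mul, map_mul, hp, aeval_X, map_X, aeval_X]

theorem ordC_ge (n κ k c s d Δ : ℕ) : n * 2 ^ 2 ≤ ordC n κ k c s d Δ := by
  unfold ordC
  exact Nat.mul_le_mul_left _ (Nat.pow_le_pow_left (by omega) _)

/-- from natural numbers over one field to another field -/
theorem PhiP_map {κ F : Type*} [Field κ] [CharZero κ] [Field F] (ι : κ →+* F) (M E : ℕ)
    (f : MvPolynomial (Fin n) κ)
    (hf : PhiP (cvx κ n M) (fun _ => (0 : MvPolynomial (Fin 0) κ)) E f ≠ 0) :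
    PhiP (cvx F n M) (fun _ => (0 : MvPolynomial (Fin 0) F)) E (MvPolynomial.map ι f) ≠ 0 := by
  obtain ⟨x, hx, hxf⟩ := exists_mem_hitSet M E f.totalDegree f le_rfl hf
  obtain ⟨⟨z, w⟩, -, rfl⟩ := Finset.mem_image.1 hx
  refine PhiP_ne_zero (cvx F n M) _ E _ (fun _ => 0) (fun l => ((z l : ℕ) : F))
    (fun l => ((w l : ℕ) : F)) ?_
  have h1 : val (cvx F n M) (fun _ => eval (fun _ : Fin 0 => (0 : F)) (0 : MvPolynomial (Fin 0) F))
      (fun l => ((z l : ℕ) : F)) (fun l => ((w l : ℕ) : F)) =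
      ι ∘ fun i => ((pt n M E z w i : ℕ) : κ) := by
    funext i
    unfold val pt cvx
    simp only [map_zero, zero_add, cv_eval, Function.comp_apply, map_natCast]
    push_cast
    rfl
  rw [h1, ← MvPolynomial.map_eval]
  exact fun h2 => hxf (ι.injective (by rw [h2, map_zero]))

theorem core {O : Type*} [CommRing O] [IsDomain O] [ValuationRing O]
    {K : Type*} [Field K] [Algebra O K] [IsFractionRing O K] [CharZero (RF O)] (κ k c s d Δ : ℕ)
    (φ : Fin n → MvPolynomial (Fin n) O) (u : O) (hu : IsUnit u)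
    (hφ : (Matrix.of fun i j => pderiv i (φ j)).det = C u)
    (a : Matrix (Fin n) (Fin n) (MvPolynomial (Fin n) O)) (ha1 : ∀ j i, (a j i).totalDegree ≤ 1)
    (ha : IsFrame (a.map (rd O)) s) {N : ℕ} (T : Fin N → MvPolynomial (Fin n) K)
    (hT : ∀ i, OccFormula κ (Leaf (a.map (MvPolynomial.map (algebraMap O K))) c s d) Δ (T i))
    (htr : ∀ b : Finset (Fin N), AlgebraicIndepOn K T (b : Set (Fin N)) → b.card ≤ k)
    (h : MvPolynomial (Fin n) O)
    (halg : IsAlgebraic (Algebra.adjoin K (Set.range T)) (MvPolynomial.map (algebraMap O K) h))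
    (h0 : rd O (aeval φ h) ≠ 0) :
    PhiP (cvx (RF O) n (ordC n κ k c s d Δ)) (fun _ => (0 : MvPolynomial (Fin 0) (RF O)))
      (2 + seeds κ k Δ) (rd O (aeval φ h)) ≠ 0 := by
  have h1 : rd O (aeval φ h) = aeval (fun j => rd O (φ j)) (rd O h) := map_aeval _ φ h
  have h2 : rd O h ≠ 0 := by
    intro h3
    apply h0
    rw [h1, h3, map_zero]
  have h3 := occ_hitC (K := K) φ u hu hφ _ (linearIndependent_cvx _ (ordC_ge n κ k c s d Δ))
    (𝓛 := {g | Leaf (a.map (MvPolynomial.map (algebraMap O K))) c s d g})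
    (leaf_H1C φ u hu hφ κ k c s d Δ a ha1 ha) T hT htr (MvPolynomial.map (algebraMap O K) h) halg
    h 1 one_ne_zero (one_smul _ _).symm h2
  rw [h1]
  exact h3

theorem limit_hit.{u, v, w} (κ k c s d Δ : ℕ) {F : Type w} [Field F] [CharZero F]
    (P : MvPolynomial (Fin n) F) (hP : LimitOrbit.{u, v, w} n κ k c s d Δ P) (hP0 : P ≠ 0) :
    PhiP (cvx F n (ordC n κ k c s d Δ)) (fun _ => (0 : MvPolynomial (Fin 0) F))
      (2 + seeds κ k Δ) P ≠ 0 := by
  obtain ⟨O, _, _, _, K, _, _, _, res, _, φ, u, a, N, T, h, hu, hφ, ha1, ha, hT, htr, halg, rfl⟩ := hP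
  have hres : (IsLocalRing.ResidueField.lift res).comp (IsLocalRing.residue O) = res :=
    RingHom.ext fun x => IsLocalRing.ResidueField.lift_residue_apply res x
  haveI : CharZero (RF O) := (IsLocalRing.ResidueField.lift res).charZero
  have h1 : MvPolynomial.map res (aeval φ h) =
      MvPolynomial.map (IsLocalRing.ResidueField.lift res) (rd O (aeval φ h)) := by
    rw [MvPolynomial.map_map, hres]
  rw [h1] at hP0 ⊢
  refine PhiP_map _ _ _ _ (core (K := K) κ k c s d Δ φ u hu hφ a ha1 ha T hT htr h halg ?_)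
  intro h2
  apply hP0
  rw [h2, map_zero]

theorem main_hit.{u, v, w} (κ k c s d Δ D m : ℕ) {F : Type w} [Field F] [CharZero F]
    (P : Fin m → MvPolynomial (Fin n) F)
    (hP : ∀ j, P j ≠ 0 ∧ LimitOrbit.{u, v, w} n κ k c s d Δ (P j)) (g : MvPolynomial (Fin n) F)
    (hg : g ∣ ∏ j, P j) (hD : g.totalDegree ≤ D) :
    ∃ x ∈ hitSet n (ordC n κ k c s d Δ) (2 + seeds κ k Δ) (D * (ordC n κ k c s d Δ + 1)),
      eval (fun i => (x i : F)) g ≠ 0 := by
  refine exists_mem_hitSet _ _ D g hD ?_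
  intro h0
  obtain ⟨q, hq⟩ := hg
  have h1 := congrArg (PhiP (cvx F n (ordC n κ k c s d Δ)) (fun _ => (0 : MvPolynomial (Fin 0) F))
    (2 + seeds κ k Δ)) hq
  rw [map_mul, h0, zero_mul, map_prod, Finset.prod_eq_zero_iff] at h1
  obtain ⟨j, -, hj⟩ := h1
  exact limit_hit κ k c s d Δ (P j) (hP j).2 (hP j).1 hj

end Pool.Agent.CLO
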