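import Pool.Agent.SPE.Defs
import Pool.Agent.ORG.Defs
import Pool.Agent.ORB.CvDef
import Pool.Agent.ORB.H1

/-!
Project CLO (MP_e2be99_lc): closures (limits over valuation rings) and orbits of formulas of bounded
depth and bounded occurrence over products of powers of polynomials in small spaces closed under a
frame of vector fields.  Paper proof: `/team-store/pit7_I.md`.

`OccFormula`, `aff` (affine substitutions), `mSeq`, `seeds`, `AA`, `point`, `hittingSet`, `PhiP`, `gpA`,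
`gam0`, `Dc`, `Gate`, `pd` are those of `Pool.Agent.ORB`; `IsFrame`, `FrameLeaf` those of `Pool.Agent.ORG`;
`SPE.aff e l` is the affine form `e + ∑ l_i y_i`, `SPE.junta p e l = p(l_1, ..., l_c)`.
-/

set_option autoImplicit false

namespace Pool.Agent.CLO

open MvPolynomial Pool.Agent.ORB Pool.Agent.ORG

section leaves

variable {K : Type*} [Field K] {n : ℕ}

/-- `V` is closed under the vector fields `X_j = ∑ i, a_ji ∂/∂y_i`. -/
def FC (a : Matrix (Fin n) (Fin n) (MvPolynomial (Fin n) K))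
    (V : Submodule K (MvPolynomial (Fin n) K)) : Prop :=
  ∀ g ∈ V, ∀ j, ∑ i, a j i * pderiv i g ∈ V

/-- A leaf: `T = ∏_v h_v^(b_v) * ∏_{i<m} p_i(l_i1, ..., l_ic)^(q_i)`; the `h_v` (`r` of them) are in
spaces `V_v` closed under the `X_j`, `(1 + r n) ∏ dim V_v ≤ s`; `m ≤ d`, the `l_ib` are affine forms such
that the span of `1, l_i1, ..., l_ic` is closed under the `X_j`, the `p_i` have degree at most `d`; all
exponents `b_v, q_i ≥ 1`; the degree of `∏ h_v ∏ p_i(l_i1, ..., l_ic)` is at most `d`. -/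
def Leaf (a : Matrix (Fin n) (Fin n) (MvPolynomial (Fin n) K)) (c s d : ℕ)
    (T : MvPolynomial (Fin n) K) : Prop :=
  ∃ (r : ℕ) (h : Fin r → MvPolynomial (Fin n) K) (V : Fin r → Submodule K (MvPolynomial (Fin n) K))
    (b : Fin r → ℕ) (m : ℕ) (p : Fin m → MvPolynomial (Fin c) K) (e : Fin m → Fin c → K)
    (l : Fin m → Fin c → Fin n → K) (q : Fin m → ℕ),
    (∀ v, h v ∈ V v ∧ FC a (V v) ∧ FiniteDimensional K (V v) ∧ 1 ≤ b v) ∧
    (1 + r * n) * ∏ v, Module.finrank K (V v) ≤ s ∧ m ≤ d ∧ (∀ i, (p i).totalDegree ≤ d) ∧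
    (∀ i, 1 ≤ q i) ∧
    (∀ i j x, ∑ k, a j k * C (l i x k) ∈
      Submodule.span K ({1} ∪ Set.range fun x' => SPE.aff (e i x') (l i x'))) ∧
    ((∏ v, h v) * ∏ i, SPE.junta (p i) (e i) (l i)).totalDegree ≤ d ∧
    T = (∏ v, h v ^ b v) * ∏ i, SPE.junta (p i) (e i) (l i) ^ q i

end leaves

section numbers

/-- `μ = m_Δ (Δ + 1) d` -/
def muC (κ k d Δ : ℕ) : ℕ := mSeq κ k Δ * ((Δ + 1) * d)

/-- `R = (n+1)^(Δ+1) s (d+1) (μ+1)^c` -/
def rowC (n κ k c s d Δ : ℕ) : ℕ :=
  (n + 1) ^ (Δ + 1) * s * ((d + 1) * (muC κ k d Δ + 1) ^ c)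

/-- `N = (μ+1) R^((Δ+1) m_Δ)` -/
def dimC (n κ k c s d Δ : ℕ) : ℕ :=
  (muC κ k d Δ + 1) * rowC n κ k c s d Δ ^ ((Δ + 1) * mSeq κ k Δ)

/-- `M = n ((μ+1) (R^((Δ+1) m_Δ) + s + (d+1)(μ+1)^c) + 2)^2`: the order of the curves -/
def ordC (n κ k c s d Δ : ℕ) : ℕ :=
  n * (dimC n κ k c s d Δ + (muC κ k d Δ + 1) * (s + (d + 1) * (muC κ k d Δ + 1) ^ c) + 2) ^ 2

end numbers

section series

variable {n : ℕ}

/-- `y_i ↦ β_i + z y_i`, power series in `z` with coefficients in `R[y]`. -/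
noncomputable def PhS {R : Type*} [CommRing R] (β : Fin n → R) :
    MvPolynomial (Fin n) R →ₐ[R] PowerSeries (MvPolynomial (Fin n) R) :=
  aeval fun i => PowerSeries.C (C (β i)) + PowerSeries.X * PowerSeries.C (X i)

/-- Partial derivative of all coefficients. -/
noncomputable def dS {R : Type*} [CommRing R] (i : Fin n) :
    PowerSeries (MvPolynomial (Fin n) R) →ₗ[R] PowerSeries (MvPolynomial (Fin n) R) where
  toFun ξ := PowerSeries.mk fun m => pderiv i (PowerSeries.coeff m ξ)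
  map_add' ξ η := by
    ext1 m
    simp
  map_smul' x ξ := by
    ext1 m
    rw [PowerSeries.coeff_mk, RingHom.id_apply]
    have h1 : ∀ ζ : PowerSeries (MvPolynomial (Fin n) R), PowerSeries.coeff m (x • ζ) =
        x • PowerSeries.coeff m ζ := fun ζ => rfl
    rw [h1, h1, PowerSeries.coeff_mk, Derivation.map_smul]

theorem coeff_dS {R : Type*} [CommRing R] (i : Fin n) (ξ : PowerSeries (MvPolynomial (Fin n) R))
    (m : ℕ) : PowerSeries.coeff m (dS i ξ) = pderiv i (PowerSeries.coeff m ξ) := by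
  show PowerSeries.coeff m (PowerSeries.mk fun m => pderiv i (PowerSeries.coeff m ξ)) = _
  rw [PowerSeries.coeff_mk]

variable {K : Type*} [Field K]

/-- Truncation modulo `z^(μ+1)`. -/
noncomputable def trS (μ : ℕ) :
    PowerSeries (MvPolynomial (Fin n) K) →ₗ[K] Polynomial (MvPolynomial (Fin n) K) where
  toFun ξ := ∑ m ∈ Finset.range (μ + 1), Polynomial.monomial m (PowerSeries.coeff m ξ)
  map_add' ξ η := by
    rw [← Finset.sum_add_distrib]
    refine Finset.sum_congr rfl fun m _ => ?_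
    rw [map_add, map_add]
  map_smul' x ξ := by
    rw [RingHom.id_apply, Finset.smul_sum]
    refine Finset.sum_congr rfl fun m _ => ?_
    have h1 : PowerSeries.coeff m (x • ξ) = x • PowerSeries.coeff m ξ := rfl
    rw [h1, Polynomial.smul_monomial]

/-- `W` is closed under `(1/z) ∑ i, Φ(a_ji) dS_i`. -/
def XC (a : Matrix (Fin n) (Fin n) (MvPolynomial (Fin n) K)) (β : Fin n → K)
    (W : Submodule K (PowerSeries (MvPolynomial (Fin n) K))) : Prop :=
  ∀ ξ ∈ W, ∀ j, ∃ η ∈ W, ∑ i, PhS β (a j i) * dS i ξ = PowerSeries.X * η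

/-- `(1/z) dS_i` maps `W` to `W'`. -/
def DC (W W' : Submodule K (PowerSeries (MvPolynomial (Fin n) K))) : Prop :=
  ∀ ξ ∈ W, ∀ i, ∃ η ∈ W', dS i ξ = PowerSeries.X * η

/-- The dimension of `W` modulo `z^(μ+1)` is at most `N`. -/
def Dm (μ : ℕ) (W : Submodule K (PowerSeries (MvPolynomial (Fin n) K))) (N : ℕ) : Prop :=
  FiniteDimensional K (W.map (trS μ)) ∧ Module.finrank K (W.map (trS μ)) ≤ N

end series

section residues

variable {n : ℕ} (O : Type*) [CommRing O] [IsDomain O] [ValuationRing O]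

/-- The residue field. -/
abbrev RF : Type _ := IsLocalRing.ResidueField O

/-- Reduction of polynomials. -/
noncomputable abbrev rd : MvPolynomial (Fin n) O →+* MvPolynomial (Fin n) (RF O) :=
  MvPolynomial.map (IsLocalRing.residue O)

/-- The normalised multiples of `P` have a reduction which is not killed by `φ`. -/
def Pres {K : Type*} [Field K] [Algebra O K] {R : Type*} [CommRing R] [Algebra (RF O) R]
    (φ : MvPolynomial (Fin n) (RF O) →ₐ[RF O] R) (P : MvPolynomial (Fin n) K) : Prop :=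
  ∀ (G : MvPolynomial (Fin n) O) (x : K), x ≠ 0 →
    MvPolynomial.map (algebraMap O K) G = x • P → rd O G ≠ 0 → φ (rd O G) ≠ 0

/-- The Jacobian minors of size at most `N` of the members of `𝓒` are preserved. -/
def H1b {K : Type*} [Field K] [Algebra O K] {σ : Type*} (gp : Fin n → Polynomial (RF O))
    (γ : Fin n → MvPolynomial σ (RF O)) (c : ℕ) (𝓒 : Set (MvPolynomial (Fin n) K)) (N : ℕ) : Prop :=
  ∀ M ≤ N, ∀ a : Fin M → MvPolynomial (Fin n) K, (∀ i, a i ∈ 𝓒) → ∀ J : Fin M → Fin n,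
    (Matrix.of fun i j => pderiv (J j) (a i)).det ≠ 0 →
      Pres O (PhiP gp γ c) (Matrix.of fun i j => pderiv (J j) (a i)).det

variable {O} in
/-- The base point `β_j = b_j + ∑ i, A_ji A_i(u)`. -/
def bs (A : Matrix (Fin n) (Fin n) O) (b : Fin n → O) (M u : ℕ) (j : Fin n) : O :=
  b j + ∑ i : Fin n, A j i * ((AA M (i + 1) u : ℕ) : O)

variable {O} in
/-- The residues of the coefficients of `z^m` of the integral elements of `W` modulo `z^(m+1)` whose
lower coefficients have residue `0`. -/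
def Im {K : Type*} [Field K] [Algebra O K]
    (W : Submodule K (PowerSeries (MvPolynomial (Fin n) K))) (m : ℕ) :
    Set (MvPolynomial (Fin n) (RF O)) :=
  {c | ∃ η : PowerSeries (MvPolynomial (Fin n) O),
    (∃ ξ ∈ W, ∀ i ≤ m, MvPolynomial.map (algebraMap O K) (PowerSeries.coeff i η) =
      PowerSeries.coeff i ξ) ∧ (∀ i < m, rd O (PowerSeries.coeff i η) = 0) ∧
      rd O (PowerSeries.coeff m η) = c}

end residues

end Pool.Agent.CLO
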