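import Pool.Agent.CLO.LfB
import Pool.Agent.SPE.Main

/-!
# CLO: the Jacobian minors of derivatives of leaves are preserved
-/

set_option autoImplicit false

namespace Pool.Agent.CLO

open MvPolynomial Pool.Agent.ORB Pool.Agent.ORG Pool.Agent.ORA

variable {n : ℕ} {O : Type*} [CommRing O] [IsDomain O] [ValuationRing O] {K : Type*} [Field K]
  [Algebra O K] [IsFractionRing O K]

theorem frameLeaf_mono {κ : Type*} [Field κ] {a : Matrix (Fin n) (Fin n) (MvPolynomial (Fin n) κ)}
    {s s' : ℕ} (h : s ≤ s') {g : MvPolynomial (Fin n) κ} (hg : FrameLeaf a s g) :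
    FrameLeaf a s' g := by
  obtain ⟨W, h1, h2, h3, h4⟩ := hg
  exact ⟨W, h1, h2.trans h, h3, h4⟩

omit [IsDomain O] [ValuationRing O] [IsFractionRing O K] in
theorem eval_algebraMap (β : Fin n → O) (G : MvPolynomial (Fin n) O) :
    eval (fun j => algebraMap O K (β j)) (MvPolynomial.map (algebraMap O K) G) =
      algebraMap O K (eval β G) := by
  rw [MvPolynomial.map_eval]
  rfl

theorem leaf_H1C [CharZero (RF O)] (φ : Fin n → MvPolynomial (Fin n) O) (u : O) (hu : IsUnit u)
    (hφ : (Matrix.of fun i j => pderiv i (φ j)).det = C u) (κ k c s d Δ : ℕ)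
    (a : Matrix (Fin n) (Fin n) (MvPolynomial (Fin n) O)) (ha1 : ∀ j i, (a j i).totalDegree ≤ 1)
    (ha : IsFrame (a.map (rd O)) s) :
    H1c (K := K) φ (ordC n κ k c s d Δ) 2
      (Dc {g | Leaf (a.map (MvPolynomial.map (algebraMap O K))) c s d g} Δ) (mSeq κ k Δ) := by
  classical
  intro M' hM' f hf J hdet
  rcases Nat.eq_zero_or_pos M' with rfl | hpos
  · rw [Matrix.det_fin_zero]
    exact Pres_one
  have hOinj : Function.Injective (algebraMap O K) := IsFractionRing.injective O K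
  set aK := a.map (MvPolynomial.map (algebraMap O K)) with haK
  have haK1 : ∀ j i, (aK j i).totalDegree ≤ 1 := by
    intro j i
    rw [haK, Matrix.map_apply]
    exact (SPE.totalDegree_map_le' _ _).trans (ha1 j i)
  choose L hL T hT hfT using hf
  have hT0 : ∀ i, T i ≠ 0 := by
    intro i hi
    apply hdet
    refine Matrix.det_eq_zero_of_row_eq_zero i fun j => ?_
    rw [Matrix.of_apply, hfT, hi, pd_zero, map_zero]
  choose r h V b m p e l q hV hdim hm hp hq hX hdeg hTeq using hT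
  have hh : ∀ i v, h i v ≠ 0 := by
    intro i v hv
    apply hT0 i
    rw [hTeq i, Finset.prod_eq_zero (Finset.mem_univ v), zero_mul]
    rw [hv, zero_pow (by have := (hV i v).2.2.2; omega)]
  have hg : ∀ i x, SPE.junta (p i x) (e i x) (l i x) ≠ 0 := by
    intro i x hx
    apply hT0 i
    have h1 : ∏ x, SPE.junta (p i x) (e i x) (l i x) ^ q i x = 0 := by
      refine Finset.prod_eq_zero (Finset.mem_univ x) ?_
      rw [hx, zero_pow (by have := hq i x; omega)]
    rw [hTeq i, h1, mul_zero]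
  choose cG G hcG hG hG1 using fun i x =>
    SPE.normalise (O := O) (SPE.junta (p i x) (e i x) (l i x)) (hg i x)
  have hGr : ∀ i x, rd O (G i x) ≠ 0 := by
    intro i x h1
    obtain ⟨ν, hν⟩ := hG1 i x
    have h2 := congrArg (MvPolynomial.coeff ν) h1
    rw [MvPolynomial.coeff_map, hν, map_one, MvPolynomial.coeff_zero] at h2
    exact one_ne_zero h2
  -- numbers
  set M := ordC n κ k c s d Δ with hM
  set M0 := mSeq κ k Δ with hM0
  set μ := muC κ k d Δ with hμ
  have hM01 : 1 ≤ M0 := hpos.trans_le hM'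
  have hdμ : d ≤ μ := by
    rw [hμ, muC, ← hM0]
    calc d = 1 * (1 * d) := by ring
      _ ≤ M0 * ((Δ + 1) * d) := Nat.mul_le_mul hM01 (Nat.mul_le_mul_right _ (by omega))
  set R := rowC n κ k c s d Δ with hR
  set Z := dimC n κ k c s d Δ + (μ + 1) * (s + (d + 1) * (μ + 1) ^ c) + 2 with hZ
  have hMZ : M = n * Z ^ 2 := rfl
  have hbd : ∀ x, x ≤ Z → n * x ^ 2 ≤ M := fun x hx => by
    rw [hMZ]
    exact Nat.mul_le_mul_left _ (Nat.pow_le_pow_left hx 2)
  have hb1 : n * ((μ + 1) * R ^ ((Δ + 1) * M0)) ^ 2 ≤ M := by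
    refine hbd _ ?_
    have : dimC n κ k c s d Δ = (μ + 1) * R ^ ((Δ + 1) * M0) := rfl
    omega
  have hb2 : n * ((μ + 1) * s) ^ 2 ≤ M := by
    refine hbd _ ?_
    have : (μ + 1) * s ≤ (μ + 1) * (s + (d + 1) * (μ + 1) ^ c) := Nat.mul_le_mul_left _ (by omega)
    omega
  have hb3 : n * ((μ + 1) * (μ + 1) ^ c) ^ 2 ≤ M := by
    refine hbd _ ?_
    have h1 : (μ + 1) ^ c ≤ s + (d + 1) * (μ + 1) ^ c :=
      (Nat.le_mul_of_pos_left _ (Nat.succ_pos d)).trans (Nat.le_add_left _ _)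
    have : (μ + 1) * (μ + 1) ^ c ≤ (μ + 1) * (s + (d + 1) * (μ + 1) ^ c) :=
      Nat.mul_le_mul_left _ h1
    omega
  have hb4 : n * (s + (d + 1) ^ c) ^ 2 ≤ M := by
    refine hbd _ ?_
    have h1 : (d + 1) ^ c ≤ (μ + 1) ^ c := Nat.pow_le_pow_left (by omega) c
    have h2 : (μ + 1) ^ c ≤ (d + 1) * (μ + 1) ^ c := Nat.le_mul_of_pos_left _ (Nat.succ_pos d)
    have h3 : s + (d + 1) * (μ + 1) ^ c ≤ (μ + 1) * (s + (d + 1) * (μ + 1) ^ c) :=
      Nat.le_mul_of_pos_left _ (Nat.succ_pos μ)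
    omega
  -- the base point
  obtain ⟨-, mq, qf, hqf0, hqfL, hqf⟩ := ha
  obtain ⟨z0, t0, hzt⟩ := exists_point (fun j => rd O (φ j)) (IsLocalRing.residue O u)
    ((IsLocalRing.residue_ne_zero_iff_isUnit u).2 hu) (det_map (IsLocalRing.residue O) φ u hφ)
    (s + (d + 1) ^ c) M hb4
    (fun x : Fin (Fintype.card ((Σ i : Fin M', Fin (m i)) ⊕ Fin mq)) =>
      Sum.elim (fun y : Σ i : Fin M', Fin (m i) => rd O (G y.1 y.2)) qf
        ((Fintype.equivFin ((Σ i : Fin M', Fin (m i)) ⊕ Fin mq)).symm x))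
    (fun x => by
      rcases (Fintype.equivFin ((Σ i : Fin M', Fin (m i)) ⊕ Fin mq)).symm x with y | y
      · exact frameLeaf_mono (Nat.le_add_left _ _)
          (frameLeaf_resid_junta c d (p y.1 y.2) (e y.1 y.2) (l y.1 y.2) (hp y.1 y.2) (G y.1 y.2)
            (cG y.1 y.2) (hG y.1 y.2))
      · exact frameLeaf_mono (Nat.le_add_right _ _) (hqfL y))
    (fun x => by
      rcases (Fintype.equivFin ((Σ i : Fin M', Fin (m i)) ⊕ Fin mq)).symm x with y | y
      · exact hGr y.1 y.2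
      · exact hqf0 y)
  obtain ⟨β, hβ⟩ : ∃ β : Fin n → O, ∀ j, β j =
      eval (fun i : Fin n => ((z0 * AA M (i + 1) t0 : ℕ) : O)) (φ j) := ⟨_, fun j => rfl⟩
  have hβr : (fun j => eval (fun i : Fin n => ((z0 * AA M (i + 1) t0 : ℕ) : RF O)) (rd O (φ j))) =
      fun k => IsLocalRing.residue O (β k) := by
    funext j
    rw [hβ, MvPolynomial.map_eval]
    have h5 : (IsLocalRing.residue O) ∘ (fun i : Fin n => ((z0 * AA M (i + 1) t0 : ℕ) : O)) =
        fun i : Fin n => ((z0 * AA M (i + 1) t0 : ℕ) : RF O) := by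
      funext i
      rw [Function.comp_apply, map_natCast]
    rw [h5]
  rw [hβr] at hzt
  have hunit : ∀ i x, IsUnit (eval β (G i x)) := by
    intro i x
    rw [← IsLocalRing.residue_ne_zero_iff_isUnit, MvPolynomial.map_eval]
    have h1 := hzt ((Fintype.equivFin ((Σ i : Fin M', Fin (m i)) ⊕ Fin mq)) (Sum.inl ⟨i, x⟩))
    rw [Equiv.symm_apply_apply] at h1
    exact h1
  have hdetA : (Matrix.of fun j i => eval (fun k => IsLocalRing.residue O (β k))
      (rd O (a j i))).det ≠ 0 := by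
    refine hqf (fun k => IsLocalRing.residue O (β k)) fun y => ?_
    have h1 := hzt ((Fintype.equivFin ((Σ i : Fin M', Fin (m i)) ⊕ Fin mq)) (Sum.inr y))
    rw [Equiv.symm_apply_apply] at h1
    exact h1
  set βK : Fin n → K := fun i => algebraMap O K (β i) with hβK
  have hevG : ∀ i x, cG i x * eval βK (SPE.junta (p i x) (e i x) (l i x)) =
      algebraMap O K (eval β (G i x)) := by
    intro i x
    rw [← eval_algebraMap, hG, smul_eval]
  have h0 : ∀ i x, eval βK (SPE.junta (p i x) (e i x) (l i x)) ≠ 0 := by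
    intro i x h1
    have h2 := hevG i x
    rw [h1, mul_zero] at h2
    have h3 : eval β (G i x) = 0 := hOinj (by rw [← h2, map_zero])
    have h4 := hunit i x
    rw [h3] at h4
    exact not_isUnit_zero h4
  -- higher derivatives
  choose W hWX hWD hWL using fun i => leaf_omega aK haK1 βK μ c s d Δ (h i) (V i) (b i)
    (fun v => ⟨(hV i v).1, (hV i v).2.1, (hV i v).2.2.1⟩) (hdim i) (hh i) (hm i) (p i) (e i) (l i)
    (q i) (hX i) (h0 i) (hdeg i) ((L i).length + 1) (Nat.succ_le_succ (hL i))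
  choose ω ξ hξW hω hξ hωd using fun i j => hWL i (J j :: L i) rfl
  obtain ⟨hD, ⟨ζ, hζW, hζ⟩, hΩd⟩ := minor_det βK ((Δ + 1) * d)
    (fun i => ((∏ v, h i v) * ∏ x, SPE.junta (p i x) (e i x) (l i x)) ^ ((L i).length + 1)) T
    (fun i => (∏ x, SPE.junta (p i x) (e i x) (l i x)) ^ ((L i).length + 1))
    (fun i j => pderiv (J j) (f i)) ω ξ W
    (fun i j => by
      have h1 := hω i j
      rw [← hTeq i, pd_cons, ← hfT i] at h1
      exact h1)
    (fun i j => by rw [map_pow]; exact hξ i j) hξW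
    (fun i j => (hωd i j).trans (Nat.mul_le_mul_right _ (Nat.succ_le_succ (hL i))))
  -- the three kinds of polynomials
  have hPΩ : Pres O (Psi (fun j => rd O (φ j)) M 2) (Matrix.of ω).det := by
    obtain ⟨R0, hR0⟩ : ∃ R0 : MvPolynomial (Fin n) O,
      R0 = ∏ i, (∏ x, G i x) ^ ((L i).length + 1) := ⟨_, rfl⟩
    obtain ⟨cst, hcst⟩ : ∃ cst : K, cst = ∏ i, (∏ x, cG i x) ^ ((L i).length + 1) := ⟨_, rfl⟩
    have hcst0 : cst ≠ 0 := by
      rw [hcst]
      exact Finset.prod_ne_zero_iff.2 fun i _ => pow_ne_zero _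
        (Finset.prod_ne_zero_iff.2 fun x _ => hcG i x)
    have hR0K : MvPolynomial.map (algebraMap O K) R0 =
        C cst * ∏ i, (∏ x, SPE.junta (p i x) (e i x) (l i x)) ^ ((L i).length + 1) := by
      rw [hR0, hcst, map_prod, map_prod, ← Finset.prod_mul_distrib]
      refine Finset.prod_congr rfl fun i _ => ?_
      rw [map_pow, map_pow, map_prod, map_prod, ← mul_pow, ← Finset.prod_mul_distrib]
      congr 1
      refine Finset.prod_congr rfl fun x _ => ?_
      rw [hG, smul_eq_C_mul]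
    refine pres_of_space φ u hu hφ M z0 t0 β hβ a μ (R ^ ((Δ + 1) * M0)) hb1 (∏ i, W i)
      (XC_prod Finset.univ W fun i _ => hWX i) ?_ hdetA _ R0 ?_ (cst⁻¹ • ζ)
      (Submodule.smul_mem _ _ hζW) ?_ ?_
    · refine Dm_le (Dm_prod Finset.univ W (fun _ => R ^ (Δ + 1)) fun i _ => hWD i) ?_
      rw [Finset.prod_const, Finset.card_univ, Fintype.card_fin, ← pow_mul]
      refine Nat.pow_le_pow_right ?_ (Nat.mul_le_mul_left _ hM')
      have hs1 : 1 ≤ s := by
        refine le_trans ?_ (hdim ⟨0, hpos⟩)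
        refine Nat.mul_pos (by omega) (Finset.prod_pos fun v _ => ?_)
        exact one_le_finrank _ (hV _ v).2.2.1 _ (hV _ v).1 (hh _ v)
      exact Nat.mul_pos (Nat.mul_pos (Nat.pow_pos (Nat.succ_pos _)) hs1)
        (Nat.mul_pos (Nat.succ_pos _) (Nat.pow_pos (Nat.succ_pos _)))
    · rw [hR0, map_prod, IsUnit.prod_univ_iff]
      intro i
      rw [map_pow, map_prod]
      exact ((IsUnit.prod_univ_iff).2 fun x => hunit i x).pow _
    · rw [hζ, hR0K, map_mul]
      have h6 : PhS βK (C cst : MvPolynomial (Fin n) K) =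
          algebraMap K (PowerSeries (MvPolynomial (Fin n) K)) cst := by
        unfold PhS
        rw [aeval_C]
      rw [h6, mul_assoc, mul_smul_comm, ← Algebra.smul_def, smul_smul, mul_inv_cancel₀ hcst0,
        one_smul]
    · refine hΩd.trans ?_
      rw [hμ, muC, ← hM0]
      exact Nat.mul_le_mul_right _ hM'
  have hPh : ∀ i v, Pres O (Psi (fun j => rd O (φ j)) M 2) (h i v) := by
    intro i v
    have h7 : ∏ v, h i v ≠ 0 := Finset.prod_ne_zero_iff.2 fun v _ => hh i v
    have h8 : ∏ x, SPE.junta (p i x) (e i x) (l i x) ≠ 0 :=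
      Finset.prod_ne_zero_iff.2 fun x _ => hg i x
    refine pres_of_space φ u hu hφ M z0 t0 β hβ a μ s hb2 ((V i v).map (PhS βK).toLinearMap)
      (XC_PhS aK βK _ (hV i v).2.1) (Dm_PhS μ βK _ (hV i v).2.2.1 s ?_) hdetA _ 1 ?_
      (PhS βK (h i v)) ⟨h i v, (hV i v).1, rfl⟩ ?_ ?_
    · refine le_trans ?_ (hdim i)
      refine le_trans ?_ (Nat.le_mul_of_pos_left _ (by omega))
      refine Finset.single_le_prod' (f := fun v => Module.finrank K (V i v)) (fun v' _ => ?_)
        (Finset.mem_univ v)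
      exact one_le_finrank _ (hV i v').2.2.1 _ (hV i v').1 (hh i v')
    · rw [map_one]
      exact isUnit_one
    · rw [map_one, map_one, one_mul]
    · refine le_trans ?_ hdμ
      refine le_trans ?_ (hdeg i)
      rw [totalDegree_mul_of_isDomain h7 h8]
      refine le_trans ?_ (Nat.le_add_right _ _)
      have h9 : ∏ v', h i v' = h i v * ∏ v' ∈ Finset.univ.erase v, h i v' :=
        (Finset.mul_prod_erase Finset.univ _ (Finset.mem_univ v)).symm
      rw [h9, totalDegree_mul_of_isDomain (hh i v)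
        (Finset.prod_ne_zero_iff.2 fun v' _ => hh i v')]
      exact Nat.le_add_right _ _
  have hPg : ∀ i x, Pres O (Psi (fun j => rd O (φ j)) M 2) (SPE.junta (p i x) (e i x) (l i x)) := by
    intro i x
    have h7 : ∏ v, h i v ≠ 0 := Finset.prod_ne_zero_iff.2 fun v _ => hh i v
    have h8 : ∏ x, SPE.junta (p i x) (e i x) (l i x) ≠ 0 :=
      Finset.prod_ne_zero_iff.2 fun x _ => hg i x
    obtain ⟨U, hUX, -, -, -, hUm, hUp, -⟩ := exists_junta_space aK βK μ (e i x) (l i x) (hX i x)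
    refine pres_of_space φ u hu hφ M z0 t0 β hβ a μ ((μ + 1) ^ c) hb3 U hUX hUm hdetA _ 1 ?_
      (PhS βK (SPE.junta (p i x) (e i x) (l i x))) (hUp (p i x)).1 ?_ ?_
    · rw [map_one]
      exact isUnit_one
    · rw [map_one, map_one, one_mul]
    · refine le_trans ?_ hdμ
      refine le_trans ?_ (hdeg i)
      rw [totalDegree_mul_of_isDomain h7 h8]
      refine le_trans ?_ (Nat.le_add_left _ _)
      have h9 : ∏ x', SPE.junta (p i x') (e i x') (l i x') = SPE.junta (p i x) (e i x) (l i x) *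
          ∏ x' ∈ Finset.univ.erase x, SPE.junta (p i x') (e i x') (l i x') :=
        (Finset.mul_prod_erase Finset.univ _ (Finset.mem_univ x)).symm
      rw [h9, totalDegree_mul_of_isDomain (hg i x)
        (Finset.prod_ne_zero_iff.2 fun x' _ => hg i x')]
      exact Nat.le_add_right _ _
  have hPT : Pres O (Psi (fun j => rd O (φ j)) M 2) (∏ i, T i) := by
    refine Pres_prod Finset.univ T fun i _ => ?_
    rw [hTeq i]
    exact Pres_mul (Pres_prod _ _ fun v _ => Pres_pow (hPh i v) _)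
      (Pres_prod _ _ fun x _ => Pres_pow (hPg i x) _)
  have hE : ∏ i, ((∏ v, h i v) * ∏ x, SPE.junta (p i x) (e i x) (l i x)) ^ ((L i).length + 1) ≠ 0 := by
    refine Finset.prod_ne_zero_iff.2 fun i _ => pow_ne_zero _ (mul_ne_zero ?_ ?_)
    · exact Finset.prod_ne_zero_iff.2 fun v _ => hh i v
    · exact Finset.prod_ne_zero_iff.2 fun x _ => hg i x
  refine Pres_of_mul (Q := ∏ i, ((∏ v, h i v) * ∏ x, SPE.junta (p i x) (e i x) (l i x)) ^
    ((L i).length + 1)) ?_ hE
  rw [mul_comm]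
  have h10 : (Matrix.of fun i j => pderiv (J j) (f i)) =
      Matrix.of (fun i j : Fin M' => pderiv (J j) (f i)) := rfl
  rw [hD]
  exact Pres_mul hPT hPΩ

end Pool.Agent.CLO
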