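import Pool.Agent.CLO.Exa

/-!
# CLO: explicit leaves
-/

set_option autoImplicit false

namespace Pool.Agent.CLO

open MvPolynomial Pool.Agent.ORB Pool.Agent.ORG

variable {n T w r : ℕ} {K : Type*} [Field K]

/-- a junta in single variables -/
theorem junta_single {c : ℕ} (v : Fin c → Fin n) (p : MvPolynomial (Fin c) K) :
    SPE.junta p (fun _ => 0) (fun x => (Pi.single (v x) (1 : K) : Fin n → K)) = rename v p := by
  classical
  have h2 : ∀ x, SPE.aff (0 : K) (Pi.single (v x) (1 : K) : Fin n → K) = X (v x) := by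
    intro x
    unfold SPE.aff
    rw [C_0, zero_add, Finset.sum_eq_single (v x)]
    · rw [Pi.single_eq_same, C_1, one_mul]
    · intro i _ hi
      rw [Pi.single_eq_of_ne hi, C_0, zero_mul]
    · intro h
      exact absurd (Finset.mem_univ _) h
  unfold SPE.junta
  rw [rename_eq_aeval]
  congr 1
  congr 1
  funext x
  exact h2 x

/-- The frame `∂/∂y_j`. -/
theorem leaf_one (c s d t m : ℕ) (h : Fin t → MvPolynomial (Fin n) K) (s' b : Fin t → ℕ)
    (hh : ∀ v, FrameLeaf 1 (s' v) (h v)) (hb : ∀ v, 1 ≤ b v) (hs : (1 + t * n) * ∏ v, s' v ≤ s)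
    (p : Fin m → MvPolynomial (Fin c) K) (e : Fin m → Fin c → K) (l : Fin m → Fin c → Fin n → K)
    (q : Fin m → ℕ) (hm : m ≤ d) (hp : ∀ i, (p i).totalDegree ≤ d) (hq : ∀ i, 1 ≤ q i)
    (hd : ((∏ v, h v) * ∏ i, SPE.junta (p i) (e i) (l i)).totalDegree ≤ d) :
    Leaf 1 c s d ((∏ v, h v ^ b v) * ∏ i, SPE.junta (p i) (e i) (l i) ^ q i) :=
  leaf_mk 1 c s d t m h s' b hh hb hs p e l q hm hp hq (fun i j x => junta_one (e i) (l i) j x) hd

/-- The gauge frame; juntas in the variables outside the matrices. -/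
theorem leaf_imF (e : Fin n ≃ (Fin T × Fin w × Fin w) ⊕ Fin r) (cut : Finset (Fin T))
    (B : Finset (Fin r)) (c s d t m : ℕ) (h : Fin t → MvPolynomial (Fin n) K) (s' b : Fin t → ℕ)
    (hh : ∀ v, FrameLeaf (imF K e cut B) (s' v) (h v)) (hb : ∀ v, 1 ≤ b v)
    (hs : (1 + t * n) * ∏ v, s' v ≤ s) (p : Fin m → MvPolynomial (Fin c) K)
    (v : Fin m → Fin c → Fin r) (q : Fin m → ℕ) (hm : m ≤ d) (hp : ∀ i, (p i).totalDegree ≤ d)
    (hq : ∀ i, 1 ≤ q i)
    (hd : ((∏ v, h v) * ∏ i, rename (fun x => e.symm (Sum.inr (v i x))) (p i)).totalDegree ≤ d) :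
    Leaf (imF K e cut B) c s d
      ((∏ v, h v ^ b v) * ∏ i, rename (fun x => e.symm (Sum.inr (v i x))) (p i) ^ q i) := by
  have h1 : ∀ i, rename (fun x => e.symm (Sum.inr (v i x))) (p i) =
      SPE.junta (p i) (fun _ => 0) (fun x => (Pi.single (e.symm (Sum.inr (v i x))) (1 : K) :
        Fin n → K)) := fun i => (junta_single _ _).symm
  have h2 := leaf_mk (imF K e cut B) c s d t m h s' b hh hb hs p (fun _ _ => 0)
    (fun i x => (Pi.single (e.symm (Sum.inr (v i x))) (1 : K) : Fin n → K)) q hm hp hq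
    (fun i j x => junta_imF e cut B (v i) j x)
    (by
      rw [Finset.prod_congr rfl fun i _ => h1 i] at hd
      exact hd)
  have h3 : ∏ i, rename (fun x => e.symm (Sum.inr (v i x))) (p i) ^ q i =
      ∏ i, SPE.junta (p i) (fun _ => 0) (fun x => (Pi.single (e.symm (Sum.inr (v i x))) (1 : K) :
        Fin n → K)) ^ q i := Finset.prod_congr rfl fun i _ => by rw [h1 i]
  rw [h3]
  exact h2

theorem seg_leaf (e : Fin n ≃ (Fin T × Fin w × Fin w) ⊕ Fin r) (cut : Finset (Fin T))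
    (B : Finset (Fin r)) (p d : ℕ) (hd : p + d ≤ T)
    (hcut : ∀ l : Fin T, p < l → l < p + d → l ∉ cut) (x y : Fin w) :
    FrameLeaf (imF K e cut B) (w ^ 2) (seg K e p d x y) := by
  have hw : 0 < w := x.pos
  rw [imF_eq]
  exact frameLeaf_seg e cut B (le_of_eq (sq w).symm) (Nat.pow_pos hw) hd hcut x y

end Pool.Agent.CLO
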