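import Pool.Agent.CLO.Fin
import Pool.Agent.CLO.ExaB

/-!
# CLO: the statement
-/

set_option autoImplicit false

namespace Pool.Agent.CLO

open MvPolynomial Pool.Agent.ORB Pool.Agent.ORG Pool.Agent.ORA

/-- `R = D (M + 1)` -/
def radC (n κ k c s d Δ D : ℕ) : ℕ := D * (ordC n κ k c s d Δ + 1)

/-- The hitting set: the points `x_i = ∑_{l<E} z_l A_i(w_l)`, `E = 2 + m_0 + ... + m_Δ`,
`z_l, w_l ∈ {0, ..., R}`. -/
def hitC (n κ k c s d Δ D : ℕ) : Finset (Fin n → ℕ) :=
  hitSet n (ordC n κ k c s d Δ) (2 + seeds κ k Δ) (radC n κ k c s d Δ D)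

/-- The frame `∂/∂y_j` over `O` and its leaves over `K`: the `h_v` are in spaces closed under all
partial derivatives, the affine forms `l_ij` are arbitrary. -/
def AdditiveFrame (n c s d : ℕ) (O : Type*) [CommRing O] [IsDomain O] [ValuationRing O] (K : Type*)
    [Field K] [Algebra O K] : Prop :=
  IsFrame ((1 : Matrix (Fin n) (Fin n) (MvPolynomial (Fin n) O)).map
    (MvPolynomial.map (IsLocalRing.residue O))) s ∧
  ∀ (t m : ℕ) (h : Fin t → MvPolynomial (Fin n) K) (s' b : Fin t → ℕ)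
    (p : Fin m → MvPolynomial (Fin c) K) (e : Fin m → Fin c → K) (l : Fin m → Fin c → Fin n → K)
    (q : Fin m → ℕ), (∀ v, FrameLeaf 1 (s' v) (h v)) → (∀ v, 1 ≤ b v) →
    (1 + t * n) * ∏ v, s' v ≤ s → m ≤ d → (∀ i, (p i).totalDegree ≤ d) → (∀ i, 1 ≤ q i) →
    ((∏ v, h v) * ∏ i, SPE.junta (p i) (e i) (l i)).totalDegree ≤ d →
    Leaf ((1 : Matrix (Fin n) (Fin n) (MvPolynomial (Fin n) O)).map
      (MvPolynomial.map (algebraMap O K))) c s d
      ((∏ v, h v ^ b v) * ∏ i, SPE.junta (p i) (e i) (l i) ^ q i)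

/-- The frame `imF` over `O` (see `imF`: the gauge fields of `T` matrices `M_l` of size `w` whose entries
are variables, and `∂/∂y_p` or `y_p ∂/∂y_p` for the other variables) and its leaves over `K`: the `p_i`
are polynomials in `c` of the other variables, the `h_v` are for example entries of products
`M_p ... M_{p+d'-1}` without a cut inside and polynomials with few monomials in the other variables. -/
def GaugeFrame (n c s d : ℕ) (O : Type*) [CommRing O] [IsDomain O] [ValuationRing O] (K : Type*)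
    [Field K] [Algebra O K] {T w r : ℕ} (e : Fin n ≃ (Fin T × Fin w × Fin w) ⊕ Fin r)
    (cut : Finset (Fin T)) (B : Finset (Fin r)) : Prop :=
  (∀ j i, (imF O e cut B j i).totalDegree ≤ 1) ∧
  IsFrame ((imF O e cut B).map (MvPolynomial.map (IsLocalRing.residue O))) s ∧
  (∀ (t m : ℕ) (h : Fin t → MvPolynomial (Fin n) K) (s' b : Fin t → ℕ)
    (p : Fin m → MvPolynomial (Fin c) K) (v : Fin m → Fin c → Fin r) (q : Fin m → ℕ),
    (∀ v, FrameLeaf (imF K e cut B) (s' v) (h v)) → (∀ v, 1 ≤ b v) →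
    (1 + t * n) * ∏ v, s' v ≤ s → m ≤ d → (∀ i, (p i).totalDegree ≤ d) → (∀ i, 1 ≤ q i) →
    ((∏ v, h v) * ∏ i, rename (fun x => e.symm (Sum.inr (v i x))) (p i)).totalDegree ≤ d →
    Leaf ((imF O e cut B).map (MvPolynomial.map (algebraMap O K))) c s d
      ((∏ v, h v ^ b v) * ∏ i, rename (fun x => e.symm (Sum.inr (v i x))) (p i) ^ q i)) ∧
  (∀ p d', p + d' ≤ T → (∀ l : Fin T, p < l → l < p + d' → l ∉ cut) →
    ∀ x y, FrameLeaf (imF K e cut B) (w ^ 2) (seg K e p d' x y)) ∧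
  (∀ (s0 : ℕ) (g : MvPolynomial (Fin n) K), g.support.card ≤ s0 →
    (∀ t, e.symm (Sum.inl t) ∉ g.vars) → FrameLeaf (imF K e cut ∅) s0 g)

theorem additiveFrame (n c s d : ℕ) (O : Type*) [CommRing O] [IsDomain O] [ValuationRing O]
    (K : Type*) [Field K] [Algebra O K] : AdditiveFrame n c s d O K := by
  refine ⟨?_, ?_⟩
  · rw [one_map]
    exact isFrame_one s
  · intro t m h s' b p e l q hh hb hs hm hp hq hd
    rw [one_map]
    exact leaf_one c s d t m h s' b hh hb hs p e l q hm hp hq hd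

theorem gaugeFrame (n c s d : ℕ) (O : Type*) [CommRing O] [IsDomain O] [ValuationRing O]
    (K : Type*) [Field K] [Algebra O K] {T w r : ℕ} (e : Fin n ≃ (Fin T × Fin w × Fin w) ⊕ Fin r)
    (cut : Finset (Fin T)) (B : Finset (Fin r)) (h4 : 4 ^ w ≤ s) (h2 : 2 ≤ s) :
    GaugeFrame n c s d O K e cut B := by
  refine ⟨imF_degree e cut B, ?_, ?_, ?_, ?_⟩
  · rw [imF_map]
    exact isFrame_immFrame e cut B h4 h2
  · intro t m h s' b p v q hh hb hs hm hp hq hd
    rw [imF_map]
    exact leaf_imF e cut B c s d t m h s' b hh hb hs p v q hm hp hq hd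
  · intro p d' hd hcut x y
    exact seg_leaf e cut B p d' hd hcut x y
  · intro s0 g hg hv
    exact frameLeaf_sparse e cut g hg hv

end Pool.Agent.CLO
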