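import Pool.Agent.CLO.Defs
import Pool.Agent.ORA.Base
import Pool.Agent.ORA.GridA
import Pool.Agent.SPE.Hsp
import Pool.Agent.SPE.JMem

/-!
# CLO: the base point
-/

set_option autoImplicit false

namespace Pool.Agent.CLO

open MvPolynomial Pool.Agent.ORB Pool.Agent.ORG Pool.Agent.ORA

variable {n : ℕ}

/- PLAN. `ORA.base_one` for every `q l`; `Psi φ M 1 (∏ l, q l) ≠ 0` (`map_prod`, domain);
`Psi_apply`, `ORA.exists_mem_hitSet` with `E = 1`, `f = aeval φ (∏ l, q l)`, `D = f.totalDegree`; the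
points of `hitSet n M 1 R` are `pt n M 1 z w i = z 0 * AA M (i+1) (w 0)`. -/
theorem exists_point {κ : Type*} [Field κ] [CharZero κ] (φ : Fin n → MvPolynomial (Fin n) κ) (e : κ)
    (he : e ≠ 0) (hφ : (Matrix.of fun i j => pderiv i (φ j)).det = C e) (s M : ℕ)
    (hM : n * s ^ 2 ≤ M) {m : ℕ} (q : Fin m → MvPolynomial (Fin n) κ)
    (hq : ∀ l, FrameLeaf 1 s (q l)) (hq0 : ∀ l, q l ≠ 0) :
    ∃ z0 t0 : ℕ, ∀ l, eval (fun j => eval (fun i : Fin n =>
      ((z0 * AA M (i + 1) t0 : ℕ) : κ)) (φ j)) (q l) ≠ 0 := by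
  have h1 : Psi φ M 1 (∏ l, q l) ≠ 0 := by
    rw [map_prod]
    exact Finset.prod_ne_zero_iff.2 fun l _ => base_one φ e he hφ s M hM (hq l) (hq0 l)
  rw [Psi_apply] at h1
  obtain ⟨x, hx, hxne⟩ := exists_mem_hitSet M 1 _ (aeval φ (∏ l, q l)) le_rfl h1
  unfold hitSet at hx
  rw [Finset.mem_image] at hx
  obtain ⟨a, -, rfl⟩ := hx
  refine ⟨a.1 0, a.2 0, fun l h0 => hxne ?_⟩
  obtain ⟨α, hα⟩ : ∃ α : Fin n → κ, α = fun i : Fin n =>
      ((a.1 0 * AA M (i + 1) (a.2 0) : ℕ) : κ) := ⟨_, rfl⟩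
  have h2 : (fun i : Fin n => ((pt n M 1 a.1 a.2 i : ℕ) : κ)) = α := by
    funext i
    rw [hα]
    unfold pt
    rw [Fin.sum_univ_one]
  rw [h2]
  rw [← hα] at h0
  have h5 : (aeval α : MvPolynomial (Fin n) κ →ₐ[κ] κ).comp (aeval φ) =
      aeval (fun j => eval α (φ j)) := by
    apply MvPolynomial.algHom_ext
    intro j
    rw [AlgHom.comp_apply, aeval_X, aeval_X]
    rfl
  have h4 : eval α (aeval φ (∏ l, q l)) = eval (fun j => eval α (φ j)) (∏ l, q l) :=
    congrArg (fun g : MvPolynomial (Fin n) κ →ₐ[κ] κ => g (∏ l, q l)) h5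
  rw [h4, map_prod]
  exact Finset.prod_eq_zero (Finset.mem_univ l) h0

/- PLAN. `x • junta p e l = junta (C x * p) e l`; `SPE.resid_junta` (see its use in the proof of
`SPH.core1`, SPH/Main.lean), `SPE.Closed`; `∑ i, 1 j i * pderiv i h = pderiv j h`. -/
theorem frameLeaf_resid_junta {O : Type*} [CommRing O] [IsDomain O] [ValuationRing O] {K : Type*}
    [Field K] [Algebra O K] [IsFractionRing O K] (c d : ℕ) (p : MvPolynomial (Fin c) K)
    (e : Fin c → K) (l : Fin c → Fin n → K) (hp : p.totalDegree ≤ d) (G : MvPolynomial (Fin n) O)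
    (x : K) (hG : MvPolynomial.map (algebraMap O K) G = x • SPE.junta p e l) :
    FrameLeaf 1 ((d + 1) ^ c) (rd O G) := by
  have h1 : x • SPE.junta p e l = SPE.junta (C x * p) e l := by
    unfold SPE.junta
    rw [map_mul, aeval_C, ← Algebra.smul_def]
  have h2 : (C x * p).totalDegree ≤ d :=
    (totalDegree_mul _ _).trans (by rw [totalDegree_C, zero_add]; exact hp)
  rw [h1] at hG
  obtain ⟨V, hV1, hV2, hV3, hV4⟩ := SPE.resid_junta (O := O) c d (C x * p) e l h2 G hG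
  refine ⟨V, hV2, hV3, hV4, fun h hh j => ?_⟩
  have h3 : ∑ i, (1 : Matrix (Fin n) (Fin n) (MvPolynomial (Fin n) (RF O))) j i * pderiv i h =
      pderiv j h := by
    rw [Finset.sum_eq_single j]
    · rw [Matrix.one_apply_eq, one_mul]
    · intro i _ hi
      rw [Matrix.one_apply_ne (Ne.symm hi), zero_mul]
    · intro h
      exact absurd (Finset.mem_univ j) h
  rw [h3]
  exact hV1 h hh j

end Pool.Agent.CLO
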