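import Mathlib

/-!
# CLO: tensors (Mathlib only)
-/

set_option autoImplicit false

namespace Pool.Agent.CLO

variable {n r : ℕ}

theorem exists_dirs {κ : Type*} [Field κ] [Infinite κ] (gp : Fin n → Polynomial κ)
    (hgp : LinearIndependent κ gp) (A : (Fin r → Fin n) → κ) (hA : ∃ ι, A ι ≠ 0) :
    ∃ w : Fin r → κ, ∑ ι : Fin r → Fin n, (∏ l, (gp (ι l)).eval (w l)) * A ι ≠ 0 := by
  classical
  induction r with
  | zero =>
    obtain ⟨ι, hι⟩ := hA
    refine ⟨fun l => l.elim0, ?_⟩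
    have h1 : (Finset.univ : Finset (Fin 0 → Fin n)) = {ι} := by
      ext x
      simp only [Finset.mem_univ, Finset.mem_singleton, true_iff]
      exact Subsingleton.elim _ _
    rw [h1, Finset.sum_singleton, Finset.univ_eq_empty, Finset.prod_empty, one_mul]
    exact hι
  | succ r ih =>
    obtain ⟨ι, hι⟩ := hA
    obtain ⟨w', hw'⟩ := ih (fun ι' => A (Fin.cons (ι 0) ι'))
      ⟨Fin.tail ι, by rw [Fin.cons_self_tail]; exact hι⟩
    let b : Fin n → κ := fun i => ∑ ι' : Fin r → Fin n,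
      (∏ l, (gp (ι' l)).eval (w' l)) * A (Fin.cons i ι')
    have hp : ∑ i, b i • gp i ≠ 0 := by
      intro h0
      exact hw' (Fintype.linearIndependent_iff.1 hgp b h0 (ι 0))
    have hx : ∃ x : κ, (∑ i, b i • gp i).eval x ≠ 0 := by
      by_contra hc
      push Not at hc
      exact hp (Polynomial.funext fun x => by rw [hc x, Polynomial.eval_zero])
    obtain ⟨x, hx⟩ := hx
    refine ⟨Fin.cons x w', ?_⟩
    have h1 : ∑ ι : Fin (r + 1) → Fin n,
        (∏ l, (gp (ι l)).eval ((Fin.cons x w' : Fin (r + 1) → κ) l)) * A ι =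
        (∑ i, b i • gp i).eval x := by
      rw [← (Fin.consEquiv (fun _ : Fin (r + 1) => Fin n)).sum_comp, Fintype.sum_prod_type,
        Polynomial.eval_finsetSum]
      refine Finset.sum_congr rfl fun i _ => ?_
      rw [Polynomial.eval_smul, smul_eq_mul]
      show _ = (∑ ι' : Fin r → Fin n, (∏ l, (gp (ι' l)).eval (w' l)) * A (Fin.cons i ι')) * _
      rw [Finset.sum_mul]
      refine Finset.sum_congr rfl fun ι' _ => ?_
      have h2 : (Fin.consEquiv (fun _ : Fin (r + 1) => Fin n)) (i, ι') = Fin.cons i ι' := rfl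
      rw [h2, Fin.prod_univ_succ]
      simp only [Fin.cons_zero, Fin.cons_succ]
      ring
    rw [h1]
    exact hx

theorem exists_pull {κ : Type*} [Field κ] (B : Matrix (Fin n) (Fin n) κ) (hB : B.det ≠ 0)
    (A : (Fin r → Fin n) → κ) (hA : ∃ ι, A ι ≠ 0) :
    ∃ ι' : Fin r → Fin n, ∑ ι : Fin r → Fin n, (∏ l, B (ι' l) (ι l)) * A ι ≠ 0 := by
  classical
  by_contra hc
  push Not at hc
  obtain ⟨m, hm⟩ := hA
  apply hm
  have hu : IsUnit B.det := isUnit_iff_ne_zero.2 hB
  have h1 : ∑ ι' : Fin r → Fin n, (∏ l, B⁻¹ (m l) (ι' l)) *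
      ∑ ι : Fin r → Fin n, (∏ l, B (ι' l) (ι l)) * A ι = A m := by
    have h2 : ∀ ι : Fin r → Fin n, ∑ ι' : Fin r → Fin n,
        (∏ l, B⁻¹ (m l) (ι' l)) * (∏ l, B (ι' l) (ι l)) = if ι = m then 1 else 0 := by
      intro ι
      have h3 : ∑ ι' : Fin r → Fin n, (∏ l, B⁻¹ (m l) (ι' l)) * (∏ l, B (ι' l) (ι l)) =
          ∏ l, ∑ i, B⁻¹ (m l) i * B i (ι l) := by
        rw [Finset.prod_univ_sum, Fintype.piFinset_univ]
        exact Finset.sum_congr rfl fun ι' _ => Finset.prod_mul_distrib.symm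
      have h4 : ∀ l, ∑ i, B⁻¹ (m l) i * B i (ι l) = (1 : Matrix (Fin n) (Fin n) κ) (m l) (ι l) := by
        intro l
        rw [← Matrix.nonsing_inv_mul B hu, Matrix.mul_apply]
      rw [h3]
      by_cases hι : ι = m
      · rw [if_pos hι]
        refine Finset.prod_eq_one fun l _ => ?_
        rw [h4 l, hι, Matrix.one_apply_eq]
      · rw [if_neg hι]
        obtain ⟨l, hl⟩ := Function.ne_iff.1 hι
        refine Finset.prod_eq_zero (Finset.mem_univ l) ?_
        rw [h4 l, Matrix.one_apply_ne (Ne.symm hl)]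
    calc ∑ ι' : Fin r → Fin n, (∏ l, B⁻¹ (m l) (ι' l)) *
        ∑ ι : Fin r → Fin n, (∏ l, B (ι' l) (ι l)) * A ι
        = ∑ ι : Fin r → Fin n, (∑ ι' : Fin r → Fin n,
            (∏ l, B⁻¹ (m l) (ι' l)) * (∏ l, B (ι' l) (ι l))) * A ι := by
          simp only [Finset.mul_sum, Finset.sum_mul]
          rw [Finset.sum_comm]
          refine Finset.sum_congr rfl fun ι _ => Finset.sum_congr rfl fun ι' _ => ?_
          ring
      _ = ∑ ι : Fin r → Fin n, (if ι = m then 1 else 0) * A ι :=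
          Finset.sum_congr rfl fun ι _ => by rw [h2 ι]
      _ = A m := by simp
  rw [← h1]
  exact Finset.sum_eq_zero fun ι' _ => by rw [hc ι', mul_zero]

theorem det_sum_rows {R : Type*} [CommRing R] (c : Fin r → Fin n → R) (D : Fin n → Fin r → R) :
    (Matrix.of fun l j : Fin r => ∑ i, c l i * D i j).det =
      ∑ ι : Fin r → Fin n, (∏ l, c l (ι l)) * (Matrix.of fun l j : Fin r => D (ι l) j).det := by
  classical
  have h1 : (Matrix.of fun l j : Fin r => ∑ i, c l i * D i j) =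
      fun l => ∑ i, c l i • (fun j => D i j) := by
    funext l j
    simp only [Matrix.of_apply, Finset.sum_apply, Pi.smul_apply, smul_eq_mul]
  have h2 : (Matrix.of fun l j : Fin r => ∑ i, c l i * D i j).det =
      (Matrix.detRowAlternating (n := Fin r) (R := R)).toMultilinearMap
        (fun l => ∑ i, c l i • (fun j => D i j)) := by
    rw [h1]
    rfl
  rw [h2, MultilinearMap.map_sum]
  refine Finset.sum_congr rfl fun ι _ => ?_
  rw [MultilinearMap.map_smul_univ (Matrix.detRowAlternating (n := Fin r) (R := R)).toMultilinearMap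
    (fun l => c l (ι l)) (fun l j => D (ι l) j), smul_eq_mul]
  rfl

end Pool.Agent.CLO
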