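import Pool.Agent.CLO.Def2
import Pool.Agent.CLO.Dir
import Pool.Agent.SPH.Star
import Pool.Agent.ORA.Chain

/-!
# CLO: the identity between the minors in the coordinates `x`, over the residue field
-/

set_option autoImplicit false

namespace Pool.Agent.CLO

open MvPolynomial Pool.Agent.ORB Pool.Agent.ORA Pool.Agent.SPH

variable {n r : ℕ} {O : Type*} [CommRing O] [IsDomain O] [ValuationRing O] {K : Type*} [Field K]
  [Algebra O K] [IsFractionRing O K]

/- PLAN. Over `K` put `φK j = map (algebraMap O K) (φ j)`, `T' j = aeval φK (T j)`,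
`F = aeval φK (map G) = map (aeval φ G)`.  `det (∂_i φK_j) = C (algebraMap u)`, so `aeval φK` is injective
(`ORA.aeval_injective`; `CharZero K` from `CharZero (RF O)`): `T'` is algebraically independent
(`AlgebraicIndependent.map'`) and `F` is dependent on `T'` (apply `aeval φK` to a relation).  So
`SPH.star T' _ F _`.  By `ORA.pderiv_aeval` and `det_sum_rows`:
`Jc T' ι = ∑ m, (∏ l, pderiv (ι l) (φK (m l))) * aeval φK (Jc T m)`, hence
`map (JX φ JO ι) = y • Jc T' ι`.  Multiply the identity of `SPH.star` by `y`, use
`MvPolynomial.map_injective` to get the identity over `O`, then apply `rd O` (`pderiv_map`). -/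
theorem star_x [CharZero (RF O)] (φ : Fin n → MvPolynomial (Fin n) O) (u : O) (hu : IsUnit u)
    (hφ : (Matrix.of fun i j => pderiv i (φ j)).det = C u) (T : Fin r → MvPolynomial (Fin n) K)
    (hT : AlgebraicIndependent K T) (G : MvPolynomial (Fin n) O)
    (hdep : ¬ AlgebraicIndependent K
      (fun o : Option (Fin r) => o.elim (MvPolynomial.map (algebraMap O K) G) T))
    (y : K) (JO : (Fin r → Fin n) → MvPolynomial (Fin n) O)
    (hJO : ∀ m, MvPolynomial.map (algebraMap O K) (JO m) = y • Jc T m) (ι : Fin r → Fin n)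
    (i : Fin n) :
    pderiv i (rd O (aeval φ G)) * rd O (JX φ JO ι) =
      ∑ l, pderiv (ι l) (rd O (aeval φ G)) * rd O (JX φ JO (Function.update ι l i)) := by
  classical
  have hinj : Function.Injective (algebraMap O K) := IsFractionRing.injective O K
  haveI : CharZero O := RingHom.charZero (IsLocalRing.residue O)
  haveI : CharZero K := charZero_of_injective_algebraMap hinj
  obtain ⟨φK, hφK⟩ : ∃ φK : Fin n → MvPolynomial (Fin n) K,
      ∀ j, φK j = MvPolynomial.map (algebraMap O K) (φ j) := ⟨_, fun _ => rfl⟩
  have hmap : ∀ P : MvPolynomial (Fin n) O, MvPolynomial.map (algebraMap O K) (aeval φ P) =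
      aeval φK (MvPolynomial.map (algebraMap O K) P) := by
    intro P
    induction P using MvPolynomial.induction_on with
    | C a => rw [aeval_C, map_C, aeval_C]; exact map_C _ _
    | add p q hp hq => rw [map_add, map_add, hp, hq, map_add, map_add]
    | mul_X p j hp => rw [map_mul, map_mul, hp, aeval_X, map_mul, map_mul, map_X, aeval_X, hφK]
  have hdet : (Matrix.of fun i j => pderiv i (φK j)).det = C (algebraMap O K u) := by
    have h1 := congrArg (MvPolynomial.map (algebraMap O K)) hφ
    rw [map_C, RingHom.map_det] at h1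
    rw [← h1]
    congr 1
    ext1 i j
    rw [Matrix.of_apply, RingHom.mapMatrix_apply, Matrix.map_apply, Matrix.of_apply, hφK, pderiv_map]
  have hu0 : algebraMap O K u ≠ 0 := fun h => hu.ne_zero (hinj (h.trans (map_zero _).symm))
  have hφinj := aeval_injective φK (algebraMap O K u) hu0 hdet
  obtain ⟨T', hT'⟩ : ∃ T' : Fin r → MvPolynomial (Fin n) K, T' = fun j => aeval φK (T j) := ⟨_, rfl⟩
  obtain ⟨F, hF⟩ : ∃ F : MvPolynomial (Fin n) K, F = MvPolynomial.map (algebraMap O K) (aeval φ G) :=
    ⟨_, rfl⟩
  have hTi : AlgebraicIndependent K T' := by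
    rw [hT']
    exact hT.map' hφinj
  have hdep' : ¬ AlgebraicIndependent K (fun o : Option (Fin r) => o.elim F T') := by
    intro h
    apply hdep
    refine AlgebraicIndependent.of_comp (aeval φK) ?_
    have h1 : (aeval φK : MvPolynomial (Fin n) K →ₐ[K] MvPolynomial (Fin n) K) ∘
        (fun o : Option (Fin r) => o.elim (MvPolynomial.map (algebraMap O K) G) T) =
        fun o : Option (Fin r) => o.elim F T' := by
      funext o
      cases o with
      | none => rw [hF, hmap]; rfl
      | some j => rw [hT']; rfl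
    rw [h1]
    exact h
  have hJc : ∀ ι : Fin r → Fin n, Jc T' ι =
      ∑ m : Fin r → Fin n, (∏ l, pderiv (ι l) (φK (m l))) * aeval φK (Jc T m) := by
    intro ι
    have h1 : Jc T' ι = (Matrix.of fun l j : Fin r =>
        ∑ i, pderiv (ι l) (φK i) * aeval φK (pderiv i (T j))).det := by
      unfold Jc
      congr 1
      ext1 l j
      rw [Matrix.of_apply, Matrix.of_apply, hT', pderiv_aeval]
      exact Finset.sum_congr rfl fun i _ => mul_comm _ _
    rw [h1, det_sum_rows (fun l i => pderiv (ι l) (φK i)) (fun i j => aeval φK (pderiv i (T j)))]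
    refine Finset.sum_congr rfl fun m _ => ?_
    congr 1
    unfold Jc
    rw [AlgHom.map_det]
    rfl
  have hJX : ∀ ι : Fin r → Fin n, MvPolynomial.map (algebraMap O K) (JX φ JO ι) = y • Jc T' ι := by
    intro ι
    rw [hJc, Finset.smul_sum]
    unfold JX
    rw [map_sum]
    refine Finset.sum_congr rfl fun m _ => ?_
    rw [map_mul, map_prod, hmap, hJO, map_smul, mul_smul_comm]
    congr 2
    refine Finset.prod_congr rfl fun l _ => ?_
    rw [hφK, pderiv_map]
  have hst := Pool.Agent.SPH.star T' hTi F hdep' ι i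
  have hO : pderiv i (aeval φ G) * JX φ JO ι =
      ∑ l, pderiv (ι l) (aeval φ G) * JX φ JO (Function.update ι l i) := by
    apply MvPolynomial.map_injective _ hinj
    rw [map_mul, map_sum, hJX, ← pderiv_map, ← hF, mul_smul_comm, hst, Finset.smul_sum]
    refine Finset.sum_congr rfl fun l _ => ?_
    rw [map_mul, hJX, ← pderiv_map, ← hF, mul_smul_comm]
  have h2 := congrArg (rd O) hO
  rw [map_mul, map_sum, ← pderiv_map] at h2
  rw [h2]
  refine Finset.sum_congr rfl fun l _ => ?_
  rw [map_mul, ← pderiv_map]

end Pool.Agent.CLO
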