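import Pool.Agent.CLO.Defs
import Pool.Agent.SPE.Nrm

/-!
# CLO: properties of `Pres`
-/

set_option autoImplicit false

namespace Pool.Agent.CLO

open MvPolynomial

variable {n : ℕ} {O : Type*} [CommRing O] [IsDomain O] [ValuationRing O] {K : Type*} [Field K]
  [Algebra O K] [IsFractionRing O K] {R : Type*} [CommRing R] [IsDomain R] [Algebra (RF O) R]
  {φ : MvPolynomial (Fin n) (RF O) →ₐ[RF O] R}

private theorem Prs_smul {P : MvPolynomial (Fin n) K} {G G' : MvPolynomial (Fin n) O} {x x' : K}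
    {a : O} (hG : MvPolynomial.map (algebraMap O K) G = x • P)
    (hG' : MvPolynomial.map (algebraMap O K) G' = x' • P) (ha : x' = algebraMap O K a * x) :
    rd O G' = C (IsLocalRing.residue O a) * rd O G := by
  have h1 : G' = C a * G := by
    apply MvPolynomial.map_injective (algebraMap O K) (IsFractionRing.injective O K)
    rw [map_mul, MvPolynomial.map_C, hG, hG', ha, mul_smul, MvPolynomial.smul_eq_C_mul]
  rw [h1, map_mul, MvPolynomial.map_C]

private theorem Prs_ne {a : O} {G G' : MvPolynomial (Fin n) O}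
    (h : rd O G' = C (IsLocalRing.residue O a) * rd O G) (h' : rd O G' ≠ 0) :
    IsLocalRing.residue O a ≠ 0 := by
  intro h0
  rw [h0, map_zero, zero_mul] at h
  exact h' h

/- PLAN. `G' = y G` with `y = x' / x ∈ K`; either `y ∈ O` or `y⁻¹ ∈ O` (`ValuationRing`); if `y` or `y⁻¹` was
in the maximal ideal then `rd O G' = 0` or `rd O G = 0`; so `y ∈ Oˣ`, `u` its residue. -/
theorem rd_unique {P : MvPolynomial (Fin n) K} (G G' : MvPolynomial (Fin n) O) (x x' : K)
    (hx : x ≠ 0) (hx' : x' ≠ 0) (hG : MvPolynomial.map (algebraMap O K) G = x • P)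
    (hG' : MvPolynomial.map (algebraMap O K) G' = x' • P) (h : rd O G ≠ 0) (h' : rd O G' ≠ 0) :
    ∃ u : RF O, u ≠ 0 ∧ rd O G' = C u * rd O G := by
  rcases ValuationRing.isInteger_or_isInteger O (x' / x) with ⟨a, ha⟩ | ⟨a, ha⟩
  · have h1 : x' = algebraMap O K a * x := by
      rw [ha, div_mul_cancel₀ _ hx]
    have h2 := Prs_smul hG hG' h1
    exact ⟨_, Prs_ne h2 h', h2⟩
  · have h1 : x = algebraMap O K a * x' := by
      rw [ha, inv_div, div_mul_cancel₀ _ hx']
    have h2 := Prs_smul hG' hG h1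
    have h3 := Prs_ne h2 h
    refine ⟨(IsLocalRing.residue O a)⁻¹, inv_ne_zero h3, ?_⟩
    rw [h2, ← mul_assoc, ← map_mul, inv_mul_cancel₀ h3, map_one, one_mul]

theorem Pres_of_exists {P : MvPolynomial (Fin n) K} (G : MvPolynomial (Fin n) O) (x : K)
    (hx : x ≠ 0) (hG : MvPolynomial.map (algebraMap O K) G = x • P) (h : φ (rd O G) ≠ 0) :
    Pres O φ P := by
  intro G' x' hx' hG' h'
  have hr : rd O G ≠ 0 := by
    intro h0
    rw [h0, map_zero] at h
    exact h rfl
  obtain ⟨u, hu, e⟩ := rd_unique G G' x x' hx hx' hG hG' hr h'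
  rw [e, map_mul]
  refine mul_ne_zero ?_ h
  have h1 : φ (C u) = algebraMap (RF O) R u := φ.commutes u
  rw [h1]
  exact (map_ne_zero_iff _ (algebraMap (RF O) R).injective).2 hu

private theorem Prs_zero : Pres O φ (0 : MvPolynomial (Fin n) K) := by
  intro G x _ hG h
  exfalso
  apply h
  rw [smul_zero] at hG
  have h1 : G = 0 := by
    apply MvPolynomial.map_injective (algebraMap O K) (IsFractionRing.injective O K)
    rw [hG, map_zero]
  rw [h1, map_zero]

private theorem Prs_one {g : MvPolynomial (Fin n) O} {ν : Fin n →₀ ℕ} (h : g.coeff ν = 1) :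
    rd O g ≠ 0 := by
  intro h0
  have h1 := congrArg (MvPolynomial.coeff ν) h0
  rw [MvPolynomial.coeff_map, h, map_one, MvPolynomial.coeff_zero] at h1
  exact one_ne_zero h1

/- PLAN. The case `P = 0` or `Q = 0`: `Pres O φ 0` holds since `map G = 0` gives `G = 0`.  Otherwise
`SPE.normalise` for `P` and `Q` (a coefficient `1`, so the reduction is not `0`), `Pres_of_exists` for the
product. -/
theorem Pres_mul {P Q : MvPolynomial (Fin n) K} (hP : Pres O φ P) (hQ : Pres O φ Q) :
    Pres O φ (P * Q) := by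
  by_cases hP0 : P = 0
  · rw [hP0, zero_mul]
    exact Prs_zero
  by_cases hQ0 : Q = 0
  · rw [hQ0, mul_zero]
    exact Prs_zero
  obtain ⟨c, g, hc, hg, ν, hν⟩ := SPE.normalise (O := O) P hP0
  obtain ⟨c', g', hc', hg', ν', hν'⟩ := SPE.normalise (O := O) Q hQ0
  have h1 := hP g c hc hg (Prs_one hν)
  have h2 := hQ g' c' hc' hg' (Prs_one hν')
  refine Pres_of_exists (g * g') (c * c') (mul_ne_zero hc hc') ?_ ?_
  · rw [map_mul, hg, hg', smul_mul_smul_comm]
  · rw [map_mul, map_mul]
    exact mul_ne_zero h1 h2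

theorem Pres_one : Pres O φ (1 : MvPolynomial (Fin n) K) := by
  refine Pres_of_exists 1 1 one_ne_zero ?_ ?_
  · rw [map_one, one_smul]
  · rw [map_one, map_one]
    exact one_ne_zero

theorem Pres_pow {P : MvPolynomial (Fin n) K} (hP : Pres O φ P) (m : ℕ) : Pres O φ (P ^ m) := by
  induction m with
  | zero =>
    rw [pow_zero]
    exact Pres_one
  | succ m ih =>
    rw [pow_succ]
    exact Pres_mul ih hP

theorem Pres_prod {ι : Type*} (s : Finset ι) (P : ι → MvPolynomial (Fin n) K)
    (hP : ∀ i ∈ s, Pres O φ (P i)) : Pres O φ (∏ i ∈ s, P i) := by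
  classical
  induction s using Finset.induction_on with
  | empty =>
    rw [Finset.prod_empty]
    exact Pres_one
  | insert i s hi ih =>
    rw [Finset.prod_insert hi]
    exact Pres_mul (hP i (Finset.mem_insert_self i s))
      (ih fun j hj => hP j (Finset.mem_insert_of_mem hj))

/- PLAN. `P = 0` is trivial; otherwise normalise `P` and `Q`. -/
theorem Pres_of_mul {P Q : MvPolynomial (Fin n) K} (h : Pres O φ (P * Q)) (hQ : Q ≠ 0) :
    Pres O φ P := by
  by_cases hP0 : P = 0
  · rw [hP0]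
    exact Prs_zero
  obtain ⟨c, g, hc, hg, ν, hν⟩ := SPE.normalise (O := O) P hP0
  obtain ⟨c', g', hc', hg', ν', hν'⟩ := SPE.normalise (O := O) Q hQ
  have h1 := h (g * g') (c * c') (mul_ne_zero hc hc') (by rw [map_mul, hg, hg', smul_mul_smul_comm])
    (by
      rw [map_mul]
      exact mul_ne_zero (Prs_one hν) (Prs_one hν'))
  refine Pres_of_exists g c hc hg ?_
  rw [map_mul, map_mul] at h1
  exact left_ne_zero_of_mul h1

theorem Pres_mono {R' : Type*} [CommRing R'] [Algebra (RF O) R']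
    {φ' : MvPolynomial (Fin n) (RF O) →ₐ[RF O] R'} (h : ∀ f, φ f ≠ 0 → φ' f ≠ 0)
    {P : MvPolynomial (Fin n) K} (hP : Pres O φ P) : Pres O φ' P :=
  fun G x hx hG hr => h _ (hP G x hx hG hr)

end Pool.Agent.CLO
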