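import Pool.Agent.CLO.BfaA
import Pool.Agent.CLO.Prs
import Pool.Agent.SPH.Tr
import Pool.Agent.SPH.Trd
import Pool.Agent.SPH.NrmF

/-!
# CLO: border faithfulness
-/

set_option autoImplicit false

namespace Pool.Agent.CLO

open MvPolynomial Pool.Agent.ORB Pool.Agent.ORA Pool.Agent.SPH

variable {n : ℕ} {O : Type*} [CommRing O] [IsDomain O] [ValuationRing O] {K : Type*} [Field K]
  [Algebra O K] [IsFractionRing O K]

private theorem bfaB_rd_aeval (φ : Fin n → MvPolynomial (Fin n) O) (G : MvPolynomial (Fin n) O) :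
    rd O (aeval φ G) = aeval (fun j => rd O (φ j)) (rd O G) := by
  induction G using MvPolynomial.induction_on with
  | C a => rw [map_C, aeval_C, aeval_C, algebraMap_eq, algebraMap_eq, map_C]
  | add p q hp hq => rw [map_add, map_add, map_add, map_add, hp, hq]
  | mul_X p i hp => rw [map_mul, map_mul, map_mul, map_mul, hp, aeval_X, map_X, aeval_X]

private theorem bfaB_eval_aeval {κ : Type*} [Field κ] (φ : Fin n → MvPolynomial (Fin n) κ)
    (p : Fin n → κ) (G : MvPolynomial (Fin n) κ) :
    eval p (aeval φ G) = eval (fun j => eval p (φ j)) G := by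
  induction G using MvPolynomial.induction_on with
  | C a => rw [aeval_C, algebraMap_eq, eval_C, eval_C]
  | add p q hp hq => rw [map_add, map_add, map_add, hp, hq]
  | mul_X p i hp => rw [map_mul, map_mul, map_mul, hp, aeval_X, eval_X]

omit [IsFractionRing O K] [Algebra O K] [IsDomain O] [ValuationRing O] [CommRing O] in
private theorem bfaB_tr (k : ℕ) {N : ℕ} (T : Fin N → MvPolynomial (Fin n) K)
    (htr : ∀ b : Finset (Fin N), AlgebraicIndepOn K T (b : Set (Fin N)) → b.card ≤ k)
    (ι : Fin (k + 1) → Fin N) : ¬ AlgebraicIndependent K (fun j => T (ι j)) := by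
  classical
  intro hι
  have hinj : Function.Injective ι := by
    intro a b hab
    apply hι.injective
    show T (ι a) = T (ι b)
    rw [hab]
  have h1 : AlgebraicIndepOn K T ((Finset.univ.image ι : Finset (Fin N)) : Set (Fin N)) := by
    have hex : ∀ x : ((Finset.univ.image ι : Finset (Fin N)) : Set (Fin N)), ∃ j, ι j = x := by
      intro x
      have hx := x.2
      rw [Finset.mem_coe, Finset.mem_image] at hx
      obtain ⟨j, -, hj⟩ := hx
      exact ⟨j, hj⟩
    choose f hf using hex
    have hfi : Function.Injective f := by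
      intro x y hxy
      apply Subtype.ext
      rw [← hf x, ← hf y, hxy]
    have h3 := hι.comp f hfi
    have h4 : (fun x : ((Finset.univ.image ι : Finset (Fin N)) : Set (Fin N)) => T x) =
        (fun j => T (ι j)) ∘ f := by
      funext x
      show T x = T (ι (f x))
      rw [hf x]
    show AlgebraicIndependent K (fun x : ((Finset.univ.image ι : Finset (Fin N)) : Set (Fin N)) => T x)
    rw [h4]
    exact h3
  have h2 := htr _ h1
  rw [Finset.card_image_of_injective _ hinj, Finset.card_univ, Fintype.card_fin] at h2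
  omega

/- PLAN. Let `G`, `x` be as in the definition of `Pres`.  `SPH.exists_trbasis` for `map G` (its hypothesis
for `ι : Fin (k+1) → Fin N` follows from `htr` for the image of `ι`, which is injective): `r ≤ k`,
`T ∘ ι` independent, `map G` dependent.  Some minor of `T ∘ ι` is nonzero
(`Helper5.D4.exists_jacobian_minor`, transpose: `Jc` has the rows `pderiv (ι l)`).
`SPH.normalise_family` for `fun m => Jc (T ∘ ι) m`: `y`, `JO`, with a coefficient `1`, so
`rd O (JO m0) ≠ 0`; `H` (transpose) gives `Psi .. c (rd O (JO m0)) ≠ 0`: there are values `z, w` with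
`eval β (rd O (JO m0)) ≠ 0`, `β j = eval p (rd O (φ j))`, `p = val (cvx ..) 0 z w` (`exists_eval_ne_zero`,
`eval_PhiP`, `Psi_apply`).  `exists_pull` with `B a b = eval p (pderiv a (rd O (φ b)))` (`det B` = residue
of `u`), `A m = eval β (rd O (JO m))`: some `eval p (rd O (JX φ JO ι')) ≠ 0` (unfold `JX`).
`exists_dirs` with `gp = cvx (RF O) n M`: `w'`.  `SPH.transversal` for `F = rd O (aeval φ G)`
(`≠ 0`: `= aeval (rd φ) (rd O G)`, `ORA.aeval_injective`), `star_x`, at `p`, with
`v l i = (cvx (RF O) n M i).eval (w' l)`; take values `z'` of the `r` variables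
(`exists_eval_ne_zero`).  `val_append`, `PhiP_ne_zero`: `PhiP .. (c + r) F ≠ 0`, then `PhiP_mono`. -/
theorem border_faith [CharZero (RF O)] (φ : Fin n → MvPolynomial (Fin n) O) (u : O) (hu : IsUnit u)
    (hφ : (Matrix.of fun i j => pderiv i (φ j)).det = C u) (M c : ℕ)
    (hM : LinearIndependent (RF O) (cvx (RF O) n M)) (k : ℕ) {N : ℕ}
    (T : Fin N → MvPolynomial (Fin n) K)
    (htr : ∀ b : Finset (Fin N), AlgebraicIndepOn K T (b : Set (Fin N)) → b.card ≤ k)
    (H : ∀ M' ≤ k, ∀ e : Fin M' → Fin N, ∀ J : Fin M' → Fin n,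
      (Matrix.of fun i j => pderiv (J j) (T (e i))).det ≠ 0 →
      Pres O (Psi (fun j => rd O (φ j)) M c) (Matrix.of fun i j => pderiv (J j) (T (e i))).det)
    (g : MvPolynomial (Fin n) K) (hg : IsAlgebraic (Algebra.adjoin K (Set.range T)) g) :
    Pres O (Psi (fun j => rd O (φ j)) M (c + k)) g := by
  classical
  intro G x hx hG hGr
  have hOinj : Function.Injective (algebraMap O K) := IsFractionRing.injective O K
  have hOchar : CharZero O := (IsLocalRing.residue O).charZero
  have hKchar : CharZero K := charZero_of_injective_algebraMap hOinj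
  have hf : IsAlgebraic (Algebra.adjoin K (Set.range T)) (MvPolynomial.map (algebraMap O K) G) := by
    rw [hG]
    have h1 : x • g = algebraMap (Algebra.adjoin K (Set.range T)) (MvPolynomial (Fin n) K)
        (algebraMap K (Algebra.adjoin K (Set.range T)) x) * g := by
      rw [← IsScalarTower.algebraMap_apply, ← Algebra.smul_def]
    rw [h1]
    exact (isAlgebraic_algebraMap _).mul hg
  obtain ⟨r, ι, hrk, hind, hdep⟩ := exists_trbasis (K := K) T (bfaB_tr k T htr) _ hf
  obtain ⟨J0, hJ0⟩ := Pool.Agent.Helper5.D4.exists_jacobian_minor _ hind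
  have hJc : ∀ m : Fin r → Fin n, Jc (fun j => T (ι j)) m =
      (Matrix.of fun i j => pderiv (m j) (T (ι i))).det := by
    intro m
    unfold Jc
    rw [← Matrix.det_transpose]
    rfl
  obtain ⟨y, JO, hy0, hJO, m0, ν0, hν0⟩ := normalise_family (O := O)
    (fun m : Fin r → Fin n => Jc (fun j => T (ι j)) m) ⟨J0, by rw [hJc]; exact hJ0⟩
  have hrd : rd O (JO m0) ≠ 0 := by
    intro h1
    have h2 := congrArg (MvPolynomial.coeff ν0) h1
    rw [MvPolynomial.coeff_map, MvPolynomial.coeff_zero, hν0, map_one] at h2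
    exact one_ne_zero h2
  have hJm0 : Jc (fun j => T (ι j)) m0 ≠ 0 := by
    intro h1
    have h2 := hJO m0
    rw [h1, smul_zero] at h2
    have h3 : JO m0 = 0 := MvPolynomial.map_injective _ hOinj (by rw [h2, map_zero])
    apply hrd
    rw [h3, map_zero]
  have hPsi : Psi (fun j => rd O (φ j)) M c (rd O (JO m0)) ≠ 0 := by
    refine H r hrk ι m0 ?_ (JO m0) y hy0 ?_ hrd
    · rw [← hJc]
      exact hJm0
    · rw [← hJc]
      exact hJO m0
  rw [Psi_apply] at hPsi
  obtain ⟨W, hW⟩ := exists_eval_ne_zero hPsi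
  rw [eval_PhiP] at hW
  obtain ⟨z, hz⟩ : ∃ z : Fin c → RF O, z = fun l => W (Sum.inr (Sum.inl l)) := ⟨_, rfl⟩
  obtain ⟨w, hw⟩ : ∃ w : Fin c → RF O, w = fun l => W (Sum.inr (Sum.inr l)) := ⟨_, rfl⟩
  obtain ⟨p, hp⟩ : ∃ p : Fin n → RF O, p = val (cvx (RF O) n M) (fun _ => 0) z w := ⟨_, rfl⟩
  have hpW : val (cvx (RF O) n M) (fun v => eval (fun i => W (Sum.inl i))
      ((fun _ => (0 : MvPolynomial (Fin 0) (RF O))) v))
      (fun l => W (Sum.inr (Sum.inl l))) (fun l => W (Sum.inr (Sum.inr l))) = p := by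
    have h0 : (fun v : Fin n => eval (fun i => W (Sum.inl i))
        ((fun _ : Fin n => (0 : MvPolynomial (Fin 0) (RF O))) v)) = fun _ => 0 := by
      funext v
      exact map_zero _
    rw [hp, hz, hw, h0]
  rw [hpW, bfaB_eval_aeval] at hW
  -- the Jacobian determinant over the residue field
  have hφr : (Matrix.of fun i j => pderiv i (rd O (φ j))).det = C (IsLocalRing.residue O u) := by
    rw [← map_C (IsLocalRing.residue O) u, ← hφ, RingHom.map_det]
    congr 1
    ext1 i j
    rw [RingHom.mapMatrix_apply, Matrix.map_apply, Matrix.of_apply, Matrix.of_apply, pderiv_map]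
  have hu0 : IsLocalRing.residue O u ≠ 0 :=
    (IsLocalRing.residue_ne_zero_iff_isUnit u).2 hu
  obtain ⟨B, hB⟩ : ∃ B : Matrix (Fin n) (Fin n) (RF O),
      B = Matrix.of fun a b => eval p (pderiv a (rd O (φ b))) := ⟨_, rfl⟩
  have hBdet : B.det ≠ 0 := by
    have h1 : B = (eval p).mapMatrix (Matrix.of fun i j => pderiv i (rd O (φ j))) := by
      rw [hB]
      rfl
    rw [h1, ← RingHom.map_det, hφr, eval_C]
    exact hu0
  obtain ⟨ι', hι'⟩ := exists_pull B hBdet
    (fun m => eval (fun j => eval p (rd O (φ j))) (rd O (JO m))) ⟨m0, hW⟩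
  have hJX : ∀ i' : Fin r → Fin n, eval p (rd O (JX φ JO i')) =
      ∑ m : Fin r → Fin n, (∏ l, B (i' l) (m l)) *
        eval (fun j => eval p (rd O (φ j))) (rd O (JO m)) := by
    intro i'
    unfold JX
    rw [map_sum, map_sum]
    refine Finset.sum_congr rfl fun m _ => ?_
    rw [map_mul, map_mul, map_prod, map_prod, bfaB_rd_aeval, bfaB_eval_aeval]
    congr 1
    refine Finset.prod_congr rfl fun l _ => ?_
    rw [hB, Matrix.of_apply, pderiv_map]
  obtain ⟨w', hw'⟩ := exists_dirs (cvx (RF O) n M) hM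
    (fun i' : Fin r → Fin n => eval p (rd O (JX φ JO i'))) ⟨ι', by
      show eval p (rd O (JX φ JO ι')) ≠ 0
      rw [hJX]
      exact hι'⟩
  have hF : rd O (aeval φ G) ≠ 0 := by
    rw [bfaB_rd_aeval]
    intro h0
    apply hGr
    apply ORA.aeval_injective _ _ hu0 hφr
    rw [h0, map_zero]
  have htrv := transversal (rd O (aeval φ G)) hF (fun i' => rd O (JX φ JO i'))
    (fun i' i => star_x φ u hu hφ (fun j => T (ι j)) hind G hdep y JO hJO i' i) p
    (fun l i => (cvx (RF O) n M i).eval (w' l)) hw'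
  obtain ⟨z', hz'⟩ := exists_eval_ne_zero htrv
  have h5 : eval z' (aeval (fun i => C (p i) + ∑ l, C ((cvx (RF O) n M i).eval (w' l)) * X l :
      Fin n → MvPolynomial (Fin r) (RF O)) (rd O (aeval φ G))) =
      eval (val (cvx (RF O) n M) p z' w') (rd O (aeval φ G)) := by
    have h6 : (aeval z' : MvPolynomial (Fin r) (RF O) →ₐ[RF O] RF O).comp
        (aeval (fun i => C (p i) + ∑ l, C ((cvx (RF O) n M i).eval (w' l)) * X l :
          Fin n → MvPolynomial (Fin r) (RF O))) =
        (aeval (val (cvx (RF O) n M) p z' w') : MvPolynomial (Fin n) (RF O) →ₐ[RF O] RF O) := by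
      apply MvPolynomial.algHom_ext
      intro v
      rw [AlgHom.comp_apply, aeval_X, aeval_X, map_add, map_sum, val]
      congr 1
      · rw [aeval_C]
        rfl
      · refine Finset.sum_congr rfl fun l _ => ?_
        rw [map_mul, aeval_X, aeval_C, mul_comm]
        rfl
    exact congrArg (fun g : MvPolynomial (Fin n) (RF O) →ₐ[RF O] RF O => g (rd O (aeval φ G))) h6
  rw [h5, hp, val_append] at hz'
  have h7 : PhiP (cvx (RF O) n M) (fun _ => (0 : MvPolynomial (Fin 0) (RF O))) (c + r)
      (rd O (aeval φ G)) ≠ 0 := by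
    refine PhiP_ne_zero _ _ _ _ (fun i => i.elim0) (Fin.append z z') (Fin.append w w') ?_
    have h8 : (fun v => eval (fun i : Fin 0 => (i.elim0 : RF O))
        ((fun _ : Fin n => (0 : MvPolynomial (Fin 0) (RF O))) v)) = fun _ => 0 := by
      funext v
      exact map_zero _
    rw [h8]
    exact hz'
  rw [Psi_apply, ← bfaB_rd_aeval]
  exact PhiP_mono _ _ (Nat.add_le_add_left hrk c) h7

end Pool.Agent.CLO
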