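import Pool.Agent.CLO.Defs

/-!
# CLO: spaces closed under an affine frame, and their derivatives
-/

set_option autoImplicit false

namespace Pool.Agent.CLO

open MvPolynomial

variable {n : ℕ} {K : Type*} [Field K]

private theorem pderiv_const_of_deg {f : MvPolynomial (Fin n) K} (hf : f.totalDegree ≤ 1)
    (k : Fin n) : ∃ c : K, MvPolynomial.pderiv k f = C c := by
  classical
  refine ⟨coeff 0 (MvPolynomial.pderiv k f), ?_⟩
  ext m
  rw [coeff_C]
  split_ifs with h
  · rw [h]
  · rw [coeff_pderiv]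
    have h0 : coeff (m + Finsupp.single k 1) f = 0 := by
      apply coeff_eq_zero_of_totalDegree_lt
      refine lt_of_le_of_lt hf ?_
      have h1 : ∑ i ∈ (m + Finsupp.single k 1 : Fin n →₀ ℕ).support,
          (m + Finsupp.single k 1 : Fin n →₀ ℕ) i =
          (m + Finsupp.single k 1 : Fin n →₀ ℕ).sum fun _ e => e := rfl
      rw [h1, Finsupp.sum_add_index' (fun _ => rfl) (fun _ _ _ => rfl),
        Finsupp.sum_single_index rfl]
      have h2 : 0 < m.sum fun _ e => e := by
        obtain ⟨i, hi⟩ : ∃ i, m i ≠ 0 := by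
          by_contra hcon
          push Not at hcon
          exact h (by ext i; simp [hcon i])
        have h3 : i ∈ m.support := Finsupp.mem_support_iff.2 hi
        exact lt_of_lt_of_le (Nat.pos_of_ne_zero hi)
          (Finset.single_le_sum (f := fun i => m i) (fun _ _ => Nat.zero_le _) h3)
      omega
    rw [h0, zero_mul]

private theorem pderiv_comm' (i k : Fin n) (f : MvPolynomial (Fin n) K) :
    MvPolynomial.pderiv i (MvPolynomial.pderiv k f) =
      MvPolynomial.pderiv k (MvPolynomial.pderiv i f) := by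
  ext m
  rw [coeff_pderiv, coeff_pderiv, coeff_pderiv, coeff_pderiv]
  by_cases hik : i = k
  · subst hik; rfl
  · have e1 : m + Finsupp.single i 1 + Finsupp.single k 1 =
        m + Finsupp.single k 1 + Finsupp.single i 1 := add_right_comm _ _ _
    rw [e1]
    simp only [Finsupp.add_apply, Finsupp.single_apply, hik, Ne.symm hik, if_false, add_zero]
    ring

/-- `V' = V + ∑ i, pderiv i '' V`; it is closed under the frame because `pderiv k (a j i)` is a
constant. -/
theorem exists_next (a : Matrix (Fin n) (Fin n) (MvPolynomial (Fin n) K))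
    (ha : ∀ j i, (a j i).totalDegree ≤ 1) (V : Submodule K (MvPolynomial (Fin n) K))
    (hV : FC a V) (hfd : FiniteDimensional K V) :
    ∃ V' : Submodule K (MvPolynomial (Fin n) K), FC a V' ∧ FiniteDimensional K V' ∧
      Module.finrank K V' ≤ (n + 1) * Module.finrank K V ∧ V ≤ V' ∧
      ∀ g ∈ V, ∀ i, pderiv i g ∈ V' := by
  classical
  let Φ : (Fin n → V) →ₗ[K] MvPolynomial (Fin n) K :=
    ∑ k : Fin n, ((MvPolynomial.pderiv k : Derivation K (MvPolynomial (Fin n) K)
      (MvPolynomial (Fin n) K)) : MvPolynomial (Fin n) K →ₗ[K] MvPolynomial (Fin n) K).comp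
        (V.subtype.comp (LinearMap.proj k))
  have hΦ : ∀ h : Fin n → V, Φ h = ∑ k, MvPolynomial.pderiv k ((h k : V) : MvPolynomial (Fin n) K) := by
    intro h
    simp [Φ]
  have hmem : ∀ w ∈ V, ∀ k : Fin n, MvPolynomial.pderiv k w ∈ LinearMap.range Φ := by
    intro w hw k
    refine ⟨Pi.single k ⟨w, hw⟩, ?_⟩
    rw [hΦ, Finset.sum_eq_single k]
    · rw [Pi.single_eq_same]
    · intro b _ hb
      rw [Pi.single_eq_of_ne hb]
      simp
    · intro h; exact absurd (Finset.mem_univ k) h
  have hcl : ∀ v ∈ LinearMap.range Φ, ∀ j, ∑ i, a j i * MvPolynomial.pderiv i v ∈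
      LinearMap.range Φ := by
    rintro v ⟨h, rfl⟩ j
    rw [hΦ]
    have e1 : ∑ i, a j i * MvPolynomial.pderiv i
        (∑ k, MvPolynomial.pderiv k ((h k : V) : MvPolynomial (Fin n) K)) =
        ∑ k, (MvPolynomial.pderiv k (∑ i, a j i *
            MvPolynomial.pderiv i ((h k : V) : MvPolynomial (Fin n) K)) -
          ∑ i, MvPolynomial.pderiv k (a j i) *
            MvPolynomial.pderiv i ((h k : V) : MvPolynomial (Fin n) K)) := by
      simp only [map_sum, Finset.mul_sum, Derivation.leibniz, smul_eq_mul, Finset.sum_add_distrib]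
      rw [Finset.sum_comm]
      refine Finset.sum_congr rfl fun k _ => ?_
      have e2 : ∑ i, MvPolynomial.pderiv i ((h k : V) : MvPolynomial (Fin n) K) *
          MvPolynomial.pderiv k (a j i) = ∑ i, MvPolynomial.pderiv k (a j i) *
            MvPolynomial.pderiv i ((h k : V) : MvPolynomial (Fin n) K) :=
        Finset.sum_congr rfl fun i _ => mul_comm _ _
      rw [e2, add_sub_cancel_right]
      refine Finset.sum_congr rfl fun i _ => ?_
      rw [pderiv_comm' i k]
    rw [e1]
    refine Submodule.sum_mem _ fun k _ => Submodule.sub_mem _ ?_ ?_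
    · exact hmem _ (hV _ (h k).2 j) k
    · refine Submodule.sum_mem _ fun i _ => ?_
      obtain ⟨c, hc⟩ := pderiv_const_of_deg (ha j i) k
      rw [hc, ← smul_eq_C_mul]
      exact Submodule.smul_mem _ _ (hmem _ (h k).2 i)
  refine ⟨V ⊔ LinearMap.range Φ, ?_, inferInstance, ?_, le_sup_left,
    fun g hg i => Submodule.mem_sup_right (hmem g hg i)⟩
  · intro g hg j
    obtain ⟨v, hv, w, hw, rfl⟩ := Submodule.mem_sup.1 hg
    have e1 : ∑ i, a j i * pderiv i (v + w) =
        ∑ i, a j i * pderiv i v + ∑ i, a j i * pderiv i w := by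
      rw [← Finset.sum_add_distrib]
      refine Finset.sum_congr rfl fun i _ => ?_
      rw [map_add, mul_add]
    rw [e1]
    exact Submodule.add_mem _ (Submodule.mem_sup_left (hV v hv j))
      (Submodule.mem_sup_right (hcl w hw j))
  · have h1 : Module.finrank K (LinearMap.range Φ) ≤ n * Module.finrank K V := by
      refine (LinearMap.finrank_range_le Φ).trans ?_
      rw [Module.finrank_pi_fintype]
      simp only [Finset.sum_const, Finset.card_univ, Fintype.card_fin, smul_eq_mul, le_refl]
    have h2 := Submodule.finrank_add_le_finrank_add_finrank V (LinearMap.range Φ)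
    have h3 : (n + 1) * Module.finrank K V = Module.finrank K V + n * Module.finrank K V := by ring
    rw [h3]
    exact h2.trans (Nat.add_le_add_left h1 _)

/-- Iteration of `exists_next`. -/
theorem exists_chain (a : Matrix (Fin n) (Fin n) (MvPolynomial (Fin n) K))
    (ha : ∀ j i, (a j i).totalDegree ≤ 1) (V : Submodule K (MvPolynomial (Fin n) K))
    (hV : FC a V) (hfd : FiniteDimensional K V) :
    ∃ Vc : ℕ → Submodule K (MvPolynomial (Fin n) K), Vc 0 = V ∧
      ∀ m, FC a (Vc m) ∧ FiniteDimensional K (Vc m) ∧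
        Module.finrank K (Vc m) ≤ (n + 1) ^ m * Module.finrank K V ∧ Vc m ≤ Vc (m + 1) ∧
        ∀ g ∈ Vc m, ∀ i, pderiv i g ∈ Vc (m + 1) := by
  classical
  have hnext : ∀ W : {W : Submodule K (MvPolynomial (Fin n) K) // FC a W ∧ FiniteDimensional K W},
      ∃ W' : {W : Submodule K (MvPolynomial (Fin n) K) // FC a W ∧ FiniteDimensional K W},
        Module.finrank K W'.1 ≤ (n + 1) * Module.finrank K W.1 ∧ W.1 ≤ W'.1 ∧
          ∀ g ∈ W.1, ∀ i, pderiv i g ∈ W'.1 := by
    rintro ⟨W, hW1, hW2⟩
    obtain ⟨W', h1, h2, h3, h4, h5⟩ := exists_next a ha W hW1 hW2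
    exact ⟨⟨W', h1, h2⟩, h3, h4, h5⟩
  choose nx hnx using hnext
  let Vs : ℕ → {W : Submodule K (MvPolynomial (Fin n) K) // FC a W ∧ FiniteDimensional K W} :=
    fun m => Nat.rec ⟨V, hV, hfd⟩ (fun _ x => nx x) m
  have hs : ∀ m, Vs (m + 1) = nx (Vs m) := fun m => rfl
  have hfr : ∀ m, Module.finrank K (Vs m).1 ≤ (n + 1) ^ m * Module.finrank K V := by
    intro m
    induction m with
    | zero => simp [Vs]
    | succ m ih =>
      rw [hs]
      refine (hnx (Vs m)).1.trans ?_
      rw [pow_succ', mul_assoc]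
      exact Nat.mul_le_mul_left _ ih
  exact ⟨fun m => (Vs m).1, rfl, fun m => ⟨(Vs m).2.1, (Vs m).2.2, hfr m, (hnx (Vs m)).2.1,
    (hnx (Vs m)).2.2⟩⟩

end Pool.Agent.CLO
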