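import Pool.Agent.CLO.Ser

/-!
# CLO: closure properties of `XC` and `DC`
-/

set_option autoImplicit false

namespace Pool.Agent.CLO

open MvPolynomial

variable {n : ℕ} {K : Type*} [Field K]
  {a : Matrix (Fin n) (Fin n) (MvPolynomial (Fin n) K)} {β : Fin n → K}

private theorem clx_alg (x : K) :
    (algebraMap K (PowerSeries (MvPolynomial (Fin n) K)) x) = PowerSeries.C (C x) := by
  rw [PowerSeries.algebraMap_apply]
  rfl

private theorem clx_dalg (i : Fin n) (x : K) :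
    dS i (algebraMap K (PowerSeries (MvPolynomial (Fin n) K)) x) = 0 := by
  rw [clx_alg, dS_C]

private theorem clx_sum_mul (j : Fin n) (ξ η : PowerSeries (MvPolynomial (Fin n) K)) :
    ∑ i, PhS β (a j i) * dS i (ξ * η) =
      ξ * (∑ i, PhS β (a j i) * dS i η) + (∑ i, PhS β (a j i) * dS i ξ) * η := by
  rw [Finset.mul_sum, Finset.sum_mul, ← Finset.sum_add_distrib]
  refine Finset.sum_congr rfl fun i _ => ?_
  rw [dS_mul]
  ring

private theorem clx_sum_add (j : Fin n) (ξ η : PowerSeries (MvPolynomial (Fin n) K)) :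
    ∑ i, PhS β (a j i) * dS i (ξ + η) =
      (∑ i, PhS β (a j i) * dS i ξ) + (∑ i, PhS β (a j i) * dS i η) := by
  rw [← Finset.sum_add_distrib]
  refine Finset.sum_congr rfl fun i _ => ?_
  rw [map_add]
  ring

/- PLAN. Everything by the Leibniz rule `dS_mul`; `Submodule.mul_induction_on`. -/
theorem XC_mul {W V : Submodule K (PowerSeries (MvPolynomial (Fin n) K))} (hW : XC a β W)
    (hV : XC a β V) : XC a β (W * V) := by
  intro ξ hξ j
  refine Submodule.mul_induction_on hξ ?_ ?_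
  · intro x hx y hy
    obtain ⟨η1, h1, e1⟩ := hW x hx j
    obtain ⟨η2, h2, e2⟩ := hV y hy j
    refine ⟨x * η2 + η1 * y, add_mem (Submodule.mul_mem_mul hx h2) (Submodule.mul_mem_mul h1 hy), ?_⟩
    rw [clx_sum_mul, e1, e2]
    ring
  · rintro x y ⟨η1, h1, e1⟩ ⟨η2, h2, e2⟩
    refine ⟨η1 + η2, add_mem h1 h2, ?_⟩
    rw [clx_sum_add, e1, e2, mul_add]

theorem XC_one : XC a β (1 : Submodule K (PowerSeries (MvPolynomial (Fin n) K))) := by
  intro ξ hξ j
  obtain ⟨x, rfl⟩ := Submodule.mem_one.1 hξ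
  refine ⟨0, Submodule.zero_mem _, ?_⟩
  rw [mul_zero]
  refine Finset.sum_eq_zero fun i _ => ?_
  rw [clx_dalg, mul_zero]

theorem XC_sup {W V : Submodule K (PowerSeries (MvPolynomial (Fin n) K))} (hW : XC a β W)
    (hV : XC a β V) : XC a β (W ⊔ V) := by
  intro ξ hξ j
  obtain ⟨x, hx, y, hy, rfl⟩ := Submodule.mem_sup.1 hξ
  obtain ⟨η1, h1, e1⟩ := hW x hx j
  obtain ⟨η2, h2, e2⟩ := hV y hy j
  refine ⟨η1 + η2, add_mem (Submodule.mem_sup_left h1) (Submodule.mem_sup_right h2), ?_⟩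
  rw [clx_sum_add, e1, e2, mul_add]

theorem XC_pow {W : Submodule K (PowerSeries (MvPolynomial (Fin n) K))} (hW : XC a β W) (m : ℕ) :
    XC a β (W ^ m) := by
  induction m with
  | zero =>
    rw [pow_zero]
    exact XC_one
  | succ m ih =>
    rw [pow_succ]
    exact XC_mul ih hW

theorem XC_prod {ι : Type*} (s : Finset ι)
    (W : ι → Submodule K (PowerSeries (MvPolynomial (Fin n) K))) (hW : ∀ i ∈ s, XC a β (W i)) :
    XC a β (∏ i ∈ s, W i) := by
  classical
  induction s using Finset.induction_on with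
  | empty =>
    rw [Finset.prod_empty]
    exact XC_one
  | insert i s hi ih =>
    rw [Finset.prod_insert hi]
    exact XC_mul (hW i (Finset.mem_insert_self i s)) (ih fun k hk => hW k (Finset.mem_insert_of_mem hk))

theorem DC_mono {W W' V V' : Submodule K (PowerSeries (MvPolynomial (Fin n) K))} (h : DC W W')
    (hV : V ≤ W) (hW : W' ≤ V') : DC V V' := by
  intro ξ hξ i
  obtain ⟨η, h1, e1⟩ := h ξ (hV hξ) i
  exact ⟨η, hW h1, e1⟩

theorem DC_one (W : Submodule K (PowerSeries (MvPolynomial (Fin n) K))) : DC 1 W := by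
  intro ξ hξ i
  obtain ⟨x, rfl⟩ := Submodule.mem_one.1 hξ
  refine ⟨0, Submodule.zero_mem _, ?_⟩
  rw [clx_dalg, mul_zero]

theorem DC_mul {W W' V V' : Submodule K (PowerSeries (MvPolynomial (Fin n) K))} (hW : DC W W')
    (hV : DC V V') (h : W ≤ W') (h' : V ≤ V') : DC (W * V) (W' * V') := by
  intro ξ hξ i
  refine Submodule.mul_induction_on hξ ?_ ?_
  · intro x hx y hy
    obtain ⟨η1, h1, e1⟩ := hW x hx i
    obtain ⟨η2, h2, e2⟩ := hV y hy i
    refine ⟨x * η2 + η1 * y, add_mem (Submodule.mul_mem_mul (h hx) h2)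
      (Submodule.mul_mem_mul h1 (h' hy)), ?_⟩
    rw [dS_mul, e1, e2]
    ring
  · rintro x y ⟨η1, h1, e1⟩ ⟨η2, h2, e2⟩
    refine ⟨η1 + η2, add_mem h1 h2, ?_⟩
    rw [map_add, e1, e2, mul_add]

theorem DC_sup {W W' V V' : Submodule K (PowerSeries (MvPolynomial (Fin n) K))} (hW : DC W W')
    (hV : DC V V') : DC (W ⊔ V) (W' ⊔ V') := by
  intro ξ hξ i
  obtain ⟨x, hx, y, hy, rfl⟩ := Submodule.mem_sup.1 hξ
  obtain ⟨η1, h1, e1⟩ := hW x hx i
  obtain ⟨η2, h2, e2⟩ := hV y hy i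
  refine ⟨η1 + η2, add_mem (Submodule.mem_sup_left h1) (Submodule.mem_sup_right h2), ?_⟩
  rw [map_add, e1, e2, mul_add]

theorem DC_pow {W W' : Submodule K (PowerSeries (MvPolynomial (Fin n) K))} (hW : DC W W')
    (h : W ≤ W') (m : ℕ) : DC (W ^ m) (W' ^ m) := by
  induction m with
  | zero =>
    rw [pow_zero, pow_zero]
    exact DC_one _
  | succ m ih =>
    rw [pow_succ, pow_succ]
    exact DC_mul ih hW (pow_le_pow_left' h m) h

end Pool.Agent.CLO
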