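import Pool.Agent.CLO.Defs
import Pool.Agent.ORA.Psi

/-!
# CLO: polynomial coordinates over the valuation ring
-/

set_option autoImplicit false

namespace Pool.Agent.CLO

open MvPolynomial Pool.Agent.ORB Pool.Agent.ORG Pool.Agent.ORA

variable {n : ℕ} {O : Type*} [CommRing O] [IsDomain O] [ValuationRing O]

/-- The Jacobian minors of size at most `N` of the members of `𝓒` are preserved by
`y ↦ φ(∑_{l<c} z_l A(w_l))` (`φ` modulo the maximal ideal). -/
def H1c {K : Type*} [Field K] [Algebra O K] (φ : Fin n → MvPolynomial (Fin n) O) (M c : ℕ)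
    (𝓒 : Set (MvPolynomial (Fin n) K)) (N : ℕ) : Prop :=
  ∀ M' ≤ N, ∀ a : Fin M' → MvPolynomial (Fin n) K, (∀ i, a i ∈ 𝓒) → ∀ J : Fin M' → Fin n,
    (Matrix.of fun i j => pderiv (J j) (a i)).det ≠ 0 →
      Pres O (Psi (fun j => rd O (φ j)) M c) (Matrix.of fun i j => pderiv (J j) (a i)).det

/-- The minors in the coordinates `x`: `∑ m, (∏ l, ∂φ_{m l}/∂x_{ι l}) * J_m(φ(x))`. -/
noncomputable def JX {r : ℕ} (φ : Fin n → MvPolynomial (Fin n) O)
    (J : (Fin r → Fin n) → MvPolynomial (Fin n) O) (ι : Fin r → Fin n) : MvPolynomial (Fin n) O :=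
  ∑ m : Fin r → Fin n, (∏ l, pderiv (ι l) (φ (m l))) * aeval φ (J m)

end Pool.Agent.CLO
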