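import Pool.Agent.CLO.Defs
import Pool.Agent.SPE.Fr

/-!
# CLO: dimensions modulo `z^(μ+1)`
-/

set_option autoImplicit false

namespace Pool.Agent.CLO

open MvPolynomial

variable {n : ℕ} {K : Type*} [Field K] {μ : ℕ}

private theorem Dmm_coeff (ξ : PowerSeries (MvPolynomial (Fin n) K)) (m : ℕ) :
    (trS μ ξ).coeff m = if m ≤ μ then PowerSeries.coeff m ξ else 0 := by
  show (∑ i ∈ Finset.range (μ + 1), Polynomial.monomial i (PowerSeries.coeff i ξ)).coeff m = _
  rw [Polynomial.finsetSum_coeff]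
  simp only [Polynomial.coeff_monomial]
  rw [Finset.sum_ite_eq']
  simp only [Finset.mem_range, Nat.lt_succ_iff]

private theorem Dmm_mul (ξ η : PowerSeries (MvPolynomial (Fin n) K)) :
    trS μ (ξ * η) = trS μ ((trS μ ξ * trS μ η : Polynomial (MvPolynomial (Fin n) K)) :
      PowerSeries (MvPolynomial (Fin n) K)) := by
  ext1 m
  rw [Dmm_coeff, Dmm_coeff]
  split_ifs with h
  · rw [Polynomial.coeff_coe, Polynomial.coeff_mul, PowerSeries.coeff_mul]
    refine Finset.sum_congr rfl fun x hx => ?_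
    rw [Finset.HasAntidiagonal.mem_antidiagonal] at hx
    rw [Dmm_coeff, Dmm_coeff, if_pos (by omega), if_pos (by omega)]
  · rfl

/-- Truncation of polynomials. -/
private noncomputable def Dmm_tau (μ : ℕ) :
    Polynomial (MvPolynomial (Fin n) K) →ₗ[K] Polynomial (MvPolynomial (Fin n) K) where
  toFun p := trS μ (p : PowerSeries (MvPolynomial (Fin n) K))
  map_add' p q := by
    rw [Polynomial.coe_add, map_add]
  map_smul' x p := by
    rw [RingHom.id_apply, ← map_smul]
    congr 1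

theorem Dm_mono {W V : Submodule K (PowerSeries (MvPolynomial (Fin n) K))} {N : ℕ} (h : Dm μ V N)
    (hW : W ≤ V) : Dm μ W N := by
  obtain ⟨h1, h2⟩ := h
  have h3 : W.map (trS μ) ≤ V.map (trS μ) := Submodule.map_mono hW
  have := h1
  exact ⟨Submodule.finiteDimensional_of_le h3, (Submodule.finrank_mono h3).trans h2⟩

theorem Dm_le {W : Submodule K (PowerSeries (MvPolynomial (Fin n) K))} {N N' : ℕ} (h : Dm μ W N)
    (hN : N ≤ N') : Dm μ W N' := ⟨h.1, h.2.trans hN⟩

/- PLAN. `trS μ (ξ η) = trS μ (↑(trS μ ξ) * ↑(trS μ η))` (`↑ : Polynomial → PowerSeries`), so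
`(W * V).map (trS μ) ≤ (W.map (trS μ) * V.map (trS μ)).map τ` where `τ` is the `K`-linear map
`p ↦ trS μ ↑p`; `SPE.finrank_mul`, `Submodule.finrank_map_le`. -/
theorem Dm_mul {W V : Submodule K (PowerSeries (MvPolynomial (Fin n) K))} {N N' : ℕ}
    (hW : Dm μ W N) (hV : Dm μ V N') : Dm μ (W * V) (N * N') := by
  obtain ⟨h1, h2⟩ := hW
  obtain ⟨h3, h4⟩ := hV
  obtain ⟨h5, h6⟩ := SPE.finrank_mul (W.map (trS μ)) (V.map (trS μ)) h1 h3
  have h7 : (W * V).map (trS μ) ≤ (W.map (trS μ) * V.map (trS μ)).map (Dmm_tau μ) := by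
    rw [Submodule.map_le_iff_le_comap, Submodule.mul_le]
    intro ξ hξ η hη
    rw [Submodule.mem_comap]
    refine ⟨trS μ ξ * trS μ η, Submodule.mul_mem_mul (Submodule.mem_map_of_mem hξ)
      (Submodule.mem_map_of_mem hη), ?_⟩
    exact (Dmm_mul ξ η).symm
  have := h5
  refine ⟨Submodule.finiteDimensional_of_le h7, (Submodule.finrank_mono h7).trans ?_⟩
  exact (Submodule.finrank_map_le _ _).trans (h6.trans (Nat.mul_le_mul h2 h4))

theorem Dm_one : Dm μ (1 : Submodule K (PowerSeries (MvPolynomial (Fin n) K))) 1 := by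
  have h : (1 : Submodule K (PowerSeries (MvPolynomial (Fin n) K))).map (trS μ) =
      Submodule.span K {trS μ 1} := by
    rw [Submodule.one_eq_span, Submodule.map_span, Set.image_singleton]
  unfold Dm
  rw [h]
  refine ⟨inferInstance, ?_⟩
  refine (finrank_span_le_card (R := K) ({trS μ 1} : Set _)).trans ?_
  rw [Set.toFinset_singleton, Finset.card_singleton]

theorem Dm_sup {W V : Submodule K (PowerSeries (MvPolynomial (Fin n) K))} {N N' : ℕ}
    (hW : Dm μ W N) (hV : Dm μ V N') : Dm μ (W ⊔ V) (N + N') := by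
  obtain ⟨h1, h2⟩ := hW
  obtain ⟨h3, h4⟩ := hV
  have := h1
  have := h3
  unfold Dm
  rw [Submodule.map_sup]
  exact ⟨inferInstance, (Submodule.finrank_add_le_finrank_add_finrank _ _).trans
    (Nat.add_le_add h2 h4)⟩

theorem Dm_pow {W : Submodule K (PowerSeries (MvPolynomial (Fin n) K))} {N : ℕ} (hW : Dm μ W N)
    (m : ℕ) : Dm μ (W ^ m) (N ^ m) := by
  induction m with
  | zero =>
    rw [pow_zero, pow_zero]
    exact Dm_one
  | succ m ih =>
    rw [pow_succ, pow_succ]
    exact Dm_mul ih hW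

theorem Dm_prod {ι : Type*} (s : Finset ι)
    (W : ι → Submodule K (PowerSeries (MvPolynomial (Fin n) K))) (N : ι → ℕ)
    (hW : ∀ i ∈ s, Dm μ (W i) (N i)) : Dm μ (∏ i ∈ s, W i) (∏ i ∈ s, N i) := by
  classical
  induction s using Finset.induction_on with
  | empty =>
    rw [Finset.prod_empty, Finset.prod_empty]
    exact Dm_one
  | insert i s hi ih =>
    rw [Finset.prod_insert hi, Finset.prod_insert hi]
    exact Dm_mul (hW i (Finset.mem_insert_self i s))
      (ih fun j hj => hW j (Finset.mem_insert_of_mem hj))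

end Pool.Agent.CLO
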