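import Pool.Agent.CLO.Defs
import Pool.Agent.ORG.ImmI
import Pool.Agent.ORG.ImmS
import Pool.Agent.ORG.ImmM

/-!
# CLO: frames and leaves
-/

set_option autoImplicit false

namespace Pool.Agent.CLO

open MvPolynomial Pool.Agent.ORB Pool.Agent.ORG

section ring

variable (R : Type*) [CommRing R] {n T w r : ℕ}

/-- The frame `immFrame` over a commutative ring. The variables are the entries of `T` matrices `M_l`
of size `w` and `r` other ones.  For the entry `(a, b)` of `M_l` the field is the infinitesimal change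
`M_l ↦ E_ab M_l` and, if `l ∉ cut`, `M_{l-1} ↦ - M_{l-1} E_ab`; for another variable `y_p` it is
`∂/∂y_p` if `p ∈ B` and `y_p ∂/∂y_p` otherwise. -/
noncomputable def imF (e : Fin n ≃ (Fin T × Fin w × Fin w) ⊕ Fin r) (cut : Finset (Fin T))
    (B : Finset (Fin r)) : Matrix (Fin n) (Fin n) (MvPolynomial (Fin n) R) :=
  Matrix.of fun j i =>
    match e j, e i with
    | Sum.inl (l, a, b), Sum.inl (l', a', b') =>
        (if l' = l ∧ a' = a then X (e.symm (Sum.inl (l, b, b'))) else 0) -
          (if (l' : ℕ) + 1 = l ∧ l ∉ cut ∧ b' = b then X (e.symm (Sum.inl (l', a', a))) else 0)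
    | Sum.inr p, Sum.inr p' =>
        if p = p' then (if p ∈ B then 1 else X (e.symm (Sum.inr p))) else 0
    | _, _ => 0

end ring

variable {n T w r : ℕ}

theorem imF_eq (K : Type*) [Field K] (e : Fin n ≃ (Fin T × Fin w × Fin w) ⊕ Fin r)
    (cut : Finset (Fin T)) (B : Finset (Fin r)) : imF K e cut B = immFrame K e cut B := rfl

theorem imF_map {R S : Type*} [CommRing R] [CommRing S] (f : R →+* S)
    (e : Fin n ≃ (Fin T × Fin w × Fin w) ⊕ Fin r) (cut : Finset (Fin T)) (B : Finset (Fin r)) :
    (imF R e cut B).map (MvPolynomial.map f) = imF S e cut B := by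
  ext1 j i
  rw [Matrix.map_apply]
  unfold imF
  rw [Matrix.of_apply, Matrix.of_apply]
  rcases e j with ⟨l, a, b⟩ | p <;> rcases e i with ⟨l', a', b'⟩ | p'
  · simp only [map_sub]
    congr 1
    · split_ifs
      · rw [map_X]
      · rw [map_zero]
    · split_ifs
      · rw [map_X]
      · rw [map_zero]
  · simp only [map_zero]
  · simp only [map_zero]
  · simp only
    split_ifs
    · rw [map_one]
    · rw [map_X]
    · rw [map_zero]

theorem totalDegree_X_le {R : Type*} [CommRing R] (i : Fin n) :
    (X i : MvPolynomial (Fin n) R).totalDegree ≤ 1 := by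
  unfold X
  refine (totalDegree_monomial_le _ _).trans ?_
  rw [Finsupp.sum_single_index rfl]
  exact le_rfl

theorem imF_degree {R : Type*} [CommRing R] (e : Fin n ≃ (Fin T × Fin w × Fin w) ⊕ Fin r)
    (cut : Finset (Fin T)) (B : Finset (Fin r)) (j i : Fin n) :
    (imF R e cut B j i).totalDegree ≤ 1 := by
  unfold imF
  rw [Matrix.of_apply]
  rcases e j with ⟨l, a, b⟩ | p <;> rcases e i with ⟨l', a', b'⟩ | p'
  · simp only
    refine (totalDegree_sub _ _).trans (max_le ?_ ?_)
    · split_ifs
      · exact totalDegree_X_le _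
      · rw [totalDegree_zero]
        exact Nat.zero_le _
    · split_ifs
      · exact totalDegree_X_le _
      · rw [totalDegree_zero]
        exact Nat.zero_le _
  · simp only [totalDegree_zero]
    exact Nat.zero_le _
  · simp only [totalDegree_zero]
    exact Nat.zero_le _
  · simp only
    split_ifs
    · rw [totalDegree_one]
      exact Nat.zero_le _
    · exact totalDegree_X_le _
    · rw [totalDegree_zero]
      exact Nat.zero_le _

variable {K : Type*} [Field K]

theorem isFrame_one (s : ℕ) : IsFrame (1 : Matrix (Fin n) (Fin n) (MvPolynomial (Fin n) K)) s := by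
  refine ⟨fun j i => ?_, 0, fun l => l.elim0, fun l => l.elim0, fun l => l.elim0, fun β _ => ?_⟩
  · rw [Matrix.one_apply]
    split_ifs
    · rw [totalDegree_one]
      exact Nat.zero_le _
    · rw [totalDegree_zero]
      exact Nat.zero_le _
  · rw [Matrix.map_one _ (map_zero _) (map_one _), Matrix.det_one]
    exact one_ne_zero

theorem one_map {R S : Type*} [CommRing R] [CommRing S] (f : R →+* S) :
    (1 : Matrix (Fin n) (Fin n) (MvPolynomial (Fin n) R)).map (MvPolynomial.map f) = 1 :=
  Matrix.map_one _ (map_zero _) (map_one _)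

/-- leaves from members of frame-closed spaces -/
theorem leaf_mk (a : Matrix (Fin n) (Fin n) (MvPolynomial (Fin n) K)) (c s d t m : ℕ)
    (h : Fin t → MvPolynomial (Fin n) K) (s' b : Fin t → ℕ) (hh : ∀ v, FrameLeaf a (s' v) (h v))
    (hb : ∀ v, 1 ≤ b v) (hs : (1 + t * n) * ∏ v, s' v ≤ s) (p : Fin m → MvPolynomial (Fin c) K)
    (e : Fin m → Fin c → K) (l : Fin m → Fin c → Fin n → K) (q : Fin m → ℕ) (hm : m ≤ d)
    (hp : ∀ i, (p i).totalDegree ≤ d) (hq : ∀ i, 1 ≤ q i)
    (hX : ∀ i j x, ∑ k, a j k * C (l i x k) ∈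
      Submodule.span K ({1} ∪ Set.range fun x' => SPE.aff (e i x') (l i x')))
    (hd : ((∏ v, h v) * ∏ i, SPE.junta (p i) (e i) (l i)).totalDegree ≤ d) :
    Leaf a c s d ((∏ v, h v ^ b v) * ∏ i, SPE.junta (p i) (e i) (l i) ^ q i) := by
  choose V hfd hV hmem hcl using hh
  exact ⟨t, h, V, b, m, p, e, l, q, fun v => ⟨hmem v, hcl v, hfd v, hb v⟩,
    (Nat.mul_le_mul_left _ (Finset.prod_le_prod' fun v _ => hV v)).trans hs, hm, hp, hq, hX, hd, rfl⟩

/-- no condition on the affine forms for the frame `∂/∂y_j` -/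
theorem junta_one {c : ℕ} (e : Fin c → K) (l : Fin c → Fin n → K) (j : Fin n) (x : Fin c) :
    ∑ k, (1 : Matrix (Fin n) (Fin n) (MvPolynomial (Fin n) K)) j k * C (l x k) ∈
      Submodule.span K ({1} ∪ Set.range fun x' => SPE.aff (e x') (l x')) := by
  rw [Finset.sum_eq_single j]
  · rw [Matrix.one_apply_eq, one_mul]
    have h1 : (C (l x j) : MvPolynomial (Fin n) K) = l x j • (1 : MvPolynomial (Fin n) K) := by
      rw [smul_eq_C_mul, mul_one]
    rw [h1]
    exact Submodule.smul_mem _ _ (Submodule.subset_span (Set.mem_union_left _ rfl))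
  · intro k _ hk
    rw [Matrix.one_apply_ne (Ne.symm hk), zero_mul]
  · intro h
    exact absurd (Finset.mem_univ j) h

/-- single variables outside the matrices, for the frame `imF` -/
theorem junta_imF (e : Fin n ≃ (Fin T × Fin w × Fin w) ⊕ Fin r) (cut : Finset (Fin T))
    (B : Finset (Fin r)) {c : ℕ} (v : Fin c → Fin r) (j : Fin n) (x : Fin c) :
    ∑ k, imF K e cut B j k * C ((Pi.single (e.symm (Sum.inr (v x))) (1 : K) : Fin n → K) k) ∈
      Submodule.span K ({1} ∪ Set.range fun x' =>
        SPE.aff (0 : K) (Pi.single (e.symm (Sum.inr (v x'))) (1 : K) : Fin n → K)) := by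
  classical
  have h2 : ∀ x', SPE.aff (0 : K) (Pi.single (e.symm (Sum.inr (v x'))) (1 : K) : Fin n → K) =
      X (e.symm (Sum.inr (v x'))) := by
    intro x'
    unfold SPE.aff
    rw [C_0, zero_add, Finset.sum_eq_single (e.symm (Sum.inr (v x')))]
    · rw [Pi.single_eq_same, C_1, one_mul]
    · intro i _ hi
      rw [Pi.single_eq_of_ne hi, C_0, zero_mul]
    · intro h
      exact absurd (Finset.mem_univ _) h
  rw [Finset.sum_eq_single (e.symm (Sum.inr (v x)))]
  · rw [Pi.single_eq_same, C_1, mul_one]
    unfold imF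
    rw [Matrix.of_apply, Equiv.apply_symm_apply]
    rcases hj : e j with ⟨l, a, b⟩ | p
    · exact Submodule.zero_mem _
    · simp only
      split_ifs with h3 h4
      · exact Submodule.subset_span (Set.mem_union_left _ rfl)
      · refine Submodule.subset_span (Set.mem_union_right _ ⟨x, ?_⟩)
        rw [h3]
        exact h2 x
      · exact Submodule.zero_mem _
  · intro k _ hk
    rw [Pi.single_eq_of_ne hk, C_0, mul_zero]
  · intro h
    exact absurd (Finset.mem_univ _) h

end Pool.Agent.CLO
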