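import Pool.Agent.CLO.Defs
import Pool.Agent.ORA.Step

/-!
# CLO: from the lowest coefficient to the generator
-/

set_option autoImplicit false

namespace Pool.Agent.CLO

open MvPolynomial Pool.Agent.ORB Pool.Agent.ORA

variable {n : ℕ} {κ : Type*} [Field κ]

private theorem hit_mulX_zero (q : MvPolynomial (Fin n) κ) (i : Fin n) :
    homogeneousComponent 0 (q * X i) = 0 := by
  rw [homogeneousComponent_zero, coeff_mul_X']
  simp

private theorem hit_mulX (q : MvPolynomial (Fin n) κ) (i : Fin n) (m : ℕ) :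
    homogeneousComponent (m + 1) (q * X i) = homogeneousComponent m q * X i := by
  ext d
  rw [coeff_homogeneousComponent, coeff_mul_X', coeff_mul_X', coeff_homogeneousComponent]
  by_cases hi : i ∈ d.support
  · rw [if_pos hi, if_pos hi]
    have h1 : (d - Finsupp.single i 1).degree + 1 = d.degree := by
      have h2 : d - Finsupp.single i 1 + Finsupp.single i 1 = d := by
        apply tsub_add_cancel_of_le
        rw [Finsupp.single_le_iff]
        exact Nat.one_le_iff_ne_zero.2 (Finsupp.mem_support_iff.1 hi)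
      conv_rhs => rw [← h2]
      rw [map_add, Finsupp.degree_single]
    by_cases hd : d.degree = m + 1
    · rw [if_pos hd, if_pos (by omega)]
    · rw [if_neg hd, if_neg (by omega)]
  · rw [if_neg hi, if_neg hi, ite_self]

/- PLAN. `tr β w` (ORB/InitDef.lean) is `w` at `β + y`.  Both sides are additive in `w`; by
`MvPolynomial.induction_on w`: the step `w * X i` with `PowerSeries.coeff_mul` and
`homogeneousComponent m (tr β w * (C (β i) + X i))` (`homogeneousComponent_C_mul`;
`homogeneousComponent (m+1) (p * X i) = homogeneousComponent m p * X i`, coefficientwise). -/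
theorem coeff_PhS_eq (β : Fin n → κ) (w : MvPolynomial (Fin n) κ) (m : ℕ) :
    PowerSeries.coeff m (PhS β w) = homogeneousComponent m (tr β w) := by
  induction w using MvPolynomial.induction_on generalizing m with
  | C a =>
    have h1 : PhS β (C a) = PowerSeries.C (C a) := by
      rw [PhS, ← algebraMap_eq, AlgHom.commutes, PowerSeries.algebraMap_apply]
    have h2 : tr β (C a) = C a := by
      rw [tr, ← algebraMap_eq, AlgHom.commutes]
    rw [h1, h2, PowerSeries.coeff_C,
      homogeneousComponent_of_mem ((mem_homogeneousSubmodule 0 _).2 (isHomogeneous_C _ _))]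
  | add p q hp hq => rw [map_add, map_add, map_add, map_add, hp, hq]
  | mul_X p i hp =>
    have h1 : PhS β (X i) = PowerSeries.C (C (β i)) + PowerSeries.X * PowerSeries.C (X i) := by
      rw [PhS, aeval_X]
    have h2 : tr β (X i) = C (β i) + X i := by
      rw [tr, aeval_X]
    rw [map_mul (PhS β), map_mul (tr β), h1, h2, mul_add, mul_add, map_add, map_add, PowerSeries.coeff_mul_C, hp m,
      mul_comm (tr β p) (C (β i)), homogeneousComponent_C_mul, mul_comm (C (β i))]
    congr 1
    rw [← mul_assoc, PowerSeries.coeff_mul_C]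
    cases m with
    | zero => rw [PowerSeries.coeff_zero_mul_X, zero_mul, hit_mulX_zero]
    | succ m => rw [PowerSeries.coeff_succ_mul_X, hp m, hit_mulX]

/- PLAN. `coeff_PhS_eq`, `ORA.pull_step` at `α` (ORA/Step.lean) gives `z, t`;
`PhiP_ne_zero` with `z = ![z0, z]`, `w = ![t0, t]` (`val`, `Fin.sum_univ_two`, `Psi_apply`). -/
theorem hit_lowest [CharZero κ] (φ : Fin n → MvPolynomial (Fin n) κ) (e : κ) (he : e ≠ 0)
    (hφ : (Matrix.of fun i j => pderiv i (φ j)).det = C e) (M : ℕ) (z0 t0 : κ) (α β : Fin n → κ)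
    (hα : ∀ i, α i = z0 * (cvx κ n M i).eval t0) (hβ : ∀ j, β j = eval α (φ j))
    (G : MvPolynomial (Fin n) κ) (m s : ℕ) (hM : n * s ^ 2 ≤ M)
    (V : Submodule κ (MvPolynomial (Fin n) κ)) (hfd : FiniteDimensional κ V)
    (hs : Module.finrank κ V ≤ s) (hV : ∀ h ∈ V, ∀ j, pderiv j h ∈ V)
    (hmem : PowerSeries.coeff m (PhS β G) ∈ V) (hne : PowerSeries.coeff m (PhS β G) ≠ 0)
    (hlow : ∀ i < m, PowerSeries.coeff i (PhS β G) = 0) : Psi φ M 2 G ≠ 0 := by
  obtain rfl : β = fun j => eval α (φ j) := funext hβ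
  rw [coeff_PhS_eq] at hmem hne
  obtain ⟨z, t, hz⟩ := pull_step φ e he hφ α G m s M hM V hfd hs hV hmem hne
    (fun k hk => by rw [← coeff_PhS_eq]; exact hlow k hk)
  rw [Psi_apply]
  refine PhiP_ne_zero (cvx κ n M) _ 2 (aeval φ G) (fun _ => 0) ![z0, z] ![t0, t] ?_
  have h1 : val (cvx κ n M) (fun v => eval (fun _ : Fin 0 => (0 : κ))
      ((fun _ => (0 : MvPolynomial (Fin 0) κ)) v)) ![z0, z] ![t0, t] =
      fun i => α i + z * (cvx κ n M i).eval t := by
    funext i
    rw [val, Fin.sum_univ_two, hα i]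
    simp
  rw [h1]
  exact hz

end Pool.Agent.CLO
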