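import Pool.Agent.CLO.JunD

/-!
# CLO: the dimension of the space of one junta
-/

set_option autoImplicit false

namespace Pool.Agent.CLO

open MvPolynomial

variable {n c : ℕ} {K : Type*} [Field K]

private noncomputable def junc_b (μ : ℕ) (l : Fin c → Fin n → K) (ν : Fin c → Fin (μ + 1)) :
    Polynomial (MvPolynomial (Fin n) K) :=
  Polynomial.monomial (∑ x, (ν x : ℕ)) (∏ x, l0 l x ^ (ν x : ℕ))

private theorem junc_term (μ : ℕ) (l : Fin c → Fin n → K) (m : ℕ) (hm : m ≤ μ)
    (p : MvPolynomial (Fin c) K) (hp : p.IsHomogeneous m) :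
    Polynomial.monomial m (aeval (l0 l) p) ∈ Submodule.span K (Set.range (junc_b μ l)) := by
  have h1 : aeval (l0 l) p = ∑ v ∈ p.support, coeff v p • ∏ x, l0 l x ^ v x := by
    conv_lhs => rw [p.as_sum]
    rw [map_sum]
    refine Finset.sum_congr rfl fun v _ => ?_
    rw [aeval_monomial, Algebra.smul_def, Finsupp.prod_fintype]
    intro x
    rw [pow_zero]
  rw [h1, map_sum]
  refine Submodule.sum_mem _ fun v hv => ?_
  have h2 : ∑ x, v x = m := by
    have h3 := hp (mem_support_iff.1 hv)
    rw [← Finsupp.degree_eq_sum, Finsupp.degree_eq_weight_one]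
    exact h3
  have h4 : ∀ x, v x < μ + 1 := by
    intro x
    have h5 : v x ≤ ∑ x, v x := Finset.single_le_sum (fun i _ => Nat.zero_le (v i)) (Finset.mem_univ x)
    omega
  have h5 : Polynomial.monomial m (coeff v p • ∏ x, l0 l x ^ v x) =
      coeff v p • junc_b μ l (fun x => ⟨v x, h4 x⟩) := by
    rw [junc_b, Polynomial.smul_monomial, h2]
  rw [h5]
  exact Submodule.smul_mem _ _ (Submodule.subset_span ⟨_, rfl⟩)

/-- The space of one junta has dimension at most `(μ + 1) ^ c` modulo `z^(μ+1)`. -/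
theorem Dm_UJ (μ : ℕ) (l : Fin c → Fin n → K) : Dm μ (UJ l) ((μ + 1) ^ c) := by
  have hle : (UJ l).map (trS μ) ≤ Submodule.span K (Set.range (junc_b μ l)) := by
    rintro _ ⟨_, ⟨η, hη, rfl⟩, rfl⟩
    have hη' : ∀ m, (PowerSeries.coeff m η).IsHomogeneous m := hη
    show ∑ m ∈ Finset.range (μ + 1), Polynomial.monomial m (PowerSeries.coeff m (mapJ l η)) ∈ _
    refine Submodule.sum_mem _ fun m hm => ?_
    rw [coeff_mapJ]
    exact junc_term μ l m (Nat.lt_succ_iff.1 (Finset.mem_range.1 hm)) _ (hη' m)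
  have hfin : FiniteDimensional K (Submodule.span K (Set.range (junc_b μ l))) :=
    FiniteDimensional.span_of_finite K (Set.finite_range _)
  refine ⟨Submodule.finiteDimensional_of_le hle, ?_⟩
  refine (Submodule.finrank_mono hle).trans ?_
  refine (finrank_range_le_card (junc_b μ l)).trans ?_
  rw [Fintype.card_fun, Fintype.card_fin, Fintype.card_fin]

end Pool.Agent.CLO
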