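import Pool.Agent.CLO.JunB
import Pool.Agent.CLO.JunC

/-!
# CLO: the space of power series of one junta
-/

set_option autoImplicit false

namespace Pool.Agent.CLO

open MvPolynomial

variable {n c : ℕ} {K : Type*} [Field K]

theorem exists_junta_space (a : Matrix (Fin n) (Fin n) (MvPolynomial (Fin n) K)) (β : Fin n → K)
    (μ : ℕ) (e : Fin c → K) (l : Fin c → Fin n → K)
    (hX : ∀ j x, ∑ k, a j k * C (l x k) ∈
      Submodule.span K ({1} ∪ Set.range fun x' => SPE.aff (e x') (l x'))) :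
    ∃ U : Submodule K (PowerSeries (MvPolynomial (Fin n) K)), XC a β U ∧ DC U U ∧
      (1 : PowerSeries (MvPolynomial (Fin n) K)) ∈ U ∧ U * U ≤ U ∧ Dm μ U ((μ + 1) ^ c) ∧
      (∀ p : MvPolynomial (Fin c) K, PhS β (SPE.junta p e l) ∈ U ∧
        ∀ i, PhS β (pderiv i (SPE.junta p e l)) ∈ U) ∧
      ∀ ξ ∈ U, ∀ y : K, y ≠ 0 → PowerSeries.coeff 0 ξ = C y → ∃ η ∈ U, ξ * η = 1 :=
  ⟨UJ l, XC_UJ a β e l hX, DC_UJ l, one_mem_UJ l, UJ_mul l, Dm_UJ μ l,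
    fun p => PhS_junta_mem β e l p, fun ξ hξ y hy h0 => UJ_inv l ξ hξ y hy h0⟩

end Pool.Agent.CLO
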