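import Pool.Agent.CLO.JunD

/-!
# CLO: inverses and derivatives of homogeneous power series
-/

set_option autoImplicit false

namespace Pool.Agent.CLO

open MvPolynomial

variable {c : ℕ} {K : Type*} [Field K]

theorem HomS_inv (η : PowerSeries (MvPolynomial (Fin c) K)) (hη : η ∈ HomS c K) (y : K) (hy : y ≠ 0)
    (h0 : PowerSeries.coeff 0 η = C y) : ∃ η' ∈ HomS c K, η * η' = 1 := by
  have hu : IsUnit η := by
    rw [PowerSeries.isUnit_iff_constantCoeff, ← PowerSeries.coeff_zero_eq_constantCoeff_apply, h0]
    exact (IsUnit.mk0 y hy).map C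
  obtain ⟨η', hη'⟩ := hu.exists_right_inv
  refine ⟨η', ?_, hη'⟩
  show ∀ m, (PowerSeries.coeff m η').IsHomogeneous m
  intro m
  induction m using Nat.strong_induction_on with
  | _ m ih =>
    have h1 : PowerSeries.coeff m (η * η') =
        PowerSeries.coeff m (1 : PowerSeries (MvPolynomial (Fin c) K)) := by rw [hη']
    have hmem : ((0, m) : ℕ × ℕ) ∈ Finset.HasAntidiagonal.antidiagonal m := by simp
    rw [PowerSeries.coeff_mul, ← Finset.add_sum_erase _ _ hmem] at h1
    have h2 : C y * PowerSeries.coeff m η' =
        PowerSeries.coeff m (1 : PowerSeries (MvPolynomial (Fin c) K)) -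
          ∑ x ∈ (Finset.HasAntidiagonal.antidiagonal m).erase (0, m),
            PowerSeries.coeff x.1 η * PowerSeries.coeff x.2 η' := by
      rw [← h0, ← h1]
      ring
    have h3 : (C y * PowerSeries.coeff m η').IsHomogeneous m := by
      rw [h2]
      refine IsHomogeneous.sub ?_ (IsHomogeneous.sum _ _ _ fun x hx => ?_)
      · rw [PowerSeries.coeff_one]
        split_ifs with h
        · rw [h]
          exact isHomogeneous_one _ _
        · exact isHomogeneous_zero _ _ _
      · rw [Finset.mem_erase, Finset.HasAntidiagonal.mem_antidiagonal] at hx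
        obtain ⟨hx1, hx2⟩ := hx
        have hlt : x.2 < m := by
          rcases Nat.eq_zero_or_pos x.1 with h | h
          · exact absurd (Prod.ext h (by simp only; omega)) hx1
          · omega
        have h4 := (hη x.1).mul (ih x.2 hlt)
        rw [hx2] at h4
        exact h4
    have h5 : PowerSeries.coeff m η' = C y⁻¹ * (C y * PowerSeries.coeff m η') := by
      rw [← mul_assoc, ← C_mul, inv_mul_cancel₀ hy, C_1, one_mul]
    rw [h5]
    exact h3.C_mul _

theorem HomS_der (η : PowerSeries (MvPolynomial (Fin c) K)) (hη : η ∈ HomS c K) (x : Fin c) :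
    ∃ η' ∈ HomS c K, dS x η = PowerSeries.X * η' := by
  refine ⟨PowerSeries.mk fun m => pderiv x (PowerSeries.coeff (m + 1) η), ?_, ?_⟩
  · show ∀ m, (PowerSeries.coeff m (PowerSeries.mk fun m =>
      pderiv x (PowerSeries.coeff (m + 1) η))).IsHomogeneous m
    intro m
    rw [PowerSeries.coeff_mk]
    have h := (hη (m + 1)).pderiv (i := x)
    rw [Nat.add_sub_cancel] at h
    exact h
  · ext1 m
    rw [coeff_dS]
    cases m with
    | zero =>
      rw [PowerSeries.coeff_zero_X_mul]
      have h1 : (PowerSeries.coeff 0 η).totalDegree = 0 := Nat.le_zero.1 (hη 0).totalDegree_le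
      rw [totalDegree_eq_zero_iff_eq_C.1 h1, pderiv_C]
    | succ m => rw [PowerSeries.coeff_succ_X_mul, PowerSeries.coeff_mk]

end Pool.Agent.CLO
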