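import Pool.Agent.CLO.JunA

/-!
# CLO: closure properties of the space of one junta
-/

set_option autoImplicit false

namespace Pool.Agent.CLO

open MvPolynomial

variable {n c : ℕ} {K : Type*} [Field K]

private theorem jb_mem (l : Fin c → Fin n → K) (ξ : PowerSeries (MvPolynomial (Fin n) K)) :
    ξ ∈ UJ l ↔ ∃ η ∈ HomS c K, mapJ l η = ξ := Iff.rfl

private theorem jb_sub (l : Fin c → Fin n → K) (ξ : PowerSeries (MvPolynomial (Fin n) K)) :
    ξ ∈ UJ l ↔ ξ ∈ (HomS c K).map (mapJ l) := Iff.rfl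

private theorem jb_X (l : Fin c → Fin n → K) : mapJ l PowerSeries.X = PowerSeries.X :=
  PowerSeries.map_X _

private theorem jb_am (σ : Type*) (y : K) :
    algebraMap K (PowerSeries (MvPolynomial σ K)) y = PowerSeries.C (C y) := by
  rw [PowerSeries.algebraMap_apply, algebraMap_eq]

private theorem jb_CC (y : K) (l : Fin c → Fin n → K) :
    mapJ l (PowerSeries.C (C y)) = PowerSeries.C (C y) := by
  have h := (mapJ l).commutes y
  rw [jb_am, jb_am] at h
  exact h

private theorem jb_smul {σ : Type*} (y : K) (ζ : PowerSeries (MvPolynomial σ K)) :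
    y • ζ = PowerSeries.C (C y) * ζ := by
  rw [Algebra.smul_def, jb_am]

private theorem jb_PhSC (β : Fin n → K) (y : K) : PhS β (C y) = PowerSeries.C (C y) := by
  have h := (PhS β).commutes y
  rw [jb_am, MvPolynomial.algebraMap_eq] at h
  exact h

private theorem jb_pderiv_l0 (l : Fin c → Fin n → K) (x : Fin c) (i : Fin n) :
    pderiv i (l0 l x) = C (l x i) := by
  rw [l0, map_sum, Finset.sum_eq_single i]
  · rw [pderiv_C_mul, pderiv_X_self, mul_one]
  · intro j _ hj
    rw [pderiv_C_mul, pderiv_X_of_ne hj, mul_zero]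
  · intro h
    exact absurd (Finset.mem_univ i) h

private theorem jb_chain (T : Fin c → MvPolynomial (Fin n) K) (i : Fin n)
    (P : MvPolynomial (Fin c) K) :
    pderiv i (aeval T P) = ∑ x, aeval T (pderiv x P) * pderiv i (T x) := by
  induction P using MvPolynomial.induction_on with
  | C a =>
    rw [aeval_C, MvPolynomial.algebraMap_eq, pderiv_C]
    symm
    refine Finset.sum_eq_zero fun x _ => ?_
    rw [pderiv_C, map_zero, zero_mul]
  | add p q hp hq =>
    rw [map_add, map_add, hp, hq, ← Finset.sum_add_distrib]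
    refine Finset.sum_congr rfl fun x _ => ?_
    rw [map_add, map_add, add_mul]
  | mul_X p j hp =>
    rw [map_mul, aeval_X, pderiv_mul, hp]
    have h1 : ∀ x, aeval T (pderiv x (p * X j)) * pderiv i (T x) =
        T j * (aeval T (pderiv x p) * pderiv i (T x)) +
          (if x = j then aeval T p * pderiv i (T j) else 0) := by
      intro x
      rw [pderiv_mul, map_add, map_mul, map_mul, aeval_X]
      by_cases h : x = j
      · subst h
        rw [if_pos rfl, pderiv_X_self, map_one]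
        ring
      · rw [if_neg h, pderiv_X_of_ne fun h' => h h'.symm, map_zero]
        ring
    rw [Finset.sum_congr rfl fun x _ => h1 x, Finset.sum_add_distrib, ← Finset.mul_sum,
      Finset.sum_ite_eq' Finset.univ j, if_pos (Finset.mem_univ j)]
    ring

private theorem jb_lin (x : Fin c) :
    (PowerSeries.X * PowerSeries.C (X x) : PowerSeries (MvPolynomial (Fin c) K)) ∈ HomS c K := by
  intro m
  rcases m with _ | m
  · rw [PowerSeries.coeff_zero_X_mul]
    exact isHomogeneous_zero _ _ _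
  · rw [PowerSeries.coeff_succ_X_mul, PowerSeries.coeff_C]
    split_ifs with h
    · subst h
      exact isHomogeneous_X _ _
    · exact isHomogeneous_zero _ _ _

theorem one_mem_UJ (l : Fin c → Fin n → K) :
    (1 : PowerSeries (MvPolynomial (Fin n) K)) ∈ UJ l := by
  exact (jb_mem l 1).2 ⟨1, (HomS c K).one_mem, map_one (mapJ l)⟩

theorem UJ_mul (l : Fin c → Fin n → K) : UJ l * UJ l ≤ UJ l := by
  rw [Submodule.mul_le]
  rintro _ ⟨η, hη, rfl⟩ _ ⟨ζ, hζ, rfl⟩
  exact (jb_mem l _).2 ⟨η * ζ, (HomS c K).mul_mem hη hζ, map_mul (mapJ l) η ζ⟩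

/- PLAN. `PhS β (aff e0 (l x)) = C (C (eval β (aff e0 (l x)))) + X * C (l0 l x)` is the image of
`C (C ..) + X * C (X x)`. -/
theorem PhS_aff_mem (β : Fin n → K) (l : Fin c → Fin n → K) (x : Fin c) (e0 : K) :
    PhS β (SPE.aff e0 (l x)) ∈ UJ l := by
  have e1 : mapJ l (PowerSeries.C (C (e0 + ∑ i, l x i * β i)) +
      PowerSeries.X * PowerSeries.C (X x)) = PhS β (SPE.aff e0 (l x)) := by
    have e2 : mapJ l (PowerSeries.C (X x)) = PowerSeries.C (l0 l x) := by
      have e3 : mapJ l (PowerSeries.C (X x)) = PowerSeries.C (aeval (l0 l) (X x)) :=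
        PowerSeries.map_C _ _
      rw [e3, aeval_X]
    have e4 : ∀ r : K, PhS β (C r) = PowerSeries.C (C r) := jb_PhSC β
    have e5 : ∀ i, PhS β (X i) =
        PowerSeries.C (C (β i)) + PowerSeries.X * PowerSeries.C (X i) := fun i => aeval_X _ _
    rw [map_add, map_mul, jb_X, jb_CC, e2, SPE.aff, map_add (PhS β), map_sum (PhS β), e4]
    have e6 : ∀ i ∈ Finset.univ, PhS β (C (l x i) * X i) =
        PowerSeries.C (C (l x i * β i)) +
          PowerSeries.X * PowerSeries.C (C (l x i) * X i) := by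
      intro i _
      rw [map_mul, e4, e5, C_mul, map_mul, map_mul]
      ring
    rw [Finset.sum_congr rfl e6, Finset.sum_add_distrib, ← Finset.mul_sum, ← map_sum, ← map_sum,
      ← map_sum, ← l0, C_add, map_add]
    ring
  rw [← e1, jb_mem]
  refine ⟨_, (HomS c K).add_mem ?_ (jb_lin x), rfl⟩
  rw [← jb_am]
  exact (HomS c K).algebraMap_mem _

/- PLAN. Induction on `p`; `pderiv i (junta p e l) = junta (∑ x, C (l x i) * pderiv x p) e l`. -/
theorem PhS_junta_mem (β : Fin n → K) (e : Fin c → K) (l : Fin c → Fin n → K)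
    (p : MvPolynomial (Fin c) K) : PhS β (SPE.junta p e l) ∈ UJ l ∧
      ∀ i, PhS β (pderiv i (SPE.junta p e l)) ∈ UJ l := by
  have h1 : ∀ p : MvPolynomial (Fin c) K, PhS β (SPE.junta p e l) ∈ UJ l := by
    intro p
    rw [jb_sub]
    unfold SPE.junta
    induction p using MvPolynomial.induction_on with
    | C r =>
      rw [aeval_C, MvPolynomial.algebraMap_eq, jb_PhSC, ← jb_am]
      exact ((HomS c K).map (mapJ l)).algebraMap_mem r
    | add p q hp hq =>
      rw [map_add, map_add]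
      exact Subalgebra.add_mem _ hp hq
    | mul_X p x hp =>
      rw [map_mul, map_mul, aeval_X]
      exact Subalgebra.mul_mem _ hp ((jb_sub _ _).1 (PhS_aff_mem β l x (e x)))
  refine ⟨h1 p, fun i => ?_⟩
  have h2 : pderiv i (SPE.junta p e l) = SPE.junta (∑ x, C (l x i) * pderiv x p) e l := by
    unfold SPE.junta
    rw [jb_chain, map_sum]
    refine Finset.sum_congr rfl fun x _ => ?_
    have h3 : pderiv i (SPE.aff (e x) (l x)) = C (l x i) := by
      have h4 : SPE.aff (e x) (l x) = C (e x) + l0 l x := rfl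
      rw [h4, map_add, pderiv_C, zero_add, jb_pderiv_l0]
    rw [h3, map_mul, aeval_C, MvPolynomial.algebraMap_eq]
    ring
  rw [h2]
  exact h1 _

/- PLAN. Coefficientwise chain rule: `pderiv i (aeval (l0 l) g) = ∑ x, C (l x i) * aeval (l0 l)
(pderiv x g)`. -/
theorem dS_mapJ (l : Fin c → Fin n → K) (η : PowerSeries (MvPolynomial (Fin c) K)) (i : Fin n) :
    dS i (mapJ l η) = ∑ x, PowerSeries.C (C (l x i)) * mapJ l (dS x η) := by
  ext1 m
  rw [coeff_dS, coeff_mapJ, jb_chain, map_sum]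
  refine Finset.sum_congr rfl fun x _ => ?_
  rw [jb_pderiv_l0, PowerSeries.coeff_C_mul, coeff_mapJ, coeff_dS]
  ring

/- PLAN. `dS_mapJ`, `HomS_der`, `mapJ l X = X`. -/
theorem DC_UJ (l : Fin c → Fin n → K) : DC (UJ l) (UJ l) := by
  rintro _ ⟨η, hη, rfl⟩ i
  choose η' h1 h2 using fun x => HomS_der η hη x
  refine ⟨mapJ l (∑ x, l x i • η' x), ⟨_, ?_, rfl⟩, ?_⟩
  · exact Subalgebra.sum_mem _ fun x _ => Subalgebra.smul_mem _ (h1 x) _
  · show dS i (mapJ l η) = _
    rw [dS_mapJ, map_sum, Finset.mul_sum]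
    refine Finset.sum_congr rfl fun x _ => ?_
    rw [h2, map_mul, jb_X, jb_smul, map_mul, jb_CC]
    ring

/- PLAN. `∑ i, PhS β (a j i) * dS i (mapJ l η) = ∑ x, PhS β (∑ i, a j i * C (l x i)) * mapJ l (dS x η)`;
the first factor is in `UJ l` by `hX`, `PhS_aff_mem`, `one_mem_UJ`, `Submodule.span_induction`;
the second is `X * mapJ l η'`. -/
theorem XC_UJ (a : Matrix (Fin n) (Fin n) (MvPolynomial (Fin n) K)) (β : Fin n → K)
    (e : Fin c → K) (l : Fin c → Fin n → K)
    (hX : ∀ j x, ∑ k, a j k * C (l x k) ∈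
      Submodule.span K ({1} ∪ Set.range fun x' => SPE.aff (e x') (l x'))) :
    XC a β (UJ l) := by
  rintro _ ⟨η, hη, rfl⟩ j
  choose η' h1 h2 using fun x => HomS_der η hη x
  have h3 : ∀ x, PhS β (∑ k, a j k * C (l x k)) ∈ UJ l := by
    intro x
    refine Submodule.span_induction (p := fun w _ => PhS β w ∈ UJ l) ?_ ?_ ?_ ?_ (hX j x)
    · rintro w (hw | ⟨x', rfl⟩)
      · rw [Set.mem_singleton_iff.1 hw, map_one]
        exact one_mem_UJ l
      · exact PhS_aff_mem β l x' (e x')
    · rw [map_zero]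
      exact Submodule.zero_mem _
    · intro w w' _ _ hw hw'
      rw [map_add]
      exact Submodule.add_mem _ hw hw'
    · intro r w _ hw
      rw [map_smul]
      exact Submodule.smul_mem _ _ hw
  refine ⟨∑ x, PhS β (∑ k, a j k * C (l x k)) * mapJ l (η' x), ?_, ?_⟩
  · exact Submodule.sum_mem _ fun x _ => UJ_mul l (Submodule.mul_mem_mul (h3 x) ⟨_, h1 x, rfl⟩)
  · show ∑ i, PhS β (a j i) * dS i (mapJ l η) = _
    have h4 : ∀ i ∈ Finset.univ, PhS β (a j i) * dS i (mapJ l η) =
        ∑ x, PowerSeries.X * (PhS β (a j i * C (l x i)) * mapJ l (η' x)) := by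
      intro i _
      rw [dS_mapJ, Finset.mul_sum]
      refine Finset.sum_congr rfl fun x _ => ?_
      have h5 : PhS β (C (l x i)) = PowerSeries.C (C (l x i)) := jb_PhSC β _
      rw [h2, map_mul, jb_X, map_mul (PhS β), h5]
      ring
    rw [Finset.sum_congr rfl h4, Finset.sum_comm, Finset.mul_sum]
    refine Finset.sum_congr rfl fun x _ => ?_
    rw [← Finset.mul_sum, ← Finset.sum_mul, map_sum]

/- PLAN. `ξ = mapJ l η`, but the constant coefficient of `η` is only known to be homogeneous of degree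
`0`, so it is `C y'`, and `y' = y` (`aeval_C`); `HomS_inv`. -/
theorem UJ_inv (l : Fin c → Fin n → K) (ξ : PowerSeries (MvPolynomial (Fin n) K)) (hξ : ξ ∈ UJ l)
    (y : K) (hy : y ≠ 0) (h0 : PowerSeries.coeff 0 ξ = C y) : ∃ η ∈ UJ l, ξ * η = 1 := by
  obtain ⟨η, hη, rfl⟩ := (jb_mem l ξ).1 hξ
  have h1 : PowerSeries.coeff 0 η = C (coeff 0 (PowerSeries.coeff 0 η)) := by
    have h2 : (PowerSeries.coeff 0 η).totalDegree = 0 :=
      Nat.le_zero.1 (hη 0).totalDegree_le
    exact totalDegree_eq_zero_iff_eq_C.1 h2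
  have h3 : coeff 0 (PowerSeries.coeff 0 η) = y := by
    rw [coeff_mapJ, h1, aeval_C, MvPolynomial.algebraMap_eq] at h0
    exact C_injective _ _ h0
  rw [h3] at h1
  obtain ⟨η', h4, h5⟩ := HomS_inv η hη y hy h1
  exact ⟨mapJ l η', ⟨_, h4, rfl⟩, by rw [← map_mul, h5, map_one]⟩

end Pool.Agent.CLO
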