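import Pool.Agent.CLO.Ser

/-!
# CLO: homogeneous power series, the space of power series of one junta
-/

set_option autoImplicit false

namespace Pool.Agent.CLO

open MvPolynomial

variable (n c : ℕ) (K : Type*) [Field K]

/-- Power series in `z` over `K[w_1, ..., w_c]` whose coefficient of `z^m` is homogeneous of degree `m`. -/
noncomputable def HomS : Subalgebra K (PowerSeries (MvPolynomial (Fin c) K)) where
  carrier := {η | ∀ m, (PowerSeries.coeff m η).IsHomogeneous m}
  mul_mem' := by
    intro η ζ hη hζ m
    rw [PowerSeries.coeff_mul]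
    refine IsHomogeneous.sum _ _ _ fun x hx => ?_
    have h1 : x.1 + x.2 = m := by simpa using hx
    rw [← h1]
    exact (hη x.1).mul (hζ x.2)
  add_mem' := by
    intro η ζ hη hζ m
    rw [map_add]
    exact (hη m).add (hζ m)
  algebraMap_mem' := by
    intro y m
    have h1 : (algebraMap K (PowerSeries (MvPolynomial (Fin c) K)) y) =
        PowerSeries.C (C y) := by
      rw [PowerSeries.algebraMap_apply, algebraMap_eq]
    rw [h1, PowerSeries.coeff_C]
    split_ifs with h
    · subst h
      exact isHomogeneous_C _ _
    · exact isHomogeneous_zero _ _ _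

variable {n c K}

/-- The linear parts. -/
noncomputable def l0 (l : Fin c → Fin n → K) (x : Fin c) : MvPolynomial (Fin n) K :=
  ∑ i, C (l x i) * X i

/-- `w_x ↦ l0_x`, coefficientwise. -/
noncomputable def mapJ (l : Fin c → Fin n → K) :
    PowerSeries (MvPolynomial (Fin c) K) →ₐ[K] PowerSeries (MvPolynomial (Fin n) K) :=
  { PowerSeries.map ((aeval (l0 l) : MvPolynomial (Fin c) K →ₐ[K] MvPolynomial (Fin n) K) :
      MvPolynomial (Fin c) K →+* MvPolynomial (Fin n) K) with
    commutes' := by
      intro y
      rw [PowerSeries.algebraMap_apply, PowerSeries.algebraMap_apply, algebraMap_eq, algebraMap_eq]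
      show PowerSeries.map _ (PowerSeries.C (C y)) = PowerSeries.C (C y)
      rw [PowerSeries.map_C]
      congr 1
      exact aeval_C _ _ }

theorem coeff_mapJ (l : Fin c → Fin n → K) (η : PowerSeries (MvPolynomial (Fin c) K)) (m : ℕ) :
    PowerSeries.coeff m (mapJ l η) = aeval (l0 l) (PowerSeries.coeff m η) :=
  PowerSeries.coeff_map _ _ _

/-- The space of power series of the junta with linear parts `l0 l`. -/
noncomputable def UJ (l : Fin c → Fin n → K) :
    Submodule K (PowerSeries (MvPolynomial (Fin n) K)) :=
  (Subalgebra.toSubmodule (HomS c K)).map (mapJ l).toLinearMap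

end Pool.Agent.CLO
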