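import Pool.Agent.CLO.Jun
import Pool.Agent.CLO.Clx
import Pool.Agent.CLO.Dmm

/-!
# CLO: the logarithmic derivatives of products of juntas
-/

set_option autoImplicit false

namespace Pool.Agent.CLO

open MvPolynomial

variable {n c : ℕ} {K : Type*} [Field K]

private theorem lam_exV (a : Matrix (Fin n) (Fin n) (MvPolynomial (Fin n) K)) (β : Fin n → K)
    (μ D m : ℕ) (W : Fin m → Submodule K (PowerSeries (MvPolynomial (Fin n) K)))
    (h1 : ∀ x, XC a β (W x)) (h2 : ∀ x, DC (W x) (W x)) (h3 : ∀ x, Dm μ (W x) D) :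
    ∃ V : Submodule K (PowerSeries (MvPolynomial (Fin n) K)), XC a β V ∧ DC V V ∧
      (1 : PowerSeries (MvPolynomial (Fin n) K)) ∈ V ∧ Dm μ V (1 + m * D) ∧ ∀ x, W x ≤ V := by
  induction m with
  | zero =>
    exact ⟨1, XC_one, DC_one 1, Submodule.one_le.1 le_rfl, Dm_le Dm_one (by omega),
      fun x => x.elim0⟩
  | succ m ih =>
    obtain ⟨V, g1, g2, g3, g4, g5⟩ := ih (fun x => W x.castSucc) (fun x => h1 _) (fun x => h2 _)
      (fun x => h3 _)
    refine ⟨V ⊔ W (Fin.last m), XC_sup g1 (h1 _), DC_sup g2 (h2 _),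
      (le_sup_left : V ≤ V ⊔ W (Fin.last m)) g3, Dm_le (Dm_sup g4 (h3 (Fin.last m))) ?_, ?_⟩
    · rw [add_mul, one_mul]
      omega
    · intro x
      refine Fin.lastCases ?_ (fun x => ?_) x
      · exact le_sup_right
      · exact (g5 x).trans le_sup_left

/- PLAN. `U = 1 ⊔ ⨆ i, U_i` with the spaces `U_i` of `exists_junta_space` (as in the proof of
`SPH.hlam_prod`); `λ = ∑ a, q a • PhS (∂_i g_a) * (PhS g_a)⁻¹`, with inverses in `U_a`
(`coeff_zero_PhS`, `eval β g_a ≠ 0`). Dimension: `1 + m (μ+1)^c ≤ (d+1) (μ+1)^c`. -/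
theorem exists_lam (a : Matrix (Fin n) (Fin n) (MvPolynomial (Fin n) K)) (β : Fin n → K)
    (μ d m : ℕ) (hm : m ≤ d) (p : Fin m → MvPolynomial (Fin c) K) (e : Fin m → Fin c → K)
    (l : Fin m → Fin c → Fin n → K)
    (hX : ∀ i j x, ∑ k, a j k * C (l i x k) ∈
      Submodule.span K ({1} ∪ Set.range fun x' => SPE.aff (e i x') (l i x')))
    (h0 : ∀ i, eval β (SPE.junta (p i) (e i) (l i)) ≠ 0) :
    ∃ U : Submodule K (PowerSeries (MvPolynomial (Fin n) K)), XC a β U ∧ DC U U ∧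
      (1 : PowerSeries (MvPolynomial (Fin n) K)) ∈ U ∧ Dm μ U ((d + 1) * (μ + 1) ^ c) ∧
      ∀ (q : Fin m → ℕ) (i : Fin n), ∃ lam ∈ U,
        PhS β (∑ x, q x • (pderiv i (SPE.junta (p x) (e x) (l x)) *
          ∏ y ∈ Finset.univ.erase x, SPE.junta (p y) (e y) (l y))) =
        PhS β (∏ x, SPE.junta (p x) (e x) (l x)) * lam := by
  have hex := fun x => exists_junta_space a β μ (e x) (l x) (hX x)
  choose W g1 g2 g3 g4 g5 g6 g7 using hex
  obtain ⟨U, u1, u2, u3, u4, u5⟩ := lam_exV a β μ ((μ + 1) ^ c) m W g1 g2 g5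
  have hinv : ∀ x, ∃ η ∈ W x, PhS β (SPE.junta (p x) (e x) (l x)) * η = 1 := fun x =>
    g7 x _ (g6 x (p x)).1 _ (h0 x) (coeff_zero_PhS β _)
  choose η hη hη1 using hinv
  refine ⟨U, u1, u2, u3, Dm_le u4 ?_, fun q i => ?_⟩
  · have h8 : m * (μ + 1) ^ c ≤ d * (μ + 1) ^ c := Nat.mul_le_mul_right _ hm
    have h7 : 1 ≤ (μ + 1) ^ c := Nat.one_le_pow _ _ (Nat.succ_pos μ)
    rw [add_mul, one_mul]
    omega
  · refine ⟨∑ x, q x • (PhS β (pderiv i (SPE.junta (p x) (e x) (l x))) * η x), ?_, ?_⟩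
    · refine Submodule.sum_mem _ fun x _ => ?_
      refine U.smul_of_tower_mem (q x) ?_
      exact u5 x (g4 x (Submodule.mul_mem_mul ((g6 x (p x)).2 i) (hη x)))
    · rw [map_sum, Finset.mul_sum]
      refine Finset.sum_congr rfl fun x _ => ?_
      rw [map_nsmul, map_mul, map_prod, map_prod, mul_smul_comm]
      refine congrArg (fun z => q x • z) ?_
      rw [← Finset.mul_prod_erase Finset.univ
        (fun y => PhS β (SPE.junta (p y) (e y) (l y))) (Finset.mem_univ x)]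
      have h9 := hη1 x
      calc PhS β (pderiv i (SPE.junta (p x) (e x) (l x))) *
            ∏ y ∈ Finset.univ.erase x, PhS β (SPE.junta (p y) (e y) (l y)) =
          (PhS β (SPE.junta (p x) (e x) (l x)) * η x) *
            (PhS β (pderiv i (SPE.junta (p x) (e x) (l x))) *
              ∏ y ∈ Finset.univ.erase x, PhS β (SPE.junta (p y) (e y) (l y))) := by
            rw [h9, one_mul]
        _ = _ := by ring

end Pool.Agent.CLO
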