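import Pool.Agent.CLO.Ser

/-!
# CLO: derivatives of the residues
-/

set_option autoImplicit false

namespace Pool.Agent.CLO

open MvPolynomial

variable {n : ℕ} {O : Type*} [CommRing O] [IsDomain O] [ValuationRing O] {K : Type*} [Field K]
  [Algebra O K] [IsFractionRing O K]

private theorem lowb_coeff {R R' : Type*} [CommRing R] [CommRing R'] (f : R →+* R')
    (β : Fin n → R) (A : Fin n → MvPolynomial (Fin n) R)
    (η : PowerSeries (MvPolynomial (Fin n) R)) (k : ℕ) :
    MvPolynomial.map f (PowerSeries.coeff k (∑ i, PhS β (A i) * dS i η)) =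
      ∑ i, ∑ p ∈ Finset.HasAntidiagonal.antidiagonal k,
        PowerSeries.coeff p.1 (PhS (fun i => f (β i)) (MvPolynomial.map f (A i))) *
          pderiv i (MvPolynomial.map f (PowerSeries.coeff p.2 η)) := by
  rw [map_sum, map_sum]
  refine Finset.sum_congr rfl fun i _ => ?_
  rw [PowerSeries.coeff_mul, map_sum]
  refine Finset.sum_congr rfl fun p _ => ?_
  rw [map_mul, coeff_dS, ← PowerSeries.coeff_map, PhS_map, pderiv_map]

private theorem lowb_K (a : Matrix (Fin n) (Fin n) (MvPolynomial (Fin n) O)) (β : Fin n → O)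
    (j : Fin n) (η : PowerSeries (MvPolynomial (Fin n) O))
    (ξ : PowerSeries (MvPolynomial (Fin n) K)) (m k : ℕ) (hk : k ≤ m)
    (h : ∀ i ≤ m, MvPolynomial.map (algebraMap O K) (PowerSeries.coeff i η) =
      PowerSeries.coeff i ξ) :
    MvPolynomial.map (algebraMap O K)
      (PowerSeries.coeff k (∑ i, PhS β (a j i) * dS i η)) =
      PowerSeries.coeff k (∑ i, PhS (fun i => algebraMap O K (β i))
        ((a.map (MvPolynomial.map (algebraMap O K))) j i) * dS i ξ) := by
  rw [lowb_coeff, map_sum]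
  refine Finset.sum_congr rfl fun i _ => ?_
  rw [PowerSeries.coeff_mul]
  refine Finset.sum_congr rfl fun p hp => ?_
  have hp2 : p.2 ≤ m := by
    have h1 := Finset.HasAntidiagonal.mem_antidiagonal.1 hp
    omega
  rw [h p.2 hp2, coeff_dS, Matrix.map_apply]

private theorem lowb_res (a : Matrix (Fin n) (Fin n) (MvPolynomial (Fin n) O)) (β : Fin n → O)
    (j : Fin n) (η : PowerSeries (MvPolynomial (Fin n) O)) (m k : ℕ) (hk : k ≤ m)
    (h : ∀ i < m, rd O (PowerSeries.coeff i η) = 0) :
    rd O (PowerSeries.coeff k (∑ i, PhS β (a j i) * dS i η)) =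
      if k = m then ∑ i, C (eval (fun k => IsLocalRing.residue O (β k)) (rd O (a j i))) *
        pderiv i (rd O (PowerSeries.coeff m η)) else 0 := by
  have h0 := lowb_coeff (IsLocalRing.residue O) β (fun i => a j i) η k
  rw [h0]
  by_cases hkm : k = m
  · subst hkm
    rw [if_pos rfl]
    refine Finset.sum_congr rfl fun i _ => ?_
    rw [Finset.sum_eq_single (0, k)]
    · rw [coeff_zero_PhS]
    · intro p hp hne
      have h1 := Finset.HasAntidiagonal.mem_antidiagonal.1 hp
      have h2 : p.2 < k := by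
        rcases Nat.lt_or_ge p.2 k with h3 | h3
        · exact h3
        · exfalso
          apply hne
          ext
          · show p.1 = 0
            omega
          · show p.2 = k
            omega
      have h3 : MvPolynomial.map (IsLocalRing.residue O) (PowerSeries.coeff p.2 η) = 0 := h p.2 h2
      rw [h3, map_zero, mul_zero]
    · intro hmem
      exact absurd (Finset.HasAntidiagonal.mem_antidiagonal.2 (Nat.zero_add k)) hmem
  · rw [if_neg hkm]
    refine Finset.sum_eq_zero fun i _ => Finset.sum_eq_zero fun p hp => ?_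
    have h1 := Finset.HasAntidiagonal.mem_antidiagonal.1 hp
    have h2 : p.2 < m := by omega
    have h3 : MvPolynomial.map (IsLocalRing.residue O) (PowerSeries.coeff p.2 η) = 0 := h p.2 h2
    rw [h3, map_zero, mul_zero]

/- PLAN. Let `η, ξ` be as in the definition of `Im W (m+1)`, `θ = ∑ i, PhS β (a j i) * dS i η`
(coefficients in `O`), `∑ i, PhS β_K (a_K j i) * dS i ξ = X * ζ`, `ζ ∈ W`.  The coefficients of `θ` of
degree `≤ m+1` are mapped to those of `X * ζ` (`PhS_map`, `coeff_dS`, `PowerSeries.coeff_mul`).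
`η' = mk fun i => coeff (i+1) θ`.  Residues: `coeff p (PhS β̄ ā_ji)` times `∂_i` of the residue of
`coeff q η`, `p + q = i'+1 ≤ m+1`: all `0` for `q < m+1`; only `p = 0`, `q = m+1` remains
(`coeff_zero_PhS`). -/
theorem Im_frame (a : Matrix (Fin n) (Fin n) (MvPolynomial (Fin n) O)) (β : Fin n → O)
    (W : Submodule K (PowerSeries (MvPolynomial (Fin n) K)))
    (hW : XC (a.map (MvPolynomial.map (algebraMap O K))) (fun i => algebraMap O K (β i)) W) (m : ℕ)
    (c : MvPolynomial (Fin n) (RF O)) (hc : c ∈ Im (O := O) W (m + 1)) (j : Fin n) :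
    ∑ i, C (eval (fun k => IsLocalRing.residue O (β k)) (rd O (a j i))) * pderiv i c ∈
      Im (O := O) W m := by
  obtain ⟨η, ⟨ξ, hξ, h1⟩, h2, h3⟩ := hc
  obtain ⟨ζ, hζ, hζ'⟩ := hW ξ hξ j
  refine ⟨PowerSeries.mk fun k => PowerSeries.coeff (k + 1) (∑ i, PhS β (a j i) * dS i η),
    ⟨ζ, hζ, ?_⟩, ?_, ?_⟩
  · intro k hk
    rw [PowerSeries.coeff_mk, lowb_K a β j η ξ (m + 1) (k + 1) (by omega) h1, hζ',
      PowerSeries.coeff_succ_X_mul]
  · intro k hk
    rw [PowerSeries.coeff_mk, lowb_res a β j η (m + 1) (k + 1) (by omega) h2, if_neg (by omega)]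
  · rw [PowerSeries.coeff_mk, lowb_res a β j η (m + 1) (m + 1) le_rfl h2, if_pos rfl, h3]

/- PLAN. The same with the coefficient `0`. -/
theorem Im_frame_zero (a : Matrix (Fin n) (Fin n) (MvPolynomial (Fin n) O)) (β : Fin n → O)
    (W : Submodule K (PowerSeries (MvPolynomial (Fin n) K)))
    (hW : XC (a.map (MvPolynomial.map (algebraMap O K))) (fun i => algebraMap O K (β i)) W)
    (c : MvPolynomial (Fin n) (RF O)) (hc : c ∈ Im (O := O) W 0) (j : Fin n) :
    ∑ i, C (eval (fun k => IsLocalRing.residue O (β k)) (rd O (a j i))) * pderiv i c = 0 := by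
  obtain ⟨η, ⟨ξ, hξ, h1⟩, h2, h3⟩ := hc
  obtain ⟨ζ, hζ, hζ'⟩ := hW ξ hξ j
  have h4 := lowb_K a β j η ξ 0 0 le_rfl h1
  rw [hζ', PowerSeries.coeff_zero_X_mul] at h4
  have h5 : PowerSeries.coeff 0 (∑ i, PhS β (a j i) * dS i η) = 0 := by
    apply MvPolynomial.map_injective (algebraMap O K) (IsFractionRing.injective O K)
    rw [h4, map_zero]
  have h6 := lowb_res a β j η 0 0 le_rfl h2
  rw [h5, map_zero, if_pos rfl, h3] at h6
  exact h6.symm

end Pool.Agent.CLO
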