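import Pool.Agent.CLO.Defs

/-!
# CLO: the coefficients of `PhS β w` over a field
-/

set_option autoImplicit false

namespace Pool.Agent.CLO

open MvPolynomial

variable {n : ℕ} {κ : Type*} [Field κ]

/-- the polynomial version of `PhS β` -/
private noncomputable def PP (β : Fin n → κ) :
    MvPolynomial (Fin n) κ →ₐ[κ] Polynomial (MvPolynomial (Fin n) κ) :=
  aeval fun i => Polynomial.C (C (β i)) + Polynomial.X * Polynomial.C (X i)

private theorem PP_X (β : Fin n → κ) (i : Fin n) :
    PP β (X i) = Polynomial.C (C (β i)) + Polynomial.X * Polynomial.C (X i) := by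
  unfold PP
  rw [aeval_X]

private theorem PP_C (β : Fin n → κ) (r : κ) : PP β (C r) = Polynomial.C (C r) := by
  unfold PP
  rw [aeval_C]
  rfl

private theorem PhS_coe (β : Fin n → κ) (w : MvPolynomial (Fin n) κ) :
    PhS β w = ((PP β w : Polynomial (MvPolynomial (Fin n) κ)) :
      PowerSeries (MvPolynomial (Fin n) κ)) := by
  induction w using MvPolynomial.induction_on with
  | C r =>
    rw [PP_C, Polynomial.coe_C]
    unfold PhS
    rw [aeval_C, PowerSeries.algebraMap_apply, MvPolynomial.algebraMap_eq]
  | add p q hp hq => rw [map_add, map_add, Polynomial.coe_add, hp, hq]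
  | mul_X p i hp =>
    rw [map_mul, map_mul, Polynomial.coe_mul, hp, PP_X, Polynomial.coe_add, Polynomial.coe_C,
      Polynomial.coe_mul, Polynomial.coe_X, Polynomial.coe_C]
    congr 1
    unfold PhS
    rw [aeval_X]

private theorem PP_natDegree (β : Fin n → κ) (w : MvPolynomial (Fin n) κ) :
    (PP β w).natDegree ≤ w.totalDegree := by
  classical
  have h1 : ∀ i : Fin n, (Polynomial.C (C (β i)) + Polynomial.X * Polynomial.C (X i) :
      Polynomial (MvPolynomial (Fin n) κ)).natDegree ≤ 1 := by
    intro i
    refine (Polynomial.natDegree_add_le _ _).trans (max_le ?_ ?_)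
    · rw [Polynomial.natDegree_C]
      exact Nat.zero_le 1
    · refine (Polynomial.natDegree_mul_le).trans ?_
      rw [Polynomial.natDegree_C, add_zero]
      exact Polynomial.natDegree_X_le
  unfold PP
  rw [MvPolynomial.aeval_def, MvPolynomial.eval₂_eq]
  refine Polynomial.natDegree_sum_le_of_forall_le _ _ fun e he => ?_
  refine (Polynomial.natDegree_mul_le).trans ?_
  have h2 : (algebraMap κ (Polynomial (MvPolynomial (Fin n) κ))
      (MvPolynomial.coeff e w)).natDegree = 0 := by
    rw [Polynomial.algebraMap_apply, Polynomial.natDegree_C]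
  rw [h2, zero_add]
  refine (Polynomial.natDegree_prod_le _ _).trans ?_
  have h3 : ∑ i ∈ e.support, ((Polynomial.C (C (β i)) + Polynomial.X * Polynomial.C (X i) :
      Polynomial (MvPolynomial (Fin n) κ)) ^ e i).natDegree ≤ ∑ i ∈ e.support, e i := by
    refine Finset.sum_le_sum fun i _ => ?_
    refine (Polynomial.natDegree_pow_le).trans ?_
    calc e i * _ ≤ e i * 1 := Nat.mul_le_mul_left _ (h1 i)
      _ = e i := mul_one _
  exact h3.trans (MvPolynomial.le_totalDegree he)

private theorem PP_ev (β y : Fin n → κ) (z : κ) (w : MvPolynomial (Fin n) κ) :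
    eval (fun j => β j + z * y j) w = ((PP β w).map (eval y)).eval z := by
  induction w using MvPolynomial.induction_on with
  | C r => rw [PP_C, Polynomial.map_C, Polynomial.eval_C, eval_C, eval_C]
  | add p q hp hq => rw [map_add, map_add, Polynomial.map_add, Polynomial.eval_add, hp, hq]
  | mul_X p i hp =>
    rw [map_mul, map_mul, Polynomial.map_mul, Polynomial.eval_mul, hp, PP_X, eval_X,
      Polynomial.map_add, Polynomial.map_mul, Polynomial.map_C, Polynomial.map_C, Polynomial.map_X,
      Polynomial.eval_add, Polynomial.eval_mul, Polynomial.eval_C, Polynomial.eval_C,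
      Polynomial.eval_X, eval_C, eval_X]

private theorem PP_inj (β : Fin n → κ) (w : MvPolynomial (Fin n) κ) (h : PP β w = 0) : w = 0 := by
  have h1 : ∀ p : MvPolynomial (Fin n) κ,
      aeval (fun i => (X i - C (β i) : MvPolynomial (Fin n) κ)) ((PP β p).eval 1) = p := by
    intro p
    induction p using MvPolynomial.induction_on with
    | C r => rw [PP_C, Polynomial.eval_C, aeval_C]; rfl
    | add p q hp hq => rw [map_add, Polynomial.eval_add, map_add, hp, hq]
    | mul_X p i hp =>
      rw [map_mul, Polynomial.eval_mul, map_mul, hp, PP_X, Polynomial.eval_add, Polynomial.eval_mul,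
        Polynomial.eval_C, Polynomial.eval_C, Polynomial.eval_X, one_mul, map_add, aeval_X,
        aeval_C]
      congr 1
      rw [MvPolynomial.algebraMap_eq]
      ring
  rw [← h1 w, h, Polynomial.eval_zero, map_zero]

/- PLAN. For fixed `β, y, z`: both sides of `PhS_eval` are obtained from the polynomial version of
`PhS β w` (in `(MvPolynomial (Fin n) κ)[X]`): `PhS β w` is the power series of
`P = aeval (fun i => Polynomial.C (C (β i)) + Polynomial.X * Polynomial.C (X i)) w`, of degree at most
`w.totalDegree` (compare `SPE.PhiY_natDegree`), and evaluating the coefficients at `y` and the variable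
at `z` is the ring homomorphism `w ↦ eval (fun j => β j + z * y j) w` (`Polynomial.eval_eq_sum_range'`,
`Polynomial.eval_map`, `MvPolynomial.ringHom_ext`). -/
theorem PhS_eval (β y : Fin n → κ) (z : κ) (w : MvPolynomial (Fin n) κ) :
    eval (fun j => β j + z * y j) w =
      ∑ m ∈ Finset.range (w.totalDegree + 1), z ^ m * eval y (PowerSeries.coeff m (PhS β w)) := by
  rw [PP_ev, Polynomial.eval_eq_sum_range' (n := w.totalDegree + 1)
    (lt_of_le_of_lt Polynomial.natDegree_map_le (Nat.lt_succ_of_le (PP_natDegree β w)))]
  refine Finset.sum_congr rfl fun m _ => ?_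
  rw [Polynomial.coeff_map, PhS_coe, Polynomial.coeff_coe, mul_comm]

/- PLAN. The coefficients of degree `> w.totalDegree` vanish; if all coefficients vanish then `w = 0`
(put `z = 1`, `y_j = X_j - β_j`, compare `SPH.low_inj`); take the least nonzero one. -/
theorem PhS_lowest (β : Fin n → κ) (w : MvPolynomial (Fin n) κ) (hw : w ≠ 0) :
    ∃ m ≤ w.totalDegree, PowerSeries.coeff m (PhS β w) ≠ 0 ∧
      ∀ i < m, PowerSeries.coeff i (PhS β w) = 0 := by
  classical
  simp only [PhS_coe, Polynomial.coeff_coe]
  have hP : PP β w ≠ 0 := fun h => hw (PP_inj β w h)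
  refine ⟨(PP β w).natTrailingDegree, (Polynomial.natTrailingDegree_le_natDegree _).trans
    (PP_natDegree β w), ?_, fun i hi => Polynomial.coeff_eq_zero_of_lt_natTrailingDegree hi⟩
  exact mt Polynomial.trailingCoeff_eq_zero.1 hP

end Pool.Agent.CLO
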