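import Pool.Agent.CLO.LowA
import Pool.Agent.CLO.LowB
import Pool.Agent.CLO.SerB

/-!
# CLO: the lowest coefficient of the residue is in a small closed space
-/

set_option autoImplicit false

namespace Pool.Agent.CLO

open MvPolynomial

variable {n : ℕ} {O : Type*} [CommRing O] [IsDomain O] [ValuationRing O] {K : Type*} [Field K]
  [Algebra O K] [IsFractionRing O K]

/- PLAN. `V = ⨆ m ∈ range (μ+1), span (Im W m)`: `finrank ≤ (μ+1) N` (`finrank_Im`); closed: by
`Im_frame`, `Im_frame_zero` and the invertible matrix `B j i = eval β̄ (rd (a j i))`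
(`∂_i c = ∑ j, (B⁻¹) i j • ∑ i', B j i' ∂_i' c`), `Submodule.span_induction`.
`PhS_lowest` for `rd O G` gives `m ≤ totalDegree (rd O G) ≤ totalDegree G = totalDegree (x • P) ≤ μ`.
As in the proof of `SPH.low_coeff` (SPH/Low.lean, copy): `PhS β R0` is a unit of `PowerSeries` (constant
coefficient `C (eval β R0)`), `G' = (PhS β R0)⁻¹`, `Θ = PhS β G * G'`, over `K` it is `x • ξ ∈ W`; the
residues of the coefficients of `Θ` below `m` vanish, and the one of `z^m` is
`C (residue g') * coeff m (PhS β̄ (rd O G))`, `g'` the inverse of `eval β R0`: it is in `Im W m`. -/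
theorem low_space (a : Matrix (Fin n) (Fin n) (MvPolynomial (Fin n) O)) (β : Fin n → O) (μ N : ℕ)
    (W : Submodule K (PowerSeries (MvPolynomial (Fin n) K)))
    (hW : XC (a.map (MvPolynomial.map (algebraMap O K))) (fun i => algebraMap O K (β i)) W)
    (hN : Dm μ W N)
    (hdet : (Matrix.of fun j i => eval (fun k => IsLocalRing.residue O (β k))
      (rd O (a j i))).det ≠ 0)
    (P : MvPolynomial (Fin n) K) (R0 : MvPolynomial (Fin n) O) (hR0 : IsUnit (eval β R0))
    (ξ : PowerSeries (MvPolynomial (Fin n) K)) (hξ : ξ ∈ W)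
    (hP : PhS (fun i => algebraMap O K (β i)) P =
      PhS (fun i => algebraMap O K (β i)) (MvPolynomial.map (algebraMap O K) R0) * ξ)
    (hd : P.totalDegree ≤ μ) (G : MvPolynomial (Fin n) O) (x : K)
    (hG : MvPolynomial.map (algebraMap O K) G = x • P) (hG0 : rd O G ≠ 0) :
    ∃ (V : Submodule (RF O) (MvPolynomial (Fin n) (RF O))) (m : ℕ), FiniteDimensional (RF O) V ∧
      Module.finrank (RF O) V ≤ (μ + 1) * N ∧ (∀ h ∈ V, ∀ j, pderiv j h ∈ V) ∧
      PowerSeries.coeff m (PhS (fun k => IsLocalRing.residue O (β k)) (rd O G)) ∈ V ∧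
      PowerSeries.coeff m (PhS (fun k => IsLocalRing.residue O (β k)) (rd O G)) ≠ 0 ∧
      ∀ i < m, PowerSeries.coeff i (PhS (fun k => IsLocalRing.residue O (β k)) (rd O G)) = 0 := by
  classical
  -- the lowest coefficient
  obtain ⟨m, hmw, hm0, hmlt⟩ := PhS_lowest (fun k => IsLocalRing.residue O (β k)) (rd O G) hG0
  have hinj : Function.Injective (algebraMap O K) := IsFractionRing.injective O K
  have hmμ : m ≤ μ := by
    have h1 : (rd O G).totalDegree ≤ G.totalDegree := by
      unfold totalDegree
      exact Finset.sup_mono (support_map_subset _ _)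
    have h2 : G.totalDegree ≤ (MvPolynomial.map (algebraMap O K) G).totalDegree := by
      unfold totalDegree
      rw [support_map_of_injective _ hinj]
    rw [hG] at h2
    exact hmw.trans (h1.trans (h2.trans ((totalDegree_smul_le _ _).trans hd)))
  -- the space
  have hspan : ∀ k ≤ μ + 1, FiniteDimensional (RF O) ((Finset.range k).sup
        (fun i => Submodule.span (RF O) (Im (O := O) W i)) :
          Submodule (RF O) (MvPolynomial (Fin n) (RF O))) ∧
      Module.finrank (RF O) ((Finset.range k).sup
        (fun i => Submodule.span (RF O) (Im (O := O) W i)) :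
          Submodule (RF O) (MvPolynomial (Fin n) (RF O))) ≤ k * N := by
    intro k
    induction k with
    | zero =>
      intro _
      rw [Finset.range_zero, Finset.sup_empty]
      exact ⟨inferInstance, by simp⟩
    | succ k ih =>
      intro hk
      obtain ⟨h1, h2⟩ := ih (by omega)
      obtain ⟨h3, h4⟩ := finrank_Im (O := O) μ k N (by omega) W hN
      rw [Finset.range_add_one, Finset.sup_insert]
      haveI := h1
      haveI := h3
      refine ⟨inferInstance, ?_⟩
      refine (Submodule.finrank_add_le_finrank_add_finrank _ _).trans ?_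
      calc _ ≤ N + k * N := Nat.add_le_add h4 h2
        _ = (k + 1) * N := by ring
  obtain ⟨V, hVdef⟩ : ∃ V : Submodule (RF O) (MvPolynomial (Fin n) (RF O)),
    V = (Finset.range (μ + 1)).sup (fun i => Submodule.span (RF O) (Im (O := O) W i)) := ⟨_, rfl⟩
  obtain ⟨hVf, hVr⟩ := hspan (μ + 1) le_rfl
  rw [← hVdef] at hVf hVr
  have hle : ∀ i ≤ μ, ∀ c ∈ Im (O := O) W i, c ∈ V := by
    intro i hi c hc
    rw [hVdef]
    exact (Finset.le_sup (f := fun i => Submodule.span (RF O) (Im (O := O) W i))
      (Finset.mem_range.2 (Nat.lt_succ_of_le hi))) (Submodule.subset_span hc)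
  -- closed under derivatives
  have hclosed : ∀ h ∈ V, ∀ j, pderiv j h ∈ V := by
    obtain ⟨B, hB⟩ : ∃ B : Matrix (Fin n) (Fin n) (RF O), B = Matrix.of fun j i =>
      eval (fun k => IsLocalRing.residue O (β k)) (rd O (a j i)) := ⟨_, rfl⟩
    rw [← hB] at hdet
    have hBinv : B⁻¹ * B = 1 := Matrix.nonsing_inv_mul _ (isUnit_iff_ne_zero.2 hdet)
    have hder : ∀ i ≤ μ, ∀ c ∈ Im (O := O) W i, ∀ j, pderiv j c ∈ V := by
      intro i hi c hc j
      have hT : ∀ j', ∑ i', C (B j' i') * pderiv i' c ∈ V := by
        intro j'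
        rw [hB]
        cases i with
        | zero =>
          have h1 := Im_frame_zero a β W hW c hc j'
          simp only [Matrix.of_apply]
          rw [h1]
          exact V.zero_mem
        | succ i =>
          have h1 := Im_frame a β W hW i c hc j'
          simp only [Matrix.of_apply]
          exact hle i (by omega) _ h1
      have h2 : pderiv j c = ∑ j', B⁻¹ j j' • ∑ i', C (B j' i') * pderiv i' c := by
        have h3 : ∑ j', B⁻¹ j j' • ∑ i', C (B j' i') * pderiv i' c =
            ∑ i', C ((B⁻¹ * B) j i') * pderiv i' c := by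
          simp only [Finset.smul_sum, MvPolynomial.smul_eq_C_mul]
          rw [Finset.sum_comm]
          refine Finset.sum_congr rfl fun i' _ => ?_
          rw [Matrix.mul_apply, map_sum, Finset.sum_mul]
          refine Finset.sum_congr rfl fun j' _ => ?_
          rw [map_mul, mul_assoc]
        rw [h3, hBinv, Finset.sum_eq_single j]
        · rw [Matrix.one_apply_eq, map_one, one_mul]
        · intro i' _ hi'
          rw [Matrix.one_apply_ne (Ne.symm hi'), map_zero, zero_mul]
        · intro h
          exact absurd (Finset.mem_univ j) h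
      rw [h2]
      exact V.sum_mem fun j' _ => V.smul_mem _ (hT j')
    intro h hh j
    have hsub : V ≤ V.comap ((pderiv j : Derivation (RF O) (MvPolynomial (Fin n) (RF O))
        (MvPolynomial (Fin n) (RF O))).toLinearMap) := by
      conv_lhs => rw [hVdef]
      refine Finset.sup_le fun i hi => Submodule.span_le.2 fun c hc => ?_
      exact hder i (Nat.lt_succ_iff.1 (Finset.mem_range.1 hi)) c hc j
    exact hsub hh
  -- the lowest coefficient is in the space
  obtain ⟨g0, hg0⟩ : ∃ g0 : O, g0 = eval β R0 := ⟨_, rfl⟩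
  rw [← hg0] at hR0
  obtain ⟨g', hg'⟩ := hR0.exists_right_inv
  have hc0 : PowerSeries.constantCoeff (PhS β R0) = C g0 := by
    rw [← PowerSeries.coeff_zero_eq_constantCoeff_apply, coeff_zero_PhS, hg0]
  have hunit : IsUnit (PhS β R0) := by
    rw [PowerSeries.isUnit_iff_constantCoeff, hc0]
    exact hR0.map C
  obtain ⟨G', hG'⟩ := hunit.exists_right_inv
  have hG'0 : PowerSeries.constantCoeff G' = C g' := by
    have h1 := congrArg PowerSeries.constantCoeff hG'
    rw [map_mul, map_one, hc0] at h1
    have h3 : (C g' : MvPolynomial (Fin n) O) * (C g0 * PowerSeries.constantCoeff G') = C g' := by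
      rw [h1, mul_one]
    rw [← mul_assoc, ← map_mul, mul_comm g', hg', map_one, one_mul] at h3
    exact h3
  obtain ⟨Θ, hΘ⟩ : ∃ Θ : PowerSeries (MvPolynomial (Fin n) O), Θ = PhS β G * G' := ⟨_, rfl⟩
  have hKΘ : PowerSeries.map (MvPolynomial.map (algebraMap O K)) Θ = x • ξ := by
    rw [hΘ, map_mul, PhS_map, hG, map_smul, hP, ← PhS_map]
    have h1 : PowerSeries.map (MvPolynomial.map (algebraMap O K)) (PhS β R0) *
        PowerSeries.map (MvPolynomial.map (algebraMap O K)) G' = 1 := by
      rw [← map_mul, hG', map_one]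
    rw [smul_mul_assoc]
    congr 1
    calc PowerSeries.map (MvPolynomial.map (algebraMap O K)) (PhS β R0) * ξ *
          PowerSeries.map (MvPolynomial.map (algebraMap O K)) G' =
          ξ * (PowerSeries.map (MvPolynomial.map (algebraMap O K)) (PhS β R0) *
            PowerSeries.map (MvPolynomial.map (algebraMap O K)) G') := by ring
      _ = ξ := by rw [h1, mul_one]
  have hres : ∀ i, rd O (PowerSeries.coeff i Θ) = ∑ p ∈ Finset.HasAntidiagonal.antidiagonal i,
      PowerSeries.coeff p.1 (PhS (fun k => IsLocalRing.residue O (β k)) (rd O G)) *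
        rd O (PowerSeries.coeff p.2 G') := by
    intro i
    rw [hΘ, PowerSeries.coeff_mul, map_sum]
    refine Finset.sum_congr rfl fun p _ => ?_
    rw [map_mul, ← PhS_map, PowerSeries.coeff_map]
  have hmemI : C (IsLocalRing.residue O g') *
      PowerSeries.coeff m (PhS (fun k => IsLocalRing.residue O (β k)) (rd O G)) ∈
        Im (O := O) W m := by
    refine ⟨Θ, ⟨x • ξ, W.smul_mem _ hξ, fun i _ => ?_⟩, fun i hi => ?_, ?_⟩
    · rw [← hKΘ, PowerSeries.coeff_map]
    · rw [hres]
      refine Finset.sum_eq_zero fun p hp => ?_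
      have h1 : p.1 + p.2 = i := Finset.HasAntidiagonal.mem_antidiagonal.1 hp
      rw [hmlt p.1 (by omega), zero_mul]
    · rw [hres, Finset.sum_eq_single (m, 0)]
      · rw [PowerSeries.coeff_zero_eq_constantCoeff_apply, hG'0, mul_comm]
        congr 1
        exact MvPolynomial.map_C _ _
      · rintro ⟨p, q⟩ hpq hne
        have h1 : p + q = m := Finset.HasAntidiagonal.mem_antidiagonal.1 hpq
        have h2 : p < m := by
          rcases Nat.lt_or_ge p m with h | h
          · exact h
          · exfalso
            apply hne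
            have h3 : p = m := by omega
            have h4 : q = 0 := by omega
            rw [h3, h4]
        rw [hmlt p h2, zero_mul]
      · intro h
        exact absurd (by simp) h
  refine ⟨V, m, hVf, hVr, hclosed, ?_, hm0, hmlt⟩
  have h1 := hle m hmμ _ hmemI
  have h2 : PowerSeries.coeff m (PhS (fun k => IsLocalRing.residue O (β k)) (rd O G)) =
      IsLocalRing.residue O g0 • (C (IsLocalRing.residue O g') *
        PowerSeries.coeff m (PhS (fun k => IsLocalRing.residue O (β k)) (rd O G))) := by
    rw [MvPolynomial.smul_eq_C_mul, ← mul_assoc, ← map_mul, ← map_mul, hg', map_one, map_one,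
      one_mul]
  rw [h2]
  exact V.smul_mem _ h1

end Pool.Agent.CLO
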