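import Pool.Agent.CLO.Defs

/-!
# CLO: minors
-/

set_option autoImplicit false

namespace Pool.Agent.CLO

open MvPolynomial

variable {n r : ℕ} {K : Type*} [Field K]

private theorem prod_mem_prod' {A : Type*} [CommRing A] [Algebra K A] {ι : Type*} (s : Finset ι)
    (W : ι → Submodule K A) (x : ι → A) (h : ∀ i ∈ s, x i ∈ W i) :
    ∏ i ∈ s, x i ∈ ∏ i ∈ s, W i := by
  classical
  induction s using Finset.induction_on with
  | empty =>
    rw [Finset.prod_empty, Finset.prod_empty]
    exact Submodule.one_le.1 le_rfl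
  | insert i s his ih =>
    rw [Finset.prod_insert his, Finset.prod_insert his]
    exact Submodule.mul_mem_mul (h i (Finset.mem_insert_self i s))
      (ih fun j hj => h j (Finset.mem_insert_of_mem hj))

private theorem det_mem {A : Type*} [CommRing A] [Algebra K A] (W : Fin r → Submodule K A)
    (ξ : Fin r → Fin r → A) (h : ∀ i j, ξ i j ∈ W i) : (Matrix.of ξ).det ∈ ∏ i, W i := by
  classical
  rw [← Matrix.det_transpose, Matrix.det_apply]
  refine Submodule.sum_mem _ fun σ _ => ?_
  have h1 : ∏ i, (Matrix.of ξ).transpose (σ i) i ∈ ∏ i, W i :=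
    prod_mem_prod' Finset.univ W _ fun i _ => h i (σ i)
  rcases Int.units_eq_one_or (Equiv.Perm.sign σ) with hs | hs
  · rw [hs, one_smul]; exact h1
  · rw [hs, Units.neg_smul, one_smul]; exact Submodule.neg_mem _ h1

private theorem det_totalDegree' {σ : Type*} {d : ℕ}
    (A : Matrix (Fin r) (Fin r) (MvPolynomial σ K)) (hA : ∀ l j, (A l j).totalDegree ≤ d) :
    A.det.totalDegree ≤ r * d := by
  rw [Matrix.det_apply]
  refine MvPolynomial.totalDegree_finsetSum_le fun τ _ => ?_
  refine (MvPolynomial.totalDegree_smul_le _ _).trans ?_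
  refine (MvPolynomial.totalDegree_finsetProd _ _).trans ?_
  refine (Finset.sum_le_sum fun i _ => hA (τ i) i).trans ?_
  simp

/-- Rows are scaled, so determinants are multiplied by products; the determinant of `ξ` is a sum of
products with one factor from each row. -/
theorem minor_det (β : Fin n → K) (d : ℕ) (E T R : Fin r → MvPolynomial (Fin n) K)
    (D ω : Fin r → Fin r → MvPolynomial (Fin n) K)
    (ξ : Fin r → Fin r → PowerSeries (MvPolynomial (Fin n) K))
    (W : Fin r → Submodule K (PowerSeries (MvPolynomial (Fin n) K)))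
    (hE : ∀ i j, E i * D i j = T i * ω i j) (hξ : ∀ i j, PhS β (ω i j) = PhS β (R i) * ξ i j)
    (hW : ∀ i j, ξ i j ∈ W i) (hd : ∀ i j, (ω i j).totalDegree ≤ d) :
    (∏ i, E i) * (Matrix.of D).det = (∏ i, T i) * (Matrix.of ω).det ∧
    (∃ ζ ∈ ∏ i, W i, PhS β (Matrix.of ω).det = PhS β (∏ i, R i) * ζ) ∧
    (Matrix.of ω).det.totalDegree ≤ r * d := by
  refine ⟨?_, ⟨(Matrix.of ξ).det, det_mem W ξ hW, ?_⟩, det_totalDegree' _ hd⟩
  · have h1 := Matrix.det_mul_column E (Matrix.of D)
    have h2 := Matrix.det_mul_column T (Matrix.of ω)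
    rw [← h1, ← h2]
    refine congrArg Matrix.det ?_
    ext1 i j
    exact hE i j
  · have h1 := Matrix.det_mul_column (fun i => PhS β (R i)) (Matrix.of ξ)
    rw [map_prod, ← h1, AlgHom.map_det]
    refine congrArg Matrix.det ?_
    ext1 i j
    exact hξ i j

end Pool.Agent.CLO
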