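import Pool.Agent.CLO.Ser

/-!
# CLO: images of spaces of polynomials
-/

set_option autoImplicit false

namespace Pool.Agent.CLO

open MvPolynomial

variable {n : ℕ} {K : Type*} [Field K]

/- PLAN. `dS_PhS`; `PhS β` is an algebra homomorphism; `Submodule.mem_map`. -/
theorem XC_PhS (a : Matrix (Fin n) (Fin n) (MvPolynomial (Fin n) K)) (β : Fin n → K)
    (V : Submodule K (MvPolynomial (Fin n) K)) (hV : FC a V) :
    XC a β (V.map (PhS β).toLinearMap) := by
  rintro _ ⟨g, hg, rfl⟩ j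
  refine ⟨PhS β (∑ i, a j i * pderiv i g), ⟨_, hV g hg j, rfl⟩, ?_⟩
  rw [map_sum, Finset.mul_sum]
  refine Finset.sum_congr rfl fun i _ => ?_
  have h1 : ((PhS β).toLinearMap g : PowerSeries (MvPolynomial (Fin n) K)) = PhS β g := rfl
  rw [h1, dS_PhS, map_mul]
  ring

theorem DC_PhS (β : Fin n → K) (V V' : Submodule K (MvPolynomial (Fin n) K))
    (hV : ∀ g ∈ V, ∀ i, pderiv i g ∈ V') :
    DC (V.map (PhS β).toLinearMap) (V'.map (PhS β).toLinearMap) := by
  rintro _ ⟨g, hg, rfl⟩ i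
  exact ⟨PhS β (pderiv i g), ⟨_, hV g hg i, rfl⟩, dS_PhS β i g⟩

theorem Dm_PhS (μ : ℕ) (β : Fin n → K) (V : Submodule K (MvPolynomial (Fin n) K))
    (hfd : FiniteDimensional K V) (N : ℕ) (hN : Module.finrank K V ≤ N) :
    Dm μ (V.map (PhS β).toLinearMap) N := by
  unfold Dm
  rw [← Submodule.map_comp]
  exact ⟨inferInstance, (Submodule.finrank_map_le _ _).trans hN⟩

end Pool.Agent.CLO
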