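import Pool.Agent.CLO.Clx
import Pool.Agent.CLO.PhV
import Pool.Agent.ORB.Gate
import Pool.Agent.SPH.UUl

/-!
# CLO: higher derivatives of a leaf
-/

set_option autoImplicit false

namespace Pool.Agent.CLO

open MvPolynomial Pool.Agent.ORB

variable {n : ℕ} {K : Type*} [Field K]

private theorem om_pow (j : Fin n) (Y : MvPolynomial (Fin n) K) (k : ℕ) :
    pderiv j (Y ^ k) * Y = (k : MvPolynomial (Fin n) K) * (Y ^ k * pderiv j Y) := by
  cases k with
  | zero => rw [pow_zero, (pderiv j).map_one_eq_zero, Nat.cast_zero, zero_mul, zero_mul]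
  | succ k =>
    rw [(pderiv j).leibniz_pow, Nat.add_sub_cancel, smul_eq_mul, nsmul_eq_mul, pow_succ]
    ring

private theorem om_PhPow (β : Fin n → K) (j : Fin n) (G : MvPolynomial (Fin n) K)
    (lam : PowerSeries (MvPolynomial (Fin n) K)) (h : PhS β (pderiv j G) = PhS β G * lam) (k : ℕ) :
    PhS β (pderiv j (G ^ k)) =
      (k : PowerSeries (MvPolynomial (Fin n) K)) * (PhS β G ^ k * lam) := by
  cases k with
  | zero => rw [pow_zero, (pderiv j).map_one_eq_zero, Nat.cast_zero, zero_mul, map_zero]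
  | succ k =>
    rw [(pderiv j).leibniz_pow, Nat.add_sub_cancel, smul_eq_mul, nsmul_eq_mul, pow_succ, map_mul,
      map_mul, map_pow, map_natCast, h]
    ring

private theorem om_dG (j : Fin n) {m : ℕ} (g : Fin m → MvPolynomial (Fin n) K)
    (hG : ∏ x, g x ≠ 0) : pderiv j (∏ x, g x) =
      ∑ x, (fun _ : Fin m => 1) x • (pderiv j (g x) * ∏ y ∈ Finset.univ.erase x, g y) := by
  have h1 := SPH.uul_ind (pderiv j) g (fun _ => 1) Finset.univ
  have h2 : ∏ x, g x ^ (fun _ : Fin m => 1) x = ∏ x, g x :=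
    Finset.prod_congr rfl fun x _ => pow_one _
  rw [h2] at h1
  exact mul_right_cancel₀ hG h1

private theorem om_step (j : Fin n) (Y T P ω U : MvPolynomial (Fin n) K) (k : ℕ)
    (h : Y ^ k * P = T * ω) (hT : pderiv j T * Y = U * T) :
    Y ^ (k + 1) * pderiv j P = T * (U * ω + Y * pderiv j ω - k * (pderiv j Y * ω)) := by
  have h1 := congrArg (fun w => pderiv j w * Y) h
  simp only [pderiv_mul] at h1
  have h2 := om_pow j Y k
  have h3 : (pderiv j (Y ^ k) * P + Y ^ k * pderiv j P) * Y =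
      (pderiv j (Y ^ k) * Y) * P + Y ^ (k + 1) * pderiv j P := by
    rw [pow_succ]
    ring
  have h4 : (pderiv j T * ω + T * pderiv j ω) * Y =
      (pderiv j T * Y) * ω + T * pderiv j ω * Y := by ring
  rw [h3, h4, h2, hT] at h1
  have h5 : (k : MvPolynomial (Fin n) K) * (Y ^ k * pderiv j Y) * P =
      k * pderiv j Y * (T * ω) := by
    rw [← h]
    ring
  rw [h5] at h1
  have h6 : Y ^ (k + 1) * pderiv j P = U * T * ω + T * pderiv j ω * Y - k * pderiv j Y * (T * ω) := by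
    rw [← h1]
    ring
  rw [h6]
  ring

/- PLAN. Notation `G = ∏ g`, `Y = H * G`, `T = Q * ∏ g^q`, `Φ = PhS β`, `U_j = SPH.UU H (w j) g q j`:
`Y * ∂_j T = U_j * T` (`SPH.UU_eq`), `deg U_j ≤ d` (`SPH.UU_degree`),
`Φ U_j = Φ G * (Φ (w j) + Φ H * lam_j)` (unfold `SPH.UU`; `hlam q j`).
Induction on `L`: `[]`: `ω = 1`, `ξ = 1`.  `j :: L` (`pd_cons`), `m = L.length`, `ω, ξ` for `L`:
`ω' = U_j * ω + Y * ∂_j ω - m * ∂_j Y * ω` (apply `∂_j` to `Y^m * pd L T = T * ω` and multiply by `Y`);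
`deg ω' ≤ (m+1) d` (`SPH.uul_td`).  `Φ(∂_j G) = Φ G * lam'` (`hlam (fun _ => 1) j`,
`Derivation.leibniz_prod`-type formula, or `SPH.uul_ind` with `q = 1`);
`dS j ξ = X * η` with `η ∈ ((Vc (m+1)).map Φ * U)^m` (`DC_PhS`, `DC_mul` (needs `DC U U`), `DC_pow`);
`X * Φ(∂_j ω) = dS j (Φ ω) = dS j ((Φ G)^m * ξ)` (`dS_PhS`, `dS_mul`), cancel `X`:
`Φ(∂_j ω) = (Φ G)^m * (m * lam' * ξ + η)`.  Altogether
`ξ' = (Φ (w j) + Φ H * lam_j) * ξ + Φ H * η - m * Φ(∂_j H) * ξ` (the terms with `lam'` cancel), which is in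
`((Vc (m+1)).map Φ * U)^(m+1)` because `H, w j ∈ Vc 0 ≤ Vc (m+1)`, `∂_j H ∈ Vc 1 ≤ Vc (m+1)`,
`1 ∈ U`. -/
theorem exists_omega (β : Fin n → K) (d : ℕ) (H Q : MvPolynomial (Fin n) K)
    (w : Fin n → MvPolynomial (Fin n) K) (Vc : ℕ → Submodule K (MvPolynomial (Fin n) K))
    (hVm : ∀ m, Vc m ≤ Vc (m + 1)) (hVd : ∀ m, ∀ g ∈ Vc m, ∀ i, pderiv i g ∈ Vc (m + 1))
    (hH : H ∈ Vc 0) (hw : ∀ i, w i ∈ Vc 0) (hQ : ∀ i, H * pderiv i Q = Q * w i)
    (hwd : ∀ i, (w i).totalDegree ≤ H.totalDegree) {m : ℕ} (g : Fin m → MvPolynomial (Fin n) K)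
    (q : Fin m → ℕ) (U : Submodule K (PowerSeries (MvPolynomial (Fin n) K))) (hU : DC U U)
    (h1 : (1 : PowerSeries (MvPolynomial (Fin n) K)) ∈ U)
    (hlam : ∀ (q : Fin m → ℕ) (i : Fin n), ∃ lam ∈ U,
      PhS β (∑ x, q x • (pderiv i (g x) * ∏ y ∈ Finset.univ.erase x, g y)) =
        PhS β (∏ x, g x) * lam)
    (h0 : H * ∏ x, g x ≠ 0) (hd : (H * ∏ x, g x).totalDegree ≤ d) (L : List (Fin n)) :
    ∃ (ω : MvPolynomial (Fin n) K) (ξ : PowerSeries (MvPolynomial (Fin n) K)),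
      ξ ∈ ((Vc L.length).map (PhS β).toLinearMap * U) ^ L.length ∧
      (H * ∏ x, g x) ^ L.length * pd L (Q * ∏ x, g x ^ q x) = (Q * ∏ x, g x ^ q x) * ω ∧
      PhS β ω = PhS β (∏ x, g x) ^ L.length * ξ ∧ ω.totalDegree ≤ L.length * d := by
  classical
  have hG : ∏ x, g x ≠ 0 := right_ne_zero_of_mul h0
  have hV0 : ∀ m, Vc 0 ≤ Vc m := by
    intro m
    induction m with
    | zero => exact le_rfl
    | succ m ih => exact ih.trans (hVm m)
  have hV1 : ∀ m, Vc 1 ≤ Vc (m + 1) := by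
    intro m
    induction m with
    | zero => exact le_rfl
    | succ m ih => exact ih.trans (hVm _)
  induction L with
  | nil =>
    refine ⟨1, 1, ?_, ?_, ?_, ?_⟩
    · show (1 : PowerSeries (MvPolynomial (Fin n) K)) ∈ _ ^ 0
      rw [pow_zero]
      exact Submodule.mem_one.2 ⟨1, map_one _⟩
    · show (H * ∏ x, g x) ^ 0 * pd [] _ = _
      rw [pow_zero, one_mul, mul_one, pd_nil]
    · show _ = _ ^ 0 * 1
      rw [pow_zero, map_one, one_mul]
    · rw [totalDegree_one]
      exact Nat.zero_le _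
  | cons j L ih =>
    obtain ⟨ω, ξ, h2, h3, h4, h5⟩ := ih
    obtain ⟨lam, hl1, hl2⟩ := hlam q j
    obtain ⟨lam', hl3, hl4⟩ := hlam (fun _ => 1) j
    rw [← om_dG j g hG] at hl4
    have hW : (Vc L.length).map (PhS β).toLinearMap * U ≤
        (Vc (L.length + 1)).map (PhS β).toLinearMap * U :=
      mul_le_mul' (Submodule.map_mono (hVm _)) le_rfl
    have hD : DC (((Vc L.length).map (PhS β).toLinearMap * U) ^ L.length)
        (((Vc (L.length + 1)).map (PhS β).toLinearMap * U) ^ L.length) :=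
      DC_pow (DC_mul (DC_PhS β _ _ (hVd _)) hU (Submodule.map_mono (hVm _)) le_rfl) hW _
    obtain ⟨η, h6, h7⟩ := hD ξ h2 j
    have h8 : PhS β (pderiv j ω) = PhS β (∏ x, g x) ^ L.length *
        ((L.length : PowerSeries (MvPolynomial (Fin n) K)) * lam' * ξ + η) := by
      have h9 : dS j (PhS β ω) = PowerSeries.X * PhS β (pderiv j ω) := dS_PhS β j ω
      rw [h4, dS_mul, h7, ← map_pow, dS_PhS, om_PhPow β j _ lam' hl4, map_pow] at h9
      have h10 : (PowerSeries.X : PowerSeries (MvPolynomial (Fin n) K)) * PhS β (pderiv j ω) =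
          PowerSeries.X * (PhS β (∏ x, g x) ^ L.length *
            ((L.length : PowerSeries (MvPolynomial (Fin n) K)) * lam' * ξ + η)) := by
        rw [← h9]
        ring
      exact mul_left_cancel₀ PowerSeries.X_ne_zero h10
    have hUU : PhS β (SPH.UU H (w j) g q j) = PhS β (∏ x, g x) * (PhS β (w j) + PhS β H * lam) := by
      unfold SPH.UU
      rw [map_add, map_mul, map_mul, hl2]
      ring
    have hY : PhS β (pderiv j (H * ∏ x, g x)) = PhS β (∏ x, g x) * (PhS β (pderiv j H) +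
        PhS β H * lam') := by
      rw [pderiv_mul, map_add, map_mul, map_mul, hl4]
      ring
    refine ⟨SPH.UU H (w j) g q j * ω + (H * ∏ x, g x) * pderiv j ω -
      (L.length : MvPolynomial (Fin n) K) * (pderiv j (H * ∏ x, g x) * ω),
      (PhS β (w j) + PhS β H * lam) * ξ + PhS β H * η -
        (L.length : PowerSeries (MvPolynomial (Fin n) K)) * (PhS β (pderiv j H) * ξ), ?_, ?_, ?_, ?_⟩
    · show _ ∈ ((Vc (L.length + 1)).map (PhS β).toLinearMap * U) ^ (L.length + 1)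
      have m1 : ∀ v ∈ Vc (L.length + 1), ∀ y ∈ U, PhS β v * y ∈
          (Vc (L.length + 1)).map (PhS β).toLinearMap * U := fun v hv y hy =>
        Submodule.mul_mem_mul ⟨v, hv, rfl⟩ hy
      have m2 : ∀ v ∈ Vc (L.length + 1), PhS β v ∈
          (Vc (L.length + 1)).map (PhS β).toLinearMap * U := by
        intro v hv
        have m3 := m1 v hv 1 h1
        rw [mul_one] at m3
        exact m3
      have m4 : ξ ∈ ((Vc (L.length + 1)).map (PhS β).toLinearMap * U) ^ L.length :=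
        pow_le_pow_left' hW _ h2
      rw [pow_succ']
      refine sub_mem (add_mem (Submodule.mul_mem_mul (add_mem (m2 _ (hV0 _ (hw j)))
        (m1 _ (hV0 _ hH) _ hl1)) m4) (Submodule.mul_mem_mul (m2 _ (hV0 _ hH)) h6)) ?_
      rw [← nsmul_eq_mul]
      exact nsmul_mem (Submodule.mul_mem_mul (m2 _ (hV1 _ (hVd 0 _ hH j))) m4) _
    · show (H * ∏ x, g x) ^ (L.length + 1) * pderiv j (pd L (Q * ∏ x, g x ^ q x)) = _
      exact om_step j _ _ _ _ _ _ h3 (SPH.UU_eq Q H (w j) g q j (hQ j))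
    · show _ = PhS β (∏ x, g x) ^ (L.length + 1) * _
      rw [map_sub, map_add, map_mul, map_mul, map_mul, map_mul, map_mul, hUU, hY, h8, h4, pow_succ,
        map_natCast]
      ring
    · show _ ≤ (L.length + 1) * d
      have hU1 := SPH.UU_degree H (w j) g q j d h0 hd (hwd j)
      have hd1 := SPH.uul_td j ω
      have hd2 := SPH.uul_td j (H * ∏ x, g x)
      refine (totalDegree_sub _ _).trans (max_le ((totalDegree_add _ _).trans (max_le ?_ ?_)) ?_)
      · refine (totalDegree_mul _ _).trans ?_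
        rw [add_mul]
        omega
      · refine (totalDegree_mul _ _).trans ?_
        rw [add_mul]
        omega
      · have h11 : ((L.length : MvPolynomial (Fin n) K)).totalDegree = 0 := by
          rw [← map_natCast (C : K →+* MvPolynomial (Fin n) K), totalDegree_C]
        refine (totalDegree_mul _ _).trans ?_
        have h12 := totalDegree_mul (pderiv j (H * ∏ x, g x)) ω
        rw [add_mul]
        omega

end Pool.Agent.CLO
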