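import Pool.Agent.SPE.Fr
import Pool.Agent.CLO.Defs
import Pool.Agent.SPH.UUl

/-!
# CLO: the logarithmic derivative of `∏ h_v^(b_v)`
-/

set_option autoImplicit false

namespace Pool.Agent.CLO

open MvPolynomial

variable {n : ℕ} {K : Type*} [Field K]

private theorem tri_xadd (a : Matrix (Fin n) (Fin n) (MvPolynomial (Fin n) K)) (j : Fin n)
    (x y : MvPolynomial (Fin n) K) :
    ∑ i, a j i * pderiv i (x + y) = ∑ i, a j i * pderiv i x + ∑ i, a j i * pderiv i y := by
  rw [← Finset.sum_add_distrib]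
  exact Finset.sum_congr rfl fun i _ => by rw [map_add, mul_add]

private theorem tri_xmul (a : Matrix (Fin n) (Fin n) (MvPolynomial (Fin n) K)) (j : Fin n)
    (x y : MvPolynomial (Fin n) K) :
    ∑ i, a j i * pderiv i (x * y) =
      x * ∑ i, a j i * pderiv i y + (∑ i, a j i * pderiv i x) * y := by
  rw [Finset.mul_sum, Finset.sum_mul, ← Finset.sum_add_distrib]
  refine Finset.sum_congr rfl fun i _ => ?_
  rw [Derivation.leibniz, smul_eq_mul, smul_eq_mul]
  ring

private theorem tri_one {a : Matrix (Fin n) (Fin n) (MvPolynomial (Fin n) K)} :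
    FC a (1 : Submodule K (MvPolynomial (Fin n) K)) := by
  intro g hg j
  obtain ⟨c, rfl⟩ := Submodule.mem_one.1 hg
  have h1 : ∑ i, a j i * pderiv i (algebraMap K (MvPolynomial (Fin n) K) c) = 0 := by
    refine Finset.sum_eq_zero fun i _ => ?_
    rw [Derivation.map_algebraMap, mul_zero]
  rw [h1]
  exact Submodule.zero_mem _

private theorem tri_mul {a : Matrix (Fin n) (Fin n) (MvPolynomial (Fin n) K)}
    {V W : Submodule K (MvPolynomial (Fin n) K)} (hV : FC a V) (hW : FC a W) : FC a (V * W) := by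
  intro g hg j
  refine Submodule.mul_induction_on hg ?_ ?_
  · intro x hx y hy
    rw [tri_xmul]
    exact Submodule.add_mem _ (Submodule.mul_mem_mul hx (hW y hy j))
      (Submodule.mul_mem_mul (hV x hx j) hy)
  · intro x y hx hy
    rw [tri_xadd]
    exact Submodule.add_mem _ hx hy

private theorem tri_sup {a : Matrix (Fin n) (Fin n) (MvPolynomial (Fin n) K)}
    {V W : Submodule K (MvPolynomial (Fin n) K)} (hV : FC a V) (hW : FC a W) : FC a (V ⊔ W) := by
  intro g hg j
  obtain ⟨x, hx, y, hy, rfl⟩ := Submodule.mem_sup.1 hg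
  rw [tri_xadd]
  exact Submodule.add_mem _ (Submodule.mem_sup_left (hV x hx j)) (Submodule.mem_sup_right (hW y hy j))

private theorem tri_bot {a : Matrix (Fin n) (Fin n) (MvPolynomial (Fin n) K)} :
    FC a (⊥ : Submodule K (MvPolynomial (Fin n) K)) := by
  intro g hg j
  rw [(Submodule.mem_bot K).1 hg]
  simp

private theorem tri_prod {a : Matrix (Fin n) (Fin n) (MvPolynomial (Fin n) K)} {ι : Type*}
    [DecidableEq ι] (V : ι → Submodule K (MvPolynomial (Fin n) K)) (s : Finset ι)
    (hV : ∀ v, FC a (V v) ∧ FiniteDimensional K (V v)) :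
    FC a (∏ v ∈ s, V v) ∧ FiniteDimensional K (∏ v ∈ s, V v : Submodule K (MvPolynomial (Fin n) K)) ∧
      Module.finrank K (∏ v ∈ s, V v : Submodule K (MvPolynomial (Fin n) K)) ≤
        ∏ v ∈ s, Module.finrank K (V v) := by
  induction s using Finset.induction_on with
  | empty =>
    rw [Finset.prod_empty, Finset.prod_empty]
    refine ⟨tri_one, ?_, ?_⟩
    · rw [Submodule.one_eq_span]
      infer_instance
    · rw [Submodule.one_eq_span]
      refine (finrank_span_le_card (R := K) ({1} : Set (MvPolynomial (Fin n) K))).trans ?_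
      rw [Set.toFinset_singleton, Finset.card_singleton]
  | insert v s hv ih =>
    rw [Finset.prod_insert hv, Finset.prod_insert hv]
    obtain ⟨h1, h2, h3⟩ := ih
    obtain ⟨h4, h5⟩ := SPE.finrank_mul (V v) (∏ v ∈ s, V v) (hV v).2 h2
    exact ⟨tri_mul (hV v).1 h1, h4, h5.trans (Nat.mul_le_mul_left _ h3)⟩

private theorem tri_sum {a : Matrix (Fin n) (Fin n) (MvPolynomial (Fin n) K)} {ι : Type*}
    [DecidableEq ι] (U : ι → Submodule K (MvPolynomial (Fin n) K)) (B : ℕ) (s : Finset ι)
    (hU : ∀ v, FC a (U v) ∧ FiniteDimensional K (U v) ∧ Module.finrank K (U v) ≤ B) :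
    FC a (s.sup U) ∧ FiniteDimensional K (s.sup U : Submodule K (MvPolynomial (Fin n) K)) ∧
      Module.finrank K (s.sup U : Submodule K (MvPolynomial (Fin n) K)) ≤ s.card * B := by
  induction s using Finset.induction_on with
  | empty =>
    rw [Finset.sup_empty]
    refine ⟨tri_bot, inferInstance, ?_⟩
    rw [finrank_bot]
    exact Nat.zero_le _
  | insert v s hv ih =>
    rw [Finset.sup_insert, Finset.card_insert_of_notMem hv]
    obtain ⟨h1, h2, h3⟩ := ih
    obtain ⟨h4, h5, h6⟩ := hU v
    refine ⟨tri_sup h4 h1, inferInstance, ?_⟩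
    refine (Submodule.finrank_add_le_finrank_add_finrank _ _).trans ?_
    rw [add_mul, one_mul, add_comm]
    exact Nat.add_le_add h3 h6

private theorem tri_const {f : MvPolynomial (Fin n) K} (hf : f.totalDegree ≤ 1)
    (k : Fin n) : ∃ c : K, MvPolynomial.pderiv k f = C c := by
  classical
  refine ⟨coeff 0 (MvPolynomial.pderiv k f), ?_⟩
  ext m
  rw [coeff_C]
  split_ifs with h
  · rw [h]
  · rw [coeff_pderiv]
    have h0 : coeff (m + Finsupp.single k 1) f = 0 := by
      apply coeff_eq_zero_of_totalDegree_lt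
      refine lt_of_le_of_lt hf ?_
      have h1 : ∑ i ∈ (m + Finsupp.single k 1 : Fin n →₀ ℕ).support,
          (m + Finsupp.single k 1 : Fin n →₀ ℕ) i =
          (m + Finsupp.single k 1 : Fin n →₀ ℕ).sum fun _ e => e := rfl
      rw [h1, Finsupp.sum_add_index' (fun _ => rfl) (fun _ _ _ => rfl),
        Finsupp.sum_single_index rfl]
      have h2 : 0 < m.sum fun _ e => e := by
        obtain ⟨i, hi⟩ : ∃ i, m i ≠ 0 := by
          by_contra hcon
          push Not at hcon
          exact h (by ext i; simp [hcon i])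
        have h3 : i ∈ m.support := Finsupp.mem_support_iff.2 hi
        exact lt_of_lt_of_le (Nat.pos_of_ne_zero hi)
          (Finset.single_le_sum (f := fun i => m i) (fun _ _ => Nat.zero_le _) h3)
      omega
    rw [h0, zero_mul]

private theorem tri_comm (i k : Fin n) (f : MvPolynomial (Fin n) K) :
    MvPolynomial.pderiv i (MvPolynomial.pderiv k f) =
      MvPolynomial.pderiv k (MvPolynomial.pderiv i f) := by
  ext m
  rw [coeff_pderiv, coeff_pderiv, coeff_pderiv, coeff_pderiv]
  by_cases hik : i = k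
  · subst hik; rfl
  · have e1 : m + Finsupp.single i 1 + Finsupp.single k 1 =
        m + Finsupp.single k 1 + Finsupp.single i 1 := add_right_comm _ _ _
    rw [e1]
    simp only [Finsupp.add_apply, Finsupp.single_apply, hik, Ne.symm hik, if_false, add_zero]
    ring

/-- the space spanned by the partial derivatives of a closed space -/
private theorem tri_deriv {a : Matrix (Fin n) (Fin n) (MvPolynomial (Fin n) K)}
    (ha : ∀ j i, (a j i).totalDegree ≤ 1) (W : Submodule K (MvPolynomial (Fin n) K))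
    (hcl : FC a W) (hfd : FiniteDimensional K W) :
    ∃ D : Submodule K (MvPolynomial (Fin n) K), FC a D ∧ FiniteDimensional K D ∧
      Module.finrank K D ≤ n * Module.finrank K W ∧ ∀ w ∈ W, ∀ k, pderiv k w ∈ D := by
  classical
  let Φ : (Fin n → W) →ₗ[K] MvPolynomial (Fin n) K :=
    ∑ k : Fin n, ((MvPolynomial.pderiv k : Derivation K (MvPolynomial (Fin n) K)
      (MvPolynomial (Fin n) K)) : MvPolynomial (Fin n) K →ₗ[K] MvPolynomial (Fin n) K).comp
        (W.subtype.comp (LinearMap.proj k))
  have hΦ : ∀ h : Fin n → W, Φ h = ∑ k, MvPolynomial.pderiv k ((h k : W) : MvPolynomial (Fin n) K) := by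
    intro h
    simp [Φ]
  have hmem : ∀ w ∈ W, ∀ k : Fin n, MvPolynomial.pderiv k w ∈ LinearMap.range Φ := by
    intro w hw k
    refine ⟨Pi.single k ⟨w, hw⟩, ?_⟩
    rw [hΦ, Finset.sum_eq_single k]
    · rw [Pi.single_eq_same]
    · intro b _ hb
      rw [Pi.single_eq_of_ne hb]
      simp
    · intro h; exact absurd (Finset.mem_univ k) h
  refine ⟨LinearMap.range Φ, ?_, inferInstance, ?_, hmem⟩
  · rintro v ⟨h, rfl⟩ j
    rw [hΦ]
    have e1 : ∑ i, a j i * MvPolynomial.pderiv i
        (∑ k, MvPolynomial.pderiv k ((h k : W) : MvPolynomial (Fin n) K)) =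
        ∑ k, (MvPolynomial.pderiv k (∑ i, a j i *
            MvPolynomial.pderiv i ((h k : W) : MvPolynomial (Fin n) K)) -
          ∑ i, MvPolynomial.pderiv k (a j i) *
            MvPolynomial.pderiv i ((h k : W) : MvPolynomial (Fin n) K)) := by
      simp only [map_sum, Finset.mul_sum, Derivation.leibniz, smul_eq_mul, Finset.sum_add_distrib]
      rw [Finset.sum_comm]
      refine Finset.sum_congr rfl fun k _ => ?_
      have e2 : ∑ i, MvPolynomial.pderiv i ((h k : W) : MvPolynomial (Fin n) K) *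
          MvPolynomial.pderiv k (a j i) = ∑ i, MvPolynomial.pderiv k (a j i) *
            MvPolynomial.pderiv i ((h k : W) : MvPolynomial (Fin n) K) :=
        Finset.sum_congr rfl fun i _ => mul_comm _ _
      rw [e2, add_sub_cancel_right]
      refine Finset.sum_congr rfl fun i _ => ?_
      rw [tri_comm i k]
    rw [e1]
    refine Submodule.sum_mem _ fun k _ => Submodule.sub_mem _ ?_ ?_
    · exact hmem _ (hcl _ (h k).2 j) k
    · refine Submodule.sum_mem _ fun i _ => ?_
      obtain ⟨c, hc⟩ := tri_const (ha j i) k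
      rw [hc, ← smul_eq_C_mul]
      exact Submodule.smul_mem _ _ (hmem _ (h k).2 i)
  · refine (LinearMap.finrank_range_le Φ).trans ?_
    rw [Module.finrank_pi_fintype]
    simp only [Finset.sum_const, Finset.card_univ, Fintype.card_fin, smul_eq_mul]
    exact le_refl _

private theorem tri_prod_mem {ι : Type*} [DecidableEq ι] (s : Finset ι)
    (h : ι → MvPolynomial (Fin n) K) (V : ι → Submodule K (MvPolynomial (Fin n) K))
    (hV : ∀ v, h v ∈ V v) : ∏ v ∈ s, h v ∈ ∏ v ∈ s, V v := by
  induction s using Finset.induction_on with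
  | empty =>
    rw [Finset.prod_empty, Finset.prod_empty]
    exact Submodule.one_le.1 le_rfl
  | insert v s hv ih =>
    rw [Finset.prod_insert hv, Finset.prod_insert hv]
    exact Submodule.mul_mem_mul (hV v) ih

/-- The logarithmic derivatives of `∏ h_v^(b_v)` have the denominator `∏ h_v` and numerators in a
space of dimension at most `(1 + r n) ∏ dim V_v` closed under the frame. -/
theorem exists_triple (a : Matrix (Fin n) (Fin n) (MvPolynomial (Fin n) K))
    (ha : ∀ j i, (a j i).totalDegree ≤ 1) {r : ℕ} (h : Fin r → MvPolynomial (Fin n) K)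
    (V : Fin r → Submodule K (MvPolynomial (Fin n) K)) (b : Fin r → ℕ)
    (hV : ∀ v, h v ∈ V v ∧ FC a (V v) ∧ FiniteDimensional K (V v)) (hh : ∀ v, h v ≠ 0) :
    ∃ W : Submodule K (MvPolynomial (Fin n) K), FC a W ∧ FiniteDimensional K W ∧
      Module.finrank K W ≤ (1 + r * n) * ∏ v, Module.finrank K (V v) ∧ ∏ v, h v ∈ W ∧
      ∀ i, ∃ w ∈ W, (∏ v, h v) * pderiv i (∏ v, h v ^ b v) = (∏ v, h v ^ b v) * w ∧
        w.totalDegree ≤ (∏ v, h v).totalDegree := by
  classical
  choose D hD1 hD2 hD3 hD4 using fun v => tri_deriv ha (V v) (hV v).2.1 (hV v).2.2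
  obtain ⟨hp1, hp2, hp3⟩ := tri_prod V Finset.univ fun v => (hV v).2
  let U : Fin r → Submodule K (MvPolynomial (Fin n) K) := fun v =>
    D v * ∏ v' ∈ Finset.univ.erase v, V v'
  have hU : ∀ v, FC a (U v) ∧ FiniteDimensional K (U v) ∧
      Module.finrank K (U v) ≤ n * ∏ v, Module.finrank K (V v) := by
    intro v
    obtain ⟨he1, he2, he3⟩ := tri_prod V (Finset.univ.erase v) fun v => (hV v).2
    obtain ⟨h4, h5⟩ := SPE.finrank_mul (D v) (∏ v' ∈ Finset.univ.erase v, V v') (hD2 v) he2
    refine ⟨tri_mul (hD1 v) he1, h4, h5.trans ?_⟩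
    rw [← Finset.mul_prod_erase Finset.univ (fun v => Module.finrank K (V v)) (Finset.mem_univ v),
      ← mul_assoc]
    exact Nat.mul_le_mul (hD3 v) he3
  obtain ⟨hs1, hs2, hs3⟩ := tri_sum U _ Finset.univ hU
  refine ⟨(∏ v, V v) ⊔ Finset.univ.sup U, tri_sup hp1 hs1, inferInstance, ?_,
    Submodule.mem_sup_left (tri_prod_mem _ h V fun v => (hV v).1), fun i => ?_⟩
  · refine (Submodule.finrank_add_le_finrank_add_finrank _ _).trans ?_
    rw [Finset.card_univ, Fintype.card_fin, ← mul_assoc] at hs3
    rw [add_mul, one_mul]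
    exact Nat.add_le_add hp3 hs3
  · refine ⟨∑ v, b v • (pderiv i (h v) * ∏ v' ∈ Finset.univ.erase v, h v'), ?_, ?_, ?_⟩
    · refine Submodule.mem_sup_right (Submodule.sum_mem _ fun v hv => ?_)
      have h1 : U v ≤ Finset.univ.sup U := Finset.le_sup hv
      apply h1
      refine nsmul_mem ?_ _
      exact Submodule.mul_mem_mul (hD4 v _ (hV v).1 i) (tri_prod_mem _ h V fun v => (hV v).1)
    · have h1 := SPH.uul_ind (pderiv i : Derivation K (MvPolynomial (Fin n) K)
        (MvPolynomial (Fin n) K)) h b Finset.univ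
      rw [mul_comm, h1, mul_comm]
    · exact SPH.sum_degree Finset.univ h b i fun v _ => hh v

end Pool.Agent.CLO
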