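import Pool.Agent.CLO.Def2
import Pool.Agent.CLO.Oms
import Pool.Agent.CLO.Mnr
import Pool.Agent.CLO.LowC
import Pool.Agent.CLO.Hit
import Pool.Agent.CLO.Bas
import Pool.Agent.CLO.Prs
import Pool.Agent.CLO.Lam
import Pool.Agent.CLO.Tri
import Pool.Agent.CLO.Chn

/-!
# CLO: polynomials in small spaces are preserved
-/

set_option autoImplicit false

namespace Pool.Agent.CLO

open MvPolynomial Pool.Agent.ORB Pool.Agent.ORG Pool.Agent.ORA

variable {n : ℕ} {O : Type*} [CommRing O] [IsDomain O] [ValuationRing O] {K : Type*} [Field K]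
  [Algebra O K] [IsFractionRing O K]

omit [IsDomain O] [ValuationRing O] in
theorem det_map {R' : Type*} [CommRing R'] (f : O →+* R') (φ : Fin n → MvPolynomial (Fin n) O)
    (u : O) (hφ : (Matrix.of fun i j => pderiv i (φ j)).det = C u) :
    (Matrix.of fun i j => pderiv i (MvPolynomial.map f (φ j))).det = C (f u) := by
  have h1 := congrArg (MvPolynomial.map f) hφ
  rw [RingHom.map_det, map_C] at h1
  rw [← h1]
  congr 1
  ext1 i j
  rw [Matrix.of_apply, RingHom.mapMatrix_apply, Matrix.map_apply, Matrix.of_apply, pderiv_map]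

theorem pres_of_space [CharZero (RF O)] (φ : Fin n → MvPolynomial (Fin n) O) (u : O)
    (hu : IsUnit u) (hφ : (Matrix.of fun i j => pderiv i (φ j)).det = C u) (M z0 t0 : ℕ)
    (β : Fin n → O)
    (hβ : ∀ j, β j = eval (fun i : Fin n => ((z0 * AA M (i + 1) t0 : ℕ) : O)) (φ j))
    (a : Matrix (Fin n) (Fin n) (MvPolynomial (Fin n) O)) (μ N : ℕ)
    (hM : n * ((μ + 1) * N) ^ 2 ≤ M)
    (W : Submodule K (PowerSeries (MvPolynomial (Fin n) K)))
    (hW : XC (a.map (MvPolynomial.map (algebraMap O K))) (fun i => algebraMap O K (β i)) W)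
    (hN : Dm μ W N)
    (hdet : (Matrix.of fun j i => eval (fun k => IsLocalRing.residue O (β k))
      (rd O (a j i))).det ≠ 0)
    (P : MvPolynomial (Fin n) K) (R0 : MvPolynomial (Fin n) O) (hR0 : IsUnit (eval β R0))
    (ξ : PowerSeries (MvPolynomial (Fin n) K)) (hξ : ξ ∈ W)
    (hP : PhS (fun i => algebraMap O K (β i)) P =
      PhS (fun i => algebraMap O K (β i)) (MvPolynomial.map (algebraMap O K) R0) * ξ)
    (hd : P.totalDegree ≤ μ) : Pres O (Psi (fun j => rd O (φ j)) M 2) P := by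
  intro G x hx hG hG0
  obtain ⟨V, m, hfd, hs, hV, hmem, hne, hlow⟩ :=
    low_space a β μ N W hW hN hdet P R0 hR0 ξ hξ hP hd G x hG hG0
  refine hit_lowest (fun j => rd O (φ j)) (IsLocalRing.residue O u)
    ((IsLocalRing.residue_ne_zero_iff_isUnit u).2 hu) (det_map (IsLocalRing.residue O) φ u hφ) M
    (z0 : RF O) (t0 : RF O) (fun i : Fin n => ((z0 * AA M (i + 1) t0 : ℕ) : RF O))
    (fun k => IsLocalRing.residue O (β k)) ?_ ?_ (rd O G) m ((μ + 1) * N) hM V hfd hs hV hmem hne hlow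
  · intro i
    show _ = (z0 : RF O) * (cv (RF O) M (i + 1)).eval (t0 : RF O)
    rw [cv_eval, Nat.cast_mul]
  · intro j
    show IsLocalRing.residue O (β j) = _
    rw [hβ, MvPolynomial.map_eval]
    have h5 : (IsLocalRing.residue O) ∘ (fun i : Fin n => ((z0 * AA M (i + 1) t0 : ℕ) : O)) =
        fun i : Fin n => ((z0 * AA M (i + 1) t0 : ℕ) : RF O) := by
      funext i
      rw [Function.comp_apply, map_natCast]
    rw [h5]

end Pool.Agent.CLO
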