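import Pool.Agent.CLO.LfA

/-!
# CLO: higher derivatives of one leaf
-/

set_option autoImplicit false

namespace Pool.Agent.CLO

open MvPolynomial Pool.Agent.ORB Pool.Agent.ORG Pool.Agent.ORA

variable {n : ℕ} {K : Type*} [Field K]

theorem one_le_finrank (V : Submodule K (MvPolynomial (Fin n) K)) (hfd : FiniteDimensional K V)
    (h : MvPolynomial (Fin n) K) (hh : h ∈ V) (h0 : h ≠ 0) : 1 ≤ Module.finrank K V := by
  have h1 : V ≠ ⊥ := by
    intro h2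
    rw [h2] at hh
    exact h0 ((Submodule.mem_bot K).1 hh)
  have h3 : Module.finrank K V ≠ 0 := by
    intro h4
    exact h1 (Submodule.finrank_eq_zero.1 h4)
  omega

theorem leaf_omega (a : Matrix (Fin n) (Fin n) (MvPolynomial (Fin n) K))
    (ha : ∀ j i, (a j i).totalDegree ≤ 1) (β : Fin n → K) (μ c s d Δ : ℕ) {r : ℕ}
    (h : Fin r → MvPolynomial (Fin n) K) (V : Fin r → Submodule K (MvPolynomial (Fin n) K))
    (b : Fin r → ℕ) (hV : ∀ v, h v ∈ V v ∧ FC a (V v) ∧ FiniteDimensional K (V v))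
    (hs : (1 + r * n) * ∏ v, Module.finrank K (V v) ≤ s) (hh : ∀ v, h v ≠ 0) {m : ℕ} (hm : m ≤ d)
    (p : Fin m → MvPolynomial (Fin c) K) (e : Fin m → Fin c → K) (l : Fin m → Fin c → Fin n → K)
    (q : Fin m → ℕ)
    (hX : ∀ i j x, ∑ k, a j k * C (l i x k) ∈
      Submodule.span K ({1} ∪ Set.range fun x' => SPE.aff (e i x') (l i x')))
    (h0 : ∀ i, eval β (SPE.junta (p i) (e i) (l i)) ≠ 0)
    (hdeg : ((∏ v, h v) * ∏ i, SPE.junta (p i) (e i) (l i)).totalDegree ≤ d) (m' : ℕ)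
    (hm' : m' ≤ Δ + 1) :
    ∃ W : Submodule K (PowerSeries (MvPolynomial (Fin n) K)), XC a β W ∧
      Dm μ W (((n + 1) ^ (Δ + 1) * s * ((d + 1) * (μ + 1) ^ c)) ^ (Δ + 1)) ∧
      ∀ L : List (Fin n), L.length = m' → ∃ (ω : MvPolynomial (Fin n) K)
        (ξ : PowerSeries (MvPolynomial (Fin n) K)), ξ ∈ W ∧
        ((∏ v, h v) * ∏ i, SPE.junta (p i) (e i) (l i)) ^ m' *
          pd L ((∏ v, h v ^ b v) * ∏ i, SPE.junta (p i) (e i) (l i) ^ q i) =
          ((∏ v, h v ^ b v) * ∏ i, SPE.junta (p i) (e i) (l i) ^ q i) * ω ∧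
        PhS β ω = PhS β (∏ i, SPE.junta (p i) (e i) (l i)) ^ m' * ξ ∧ ω.totalDegree ≤ m' * d := by
  classical
  obtain ⟨W0, hW0, hW0fd, hW0r, hHW, hw⟩ := exists_triple a ha h V b hV hh
  choose w hwW hwQ hwd using hw
  obtain ⟨Vc, hVc0, hVc⟩ := exists_chain a ha W0 hW0 hW0fd
  obtain ⟨U, hUX, hUD, h1U, hUm, hlam⟩ := exists_lam a β μ d m hm p e l hX h0
  have hs1 : 1 ≤ s := by
    refine le_trans ?_ hs
    refine Nat.mul_pos (by omega) (Finset.prod_pos fun v _ => ?_)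
    exact one_le_finrank (V v) (hV v).2.2 (h v) (hV v).1 (hh v)
  have hg0 : ∀ i, SPE.junta (p i) (e i) (l i) ≠ 0 := by
    intro i hi
    apply h0 i
    rw [hi, map_zero]
  have hHG : (∏ v, h v) * ∏ i, SPE.junta (p i) (e i) (l i) ≠ 0 :=
    mul_ne_zero (Finset.prod_ne_zero_iff.2 fun v _ => hh v)
      (Finset.prod_ne_zero_iff.2 fun i _ => hg0 i)
  have hmono : ∀ j, Vc 0 ≤ Vc j := by
    intro j
    induction j with
    | zero => exact le_rfl
    | succ j ih => exact ih.trans (hVc j).2.2.2.1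
  refine ⟨((Vc m').map (PhS β).toLinearMap * U) ^ m', ?_, ?_, ?_⟩
  · exact XC_pow (XC_mul (XC_PhS a β _ (hVc m').1) hUX) m'
  · have h1 : Module.finrank K (Vc m') ≤ (n + 1) ^ (Δ + 1) * s :=
      (hVc m').2.2.1.trans (Nat.mul_le_mul (Nat.pow_le_pow_right (Nat.succ_pos _) hm')
        (hW0r.trans hs))
    have h2 := Dm_pow (Dm_mul (Dm_PhS μ β (Vc m') (hVc m').2.1 _ h1) hUm) m'
    refine Dm_le h2 (Nat.pow_le_pow_right ?_ hm')
    exact Nat.mul_pos (Nat.mul_pos (Nat.pow_pos (Nat.succ_pos _)) hs1)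
      (Nat.mul_pos (Nat.succ_pos _) (Nat.pow_pos (Nat.succ_pos _)))
  · intro L hL
    have h3 := exists_omega β d (∏ v, h v) (∏ v, h v ^ b v) w Vc (fun j => (hVc j).2.2.2.1)
      (fun j => (hVc j).2.2.2.2) (by rw [hVc0]; exact hHW) (fun i => by rw [hVc0]; exact hwW i)
      hwQ hwd (fun i => SPE.junta (p i) (e i) (l i)) q U hUD h1U hlam hHG hdeg L
    rw [hL] at h3
    exact h3

end Pool.Agent.CLO
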