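import Pool.Agent.CLO.Defs
import Pool.Agent.SPE.Resid

/-!
# CLO: the dimension of the residues
-/

set_option autoImplicit false

namespace Pool.Agent.CLO

open MvPolynomial

variable {n : ℕ} {O : Type*} [CommRing O] [IsDomain O] [ValuationRing O] {K : Type*} [Field K]
  [Algebra O K] [IsFractionRing O K]

omit [IsFractionRing O K] in
/-- the set `Im W m` as a submodule -/
private theorem lowa_sub (W : Submodule K (PowerSeries (MvPolynomial (Fin n) K))) (m : ℕ) :
    ∃ V : Submodule (RF O) (MvPolynomial (Fin n) (RF O)), (V : Set _) = Im (O := O) W m := by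
  refine ⟨{ carrier := Im (O := O) W m, add_mem' := ?_, zero_mem' := ?_, smul_mem' := ?_ }, rfl⟩
  · rintro c c' ⟨η, ⟨ξ, hξ, h1⟩, h2, h3⟩ ⟨η', ⟨ξ', hξ', h1'⟩, h2', h3'⟩
    refine ⟨η + η', ⟨ξ + ξ', W.add_mem hξ hξ', ?_⟩, ?_, ?_⟩
    · intro i hi
      rw [map_add, map_add, map_add, h1 i hi, h1' i hi]
    · intro i hi
      rw [map_add, map_add, h2 i hi, h2' i hi, add_zero]
    · rw [map_add, map_add, h3, h3']
  · refine ⟨0, ⟨0, W.zero_mem, ?_⟩, ?_, ?_⟩
    · intro i _
      rw [map_zero, map_zero, map_zero]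
    · intro i _
      rw [map_zero, map_zero]
    · rw [map_zero, map_zero]
  · rintro x c ⟨η, ⟨ξ, hξ, h1⟩, h2, h3⟩
    obtain ⟨o, rfl⟩ := IsLocalRing.residue_surjective x
    refine ⟨PowerSeries.C (C o) * η, ⟨algebraMap O K o • ξ, W.smul_mem _ hξ, ?_⟩, ?_, ?_⟩
    · intro i hi
      rw [PowerSeries.coeff_C_mul, map_mul, MvPolynomial.map_C, h1 i hi]
      have h4 : PowerSeries.coeff i (algebraMap O K o • ξ) =
          algebraMap O K o • PowerSeries.coeff i ξ := rfl
      rw [h4, MvPolynomial.smul_eq_C_mul]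
    · intro i hi
      rw [PowerSeries.coeff_C_mul, map_mul, h2 i hi, mul_zero]
    · rw [PowerSeries.coeff_C_mul, map_mul, h3, MvPolynomial.map_C, MvPolynomial.smul_eq_C_mul]

private theorem lowa_coeff (μ m : ℕ) (hm : m ≤ μ) (ξ : PowerSeries (MvPolynomial (Fin n) K)) :
    (trS μ ξ).coeff m = PowerSeries.coeff m ξ := by
  show (∑ i ∈ Finset.range (μ + 1), Polynomial.monomial i (PowerSeries.coeff i ξ)).coeff m = _
  rw [Polynomial.finsetSum_coeff]
  rw [Finset.sum_eq_single m]
  · rw [Polynomial.coeff_monomial, if_pos rfl]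
  · intro i _ hi
    rw [Polynomial.coeff_monomial, if_neg hi]
  · intro h
    exact absurd (Finset.mem_range.mpr (by omega)) h

theorem finrank_Im (μ m N : ℕ) (hm : m ≤ μ)
    (W : Submodule K (PowerSeries (MvPolynomial (Fin n) K))) (hW : Dm μ W N) :
    FiniteDimensional (RF O) (Submodule.span (RF O) (Im (O := O) W m)) ∧
      Module.finrank (RF O) (Submodule.span (RF O) (Im (O := O) W m)) ≤ N := by
  classical
  obtain ⟨V, hV⟩ := lowa_sub (O := O) W m
  rw [← hV, Submodule.span_eq]
  obtain ⟨hfd, hfr⟩ := hW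
  have hrank : Module.rank (RF O) V ≤ (N : ℕ) := by
    refine rank_le fun s hs => ?_
    set r := s.card with hr
    let e : Fin r ≃ s := (Fintype.equivFinOfCardEq (Fintype.card_coe s)).symm
    have hs' : LinearIndependent (RF O)
        (fun j : Fin r => ((e j : V) : MvPolynomial (Fin n) (RF O))) := by
      have h1 : LinearIndependent (RF O) (fun j : Fin r => ((e j : s) : V)) :=
        hs.comp e e.injective
      exact h1.map' V.subtype V.ker_subtype
    have hch : ∀ j : Fin r, ((e j : V) : MvPolynomial (Fin n) (RF O)) ∈ Im (O := O) W m := by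
      intro j
      rw [← hV]
      exact (e j : V).2
    choose η hη h2 h3 using hch
    choose ξ hξ h1 using hη
    have hwi : LinearIndependent (RF O)
        (fun j => MvPolynomial.map (IsLocalRing.residue O) (PowerSeries.coeff m (η j))) := by
      have h4 : (fun j => MvPolynomial.map (IsLocalRing.residue O) (PowerSeries.coeff m (η j))) =
          fun j : Fin r => ((e j : V) : MvPolynomial (Fin n) (RF O)) := funext h3
      rw [h4]
      exact hs'
    have hK := SPE.indep_of_residue (K := K) (fun j => PowerSeries.coeff m (η j)) hwi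
    have hKV : LinearIndependent K
        (fun j : Fin r => (⟨trS μ (ξ j), Submodule.mem_map_of_mem (hξ j)⟩ : W.map (trS μ))) := by
      refine LinearIndependent.of_comp
        (((Polynomial.lcoeff (MvPolynomial (Fin n) K) m).restrictScalars K).comp
          (W.map (trS μ)).subtype) ?_
      have h5 : (((Polynomial.lcoeff (MvPolynomial (Fin n) K) m).restrictScalars K).comp
          (W.map (trS μ)).subtype) ∘
          (fun j : Fin r => (⟨trS μ (ξ j), Submodule.mem_map_of_mem (hξ j)⟩ : W.map (trS μ))) =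
          fun j => MvPolynomial.map (algebraMap O K) (PowerSeries.coeff m (η j)) := by
        funext j
        rw [h1 j m le_rfl]
        exact lowa_coeff μ m hm (ξ j)
      rw [h5]
      exact hK
    have h6 := hKV.fintype_card_le_finrank
    rw [Fintype.card_fin] at h6
    exact h6.trans hfr
  refine ⟨?_, ?_⟩
  · have h1 : Module.rank (RF O) V < Cardinal.aleph0 :=
      lt_of_le_of_lt hrank Cardinal.natCast_lt_aleph0
    exact Module.rank_lt_aleph0_iff.1 h1
  · exact Module.finrank_le_of_rank_le hrank

end Pool.Agent.CLO
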