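import Pool.Agent.CLO.Defs

/-!
# CLO: `PhS` and `dS`
-/

set_option autoImplicit false

namespace Pool.Agent.CLO

open MvPolynomial

variable {n : ℕ} {R R' : Type*} [CommRing R] [CommRing R']

theorem dS_mul (i : Fin n) (ξ η : PowerSeries (MvPolynomial (Fin n) R)) :
    dS i (ξ * η) = ξ * dS i η + dS i ξ * η := by
  ext1 m
  rw [coeff_dS, PowerSeries.coeff_mul, map_sum, map_add, PowerSeries.coeff_mul, PowerSeries.coeff_mul,
    ← Finset.sum_add_distrib]
  refine Finset.sum_congr rfl fun p _ => ?_
  rw [pderiv_mul, coeff_dS, coeff_dS, add_comm]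

private theorem sr_dS_C (i : Fin n) (f : MvPolynomial (Fin n) R) :
    dS i (PowerSeries.C f) = PowerSeries.C (pderiv i f) := by
  ext1 m
  rw [coeff_dS, PowerSeries.coeff_C, PowerSeries.coeff_C]
  split_ifs
  · rfl
  · rw [map_zero]

private theorem sr_dS_X (i : Fin n) (ξ : PowerSeries (MvPolynomial (Fin n) R)) :
    dS i (PowerSeries.X * ξ) = PowerSeries.X * dS i ξ := by
  ext1 m
  rw [coeff_dS]
  cases m with
  | zero => rw [PowerSeries.coeff_zero_X_mul, PowerSeries.coeff_zero_X_mul, map_zero]
  | succ m => rw [PowerSeries.coeff_succ_X_mul, PowerSeries.coeff_succ_X_mul, coeff_dS]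

theorem dS_C (i : Fin n) (x : R) :
    dS i (PowerSeries.C (C x) : PowerSeries (MvPolynomial (Fin n) R)) = 0 := by
  rw [sr_dS_C, pderiv_C, map_zero]

private theorem sr_PhS_C (β : Fin n → R) (x : R) :
    PhS β (C x) = PowerSeries.C (C x) := by
  unfold PhS
  rw [aeval_C, PowerSeries.algebraMap_apply, MvPolynomial.algebraMap_eq]

private theorem sr_PhS_X (β : Fin n → R) (j : Fin n) :
    PhS β (X j) = PowerSeries.C (C (β j)) + PowerSeries.X * PowerSeries.C (X j) := by
  unfold PhS
  rw [aeval_X]

theorem dS_PhS (β : Fin n → R) (i : Fin n) (w : MvPolynomial (Fin n) R) :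
    dS i (PhS β w) = PowerSeries.X * PhS β (pderiv i w) := by
  induction w using MvPolynomial.induction_on with
  | C a => rw [sr_PhS_C, dS_C, pderiv_C, map_zero, mul_zero]
  | add p q hp hq => rw [map_add, map_add, map_add, map_add, hp, hq, mul_add]
  | mul_X p j hp =>
    rw [map_mul, dS_mul, hp, sr_PhS_X, map_add, dS_C, sr_dS_X, sr_dS_C, pderiv_mul, map_add, map_mul,
      map_mul, sr_PhS_X, zero_add]
    have h1 : PhS β (pderiv i (X j)) = PowerSeries.C (pderiv i (X j)) := by
      classical
      rw [pderiv_X]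
      by_cases hij : j = i
      · subst hij
        rw [Pi.single_eq_same, map_one, map_one]
      · rw [Pi.single_eq_of_ne hij, map_zero, map_zero]
    rw [h1]
    ring

theorem PhS_map (f : R →+* R') (β : Fin n → R) (w : MvPolynomial (Fin n) R) :
    PowerSeries.map (MvPolynomial.map f) (PhS β w) =
      PhS (fun i => f (β i)) (MvPolynomial.map f w) := by
  induction w using MvPolynomial.induction_on with
  | C a => rw [sr_PhS_C, PowerSeries.map_C, MvPolynomial.map_C, sr_PhS_C]
  | add p q hp hq => rw [map_add, map_add, map_add, map_add, hp, hq]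
  | mul_X p j hp =>
    rw [map_mul, map_mul, map_mul, map_mul, hp, sr_PhS_X, MvPolynomial.map_X, sr_PhS_X, map_add,
      map_mul, PowerSeries.map_C, PowerSeries.map_C, PowerSeries.map_X, MvPolynomial.map_C,
      MvPolynomial.map_X]

theorem dS_map (f : R →+* R') (i : Fin n) (ξ : PowerSeries (MvPolynomial (Fin n) R)) :
    PowerSeries.map (MvPolynomial.map f) (dS i ξ) =
      dS i (PowerSeries.map (MvPolynomial.map f) ξ) := by
  ext1 m
  rw [PowerSeries.coeff_map, coeff_dS, coeff_dS, PowerSeries.coeff_map, pderiv_map]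

theorem coeff_zero_PhS (β : Fin n → R) (w : MvPolynomial (Fin n) R) :
    PowerSeries.coeff 0 (PhS β w) = C (eval β w) := by
  rw [PowerSeries.coeff_zero_eq_constantCoeff_apply]
  induction w using MvPolynomial.induction_on with
  | C a => rw [sr_PhS_C, PowerSeries.constantCoeff_C, eval_C]
  | add p q hp hq => rw [map_add, map_add, map_add, map_add, hp, hq]
  | mul_X p j hp =>
    rw [map_mul, map_mul, map_mul, map_mul, hp, sr_PhS_X, map_add, map_mul,
      PowerSeries.constantCoeff_C, PowerSeries.constantCoeff_X, zero_mul, add_zero, eval_X]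

end Pool.Agent.CLO
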